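import Pool.Agent.MP_ce43bb_an.H78.Split

/-! Free Appell polynomials: the derivation rule and the bound on their vacuum parts. -/

noncomputable section

namespace Pool.Agent.MP_ce43bb_an.H78

variable {Λ : Type}

theorem exists_appell {R : Type} [Ring R] [Algebra ℂ R] (X : Λ → R) (κ : List Λ → ℂ) :
    ∃ W : List Λ → R, W [] = 1 ∧
      ∀ ℓ u, W (ℓ :: u) = X ℓ * W u - S2 (fun p r => κ (ℓ :: p) • W r) u := by
  let : Inhabited R := ⟨0⟩
  obtain ⟨W, hW⟩ := exists_causal (Λ := Λ) (N := R)
    (fun W u => match u with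
      | [] => 1
      | ℓ :: u => X ℓ * W u - S2 (fun p r => κ (ℓ :: p) • W r) u) (by
      intro f g u h
      cases u with
      | nil => rfl
      | cons ℓ u =>
        simp only
        rw [h u (by simp), S2_congr fun p r hpr => by
          rw [h r (by simp [← hpr])]])
  exact ⟨W, hW [], fun ℓ u => hW (ℓ :: u)⟩

theorem appell_deriv {R : Type} [Ring R] [Algebra ℂ R] {X : Λ → R} {κ : List Λ → ℂ}
    {W : List Λ → R} (h0 : W [] = 1)
    (hs : ∀ ℓ u, W (ℓ :: u) = X ℓ * W u - S2 (fun p r => κ (ℓ :: p) • W r) u) (ρ : R)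
    (u : List Λ) :
    ρ * W u - W u * ρ = S3 (fun a ℓ b => W a * (ρ * X ℓ - X ℓ * ρ) * W b) u := by
  induction hm : u.length using Nat.strong_induction_on generalizing u with
  | _ m ih =>
    cases u with
    | nil => simp [h0, S3]
    | cons ℓ u =>
      have ih' : ∀ r : List Λ, r.length ≤ u.length →
          ρ * W r - W r * ρ = S3 (fun a ℓ b => W a * (ρ * X ℓ - X ℓ * ρ) * W b) r :=
        fun r hr => ih r.length (by simp at hm; omega) r rfl
      let D : R →ₗ[ℂ] R := LinearMap.mulLeft ℂ ρ - LinearMap.mulRight ℂ ρ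
      have hD : ∀ T, D T = ρ * T - T * ρ := fun T => rfl
      have e1 : D (S2 (fun p r => κ (ℓ :: p) • W r) u) =
          S3 (fun a ℓ' b => S2 (fun p r => κ (ℓ :: p) • W r) a * (ρ * X ℓ' - X ℓ' * ρ) * W b) u := by
        rw [map_S2]
        have : ∀ a ℓ' b, S2 (fun p r => κ (ℓ :: p) • W r) a * (ρ * X ℓ' - X ℓ' * ρ) * W b =
            S2 (fun p r => κ (ℓ :: p) • (W r * (ρ * X ℓ' - X ℓ' * ρ) * W b)) a := by
          intro a ℓ' b
          rw [mul_assoc]
          have := map_S2 (AddMonoidHom.mulRight ((ρ * X ℓ' - X ℓ' * ρ) * W b))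
            (fun p r => κ (ℓ :: p) • W r) a
          simpa [mul_assoc] using this
        simp only [this, S3_S2]
        refine S2_congr fun p r hpr => ?_
        rw [map_smul, hD, ih' r (by simp [← hpr])]
        exact map_S3 (DistribSMul.toAddMonoidHom R (κ (ℓ :: p))) _ r
      have e2 : X ℓ * (ρ * W u - W u * ρ) =
          S3 (fun a ℓ' b => X ℓ * W a * (ρ * X ℓ' - X ℓ' * ρ) * W b) u := by
        rw [ih' u le_rfl]
        have := map_S3 (AddMonoidHom.mulLeft (X ℓ))
          (fun a ℓ b => W a * (ρ * X ℓ - X ℓ * ρ) * W b) u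
        simpa [mul_assoc] using this
      have e3 : S3 (fun a ℓ' b => W (ℓ :: a) * (ρ * X ℓ' - X ℓ' * ρ) * W b) u +
          S3 (fun a ℓ' b => S2 (fun p r => κ (ℓ :: p) • W r) a * (ρ * X ℓ' - X ℓ' * ρ) * W b) u =
          S3 (fun a ℓ' b => X ℓ * W a * (ρ * X ℓ' - X ℓ' * ρ) * W b) u := by
        rw [← S3_add]
        refine S3_congr fun a ℓ' b _ => ?_
        rw [hs]
        noncomm_ring
      simp only [S3]
      rw [← e1, ← e2, hD] at e3
      rw [eq_sub_of_add_eq e3, hs, h0]
      noncomm_ring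

variable {A : Type} [AddCommGroup A] [Fintype A] [DecidableEq A]

/-- Convolution on a finite group of exponent two. -/
def conv (f g : A → ℂ) : A → ℂ := fun c => ∑ a, f a * g (a + c)

/-- The `ℓ¹` norm. -/
def nu (f : A → ℂ) : ℝ := ∑ a, ‖f a‖

omit [AddCommGroup A] [DecidableEq A] in
theorem nu_nonneg (f : A → ℂ) : 0 ≤ nu f := Finset.sum_nonneg fun _ _ => norm_nonneg _

omit [AddCommGroup A] [DecidableEq A] in
theorem nu_add (f g : A → ℂ) : nu (f + g) ≤ nu f + nu g := by
  simp only [nu, ← Finset.sum_add_distrib]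
  exact Finset.sum_le_sum fun a _ => norm_add_le _ _

omit [AddCommGroup A] [DecidableEq A] in
theorem nu_sub (f g : A → ℂ) : nu (f - g) ≤ nu f + nu g := by
  simp only [nu, ← Finset.sum_add_distrib]
  exact Finset.sum_le_sum fun a _ => norm_sub_le _ _

omit [AddCommGroup A] [DecidableEq A] in
theorem norm_le_nu (f : A → ℂ) (a : A) : ‖f a‖ ≤ nu f :=
  Finset.single_le_sum (f := fun a => ‖f a‖) (fun _ _ => norm_nonneg _) (Finset.mem_univ a)

omit [DecidableEq A] in
theorem nu_conv (f g : A → ℂ) : nu (conv f g) ≤ nu f * nu g := by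
  calc nu (conv f g) ≤ ∑ c, ∑ a, ‖f a‖ * ‖g (a + c)‖ :=
        Finset.sum_le_sum fun c _ => (norm_sum_le _ _).trans (le_of_eq (by simp))
    _ = ∑ a, ‖f a‖ * nu g := by
        rw [Finset.sum_comm]
        refine Finset.sum_congr rfl fun a _ => ?_
        rw [← Finset.mul_sum, nu, ← Equiv.sum_comp (Equiv.addLeft a) (fun c => ‖g c‖)]
        rfl
    _ = nu f * nu g := by rw [← Finset.sum_mul]; rfl

theorem exists_vacuum [Fintype Λ] [DecidableEq Λ] (two : ∀ a : A, a + a = 0)
    (δ : Λ → A → ℂ) (η : Λ → Λ → A → ℂ) {τ D θ : ℝ} (hτ : 0 < τ)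
    (hδ : ∀ ℓ, nu (δ ℓ) ≤ D) (hθ : 0 ≤ θ)
    (hη : ∀ ℓ ℓ' c, c ≠ 0 → ‖η ℓ ℓ' c‖ ≤ θ)
    (hA : Fintype.card Λ * D ≤ τ / 10) (hB : (Fintype.card Λ : ℝ) ^ 2 * θ ≤ τ ^ 2 / 10) :
    ∃ (G : List Λ → A → ℂ) (κ : List Λ → ℂ), G [] = Pi.single 0 1 ∧ (∀ u, u ≠ [] → G u 0 = 0) ∧
      (∀ ℓ u, G (ℓ :: u) = conv (δ ℓ) (G u) +
        S3 (fun a ℓ' b => conv (G b) (η ℓ ℓ' * G a)) u - S2 (fun p r => κ (ℓ :: p) • G r) u) ∧
      ∀ M, ∑ m ∈ Finset.range M, ∑ u ∈ words m,
        (if u = [] then 0 else nu (G u) / τ ^ u.length) ≤ 1 / 4 := by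
  let Gof : (List Λ → A → ℂ) → List Λ → A → ℂ := fun Q u =>
    if u = [] then Pi.single 0 1 else Function.update (Q u) 0 0
  obtain ⟨Q, hQ⟩ := exists_causal (Λ := Λ) (N := A → ℂ)
    (fun Q u => match u with
      | [] => 0
      | ℓ :: u => conv (δ ℓ) (Gof Q u) +
          S3 (fun a ℓ' b => if a = [] then 0 else conv (Gof Q b) (η ℓ ℓ' * Gof Q a)) u -
          S2 (fun p r => if r = [] then 0 else Q (ℓ :: p) 0 • Gof Q r) u) (by
      intro f g u h
      cases u with
      | nil => rfl
      | cons ℓ u =>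
        have hG : ∀ v : List Λ, v.length ≤ u.length → Gof f v = Gof g v := fun v hv => by
          simp only [Gof, h v (by simp; omega)]
        simp only
        rw [hG u le_rfl, S3_congr (G := fun a ℓ' b => if a = [] then 0 else
            conv (Gof g b) (η ℓ ℓ' * Gof g a)) fun a ℓ' b hab => by
              rw [hG a (by simp [← hab]), hG b (by simp [← hab]; omega)],
          S2_congr (G := fun p r => if r = [] then 0 else g (ℓ :: p) 0 • Gof g r)
            fun p r hpr => by
              by_cases hr : r = []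
              · simp [hr]
              · have := List.length_pos_iff.mpr hr
                rw [hG r (by simp [← hpr]), h (ℓ :: p) (by simp [← hpr]; omega)]])
  set G := Gof Q with hGdef
  have hG0 : G [] = Pi.single 0 1 := by simp [hGdef, Gof]
  have hGne : ∀ u, u ≠ [] → G u = Function.update (Q u) 0 0 := fun u hu => by
    simp [hGdef, Gof, hu]
  have hQs : ∀ ℓ u, Q (ℓ :: u) = conv (δ ℓ) (G u) +
      S3 (fun a ℓ' b => if a = [] then 0 else conv (G b) (η ℓ ℓ' * G a)) u -
      S2 (fun p r => if r = [] then 0 else Q (ℓ :: p) 0 • G r) u := fun ℓ u => hQ (ℓ :: u)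
  let κ2 : Λ → List Λ → ℂ := fun ℓ p => match p with
    | [ℓ'] => η ℓ ℓ' 0
    | _ => 0
  let κ : List Λ → ℂ := fun u => match u with
    | [] => 0
    | ℓ :: p => Q (ℓ :: p) 0 + κ2 ℓ p
  refine ⟨G, κ, hG0, fun u hu => by simp [hGne u hu], fun ℓ u => ?_, ?_⟩
  · have e1 : S2 (fun p r => κ (ℓ :: p) • G r) u =
        S2 (fun p r => if r = [] then 0 else Q (ℓ :: p) 0 • G r) u + Q (ℓ :: u) 0 • G [] +
          S2 (fun p r => κ2 ℓ p • G r) u := by
      rw [← S2_last (fun p r => Q (ℓ :: p) 0 • G r), ← S2_add]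
      simp only [κ, add_smul]
    have e2 : S3 (fun a ℓ' b => conv (G b) (η ℓ ℓ' * G a)) u =
        S3 (fun a ℓ' b => if a = [] then 0 else conv (G b) (η ℓ ℓ' * G a)) u +
          S2 (fun p r => κ2 ℓ p • G r) u := by
      cases u with
      | nil => simp [S3, S2, κ2]
      | cons ℓ' b =>
        have h1 : conv (G b) (η ℓ ℓ' * G []) = η ℓ ℓ' 0 • G b := by
          funext c
          simp only [conv, hG0, Pi.mul_apply, Pi.smul_apply, smul_eq_mul]
          rw [Finset.sum_eq_single c]
          · simp [two, mul_comm]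
          · intro a _ ha
            have : a + c ≠ 0 := fun e => ha (by
              have := congrArg (· + c) e
              simpa [add_assoc, two] using this)
            simp [this]
          · simp
        have h2 : S2 (fun p r => κ2 ℓ (ℓ' :: p) • G r) b = η ℓ ℓ' 0 • G b := by
          cases b with
          | nil => simp [S2, κ2]
          | cons m b => simp [S2, κ2, S2_zero]
        simp only [S3, S2, h1, h2]
        simp [κ2, add_comm]
    have e3 : G (ℓ :: u) = Q (ℓ :: u) - Q (ℓ :: u) 0 • G [] := by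
      rw [hGne _ (by simp), hG0]
      funext c
      by_cases hc : c = 0
      · simp [hc]
      · simp [hc]
    rw [e3, e1, e2]
    nth_rewrite 1 [hQs]
    abel
  · let w : List Λ → ℝ := fun u => if u = [] then 0 else nu (Q u) / τ ^ u.length
    let g : List Λ → ℝ := fun u => nu (G u) / τ ^ u.length
    have hw0 : ∀ u, 0 ≤ w u := fun u => by
      simp only [w]; split_ifs
      · exact le_rfl
      · exact div_nonneg (nu_nonneg _) (by positivity)
    have hg0 : ∀ u, 0 ≤ g u := fun u => div_nonneg (nu_nonneg _) (by positivity)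
    have hGQ : ∀ u, u ≠ [] → nu (G u) ≤ nu (Q u) := fun u hu => by
      rw [hGne u hu]
      refine Finset.sum_le_sum fun c _ => ?_
      by_cases hc : c = 0
      · simp [hc]
      · simp [hc]
    have hgw : ∀ u, u ≠ [] → g u ≤ w u := fun u hu => by
      simp only [g, w, if_neg hu]
      exact div_le_div_of_nonneg_right (hGQ u hu) (by positivity)
    have hgnil : g [] = 1 := by
      simp only [g, hG0, nu, List.length_nil, pow_zero, div_one]
      rw [Finset.sum_eq_single 0] <;> simp +contextual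
    have hηG : ∀ ℓ ℓ' a, a ≠ [] → nu (η ℓ ℓ' * G a) ≤ θ * nu (Q a) := by
      intro ℓ ℓ' a ha
      refine le_trans ?_ (mul_le_mul_of_nonneg_left (hGQ a ha) hθ)
      rw [nu, nu, Finset.mul_sum]
      refine Finset.sum_le_sum fun c _ => ?_
      by_cases hc : c = 0
      · simp [hc, hGne a ha]
      · rw [Pi.mul_apply, norm_mul]
        exact mul_le_mul_of_nonneg_right (hη _ _ _ hc) (norm_nonneg _)
    have hrec : ∀ ℓ u, w (ℓ :: u) ≤ D / τ * g u + θ / τ ^ 2 * S3 (fun a _ b => w a * g b) u +
        S2 (fun p r => w (ℓ :: p) * w r) u := by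
      intro ℓ u
      have hp : 0 < τ ^ (u.length + 1) := by positivity
      have b1 : nu (conv (δ ℓ) (G u)) ≤ τ ^ (u.length + 1) * (D / τ * g u) := by
        refine (nu_conv _ _).trans ((mul_le_mul_of_nonneg_right (hδ ℓ) (nu_nonneg _)).trans
          (le_of_eq ?_))
        simp only [g]
        field_simp
        ring
      have b2 : nu (S3 (fun a ℓ' b => if a = [] then 0 else conv (G b) (η ℓ ℓ' * G a)) u) ≤
          τ ^ (u.length + 1) * (θ / τ ^ 2 * S3 (fun a _ b => w a * g b) u) := by
        refine (le_S3 nu (by simp [nu]) nu_add _ u).trans ?_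
        rw [← mul_assoc, mul_S3]
        refine S3_mono fun a ℓ' b hab => ?_
        by_cases ha : a = []
        · simp [ha, w, nu]
        · simp only [if_neg ha, w, g]
          refine (nu_conv _ _).trans ((mul_le_mul_of_nonneg_left (hηG ℓ ℓ' a ha)
            (nu_nonneg _)).trans (le_of_eq ?_))
          simp only [← hab, List.length_append, List.length_cons]
          field_simp
          ring
      have b3 : nu (S2 (fun p r => if r = [] then 0 else Q (ℓ :: p) 0 • G r) u) ≤
          τ ^ (u.length + 1) * S2 (fun p r => w (ℓ :: p) * w r) u := by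
        refine (le_S2 nu nu_add _ u).trans ?_
        rw [mul_S2]
        refine S2_mono fun p r hpr => ?_
        by_cases hr : r = []
        · simp [hr, w, nu]
        · simp only [if_neg hr, w, if_neg (List.cons_ne_nil ℓ p)]
          have : nu (Q (ℓ :: p) 0 • G r) = ‖Q (ℓ :: p) 0‖ * nu (G r) := by
            simp [nu, Finset.mul_sum]
          rw [this]
          refine (mul_le_mul (norm_le_nu _ _) (hGQ r hr) (nu_nonneg _) (nu_nonneg _)).trans
            (le_of_eq ?_)
          simp only [← hpr, List.length_append, List.length_cons]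
          field_simp
          ring
      have hw : w (ℓ :: u) = nu (Q (ℓ :: u)) / τ ^ (u.length + 1) := by simp [w]
      rw [hw, div_le_iff₀ hp, hQs]
      refine (nu_sub _ _).trans ((add_le_add (nu_add _ _) le_rfl).trans ?_)
      linarith
    have hA' : Fintype.card Λ * (D / τ) ≤ 1 / 10 := by
      rw [← mul_div_assoc, div_le_iff₀ hτ]; linarith
    have hB' : Fintype.card Λ * (θ / τ ^ 2 * Fintype.card Λ) ≤ 1 / 10 := by
      have : Fintype.card Λ * (θ / τ ^ 2 * Fintype.card Λ) =
          (Fintype.card Λ : ℝ) ^ 2 * θ / τ ^ 2 := by ring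
      rw [this, div_le_iff₀ (by positivity)]; linarith
    have hsum : ∀ m, ∑ u ∈ words (m + 1), w u ≤ (∑ u ∈ words m, g u) / 10 +
        Fintype.card Λ * (θ / τ ^ 2 * ∑ u ∈ words m, S3 (fun a _ b => w a * g b) u) +
        ∑ p ∈ Finset.HasAntidiagonal.antidiagonal m,
          (∑ u ∈ words (p.1 + 1), w u) * ∑ u ∈ words p.2, w u := by
      intro m
      rw [sum_words_succ]
      refine (Finset.sum_le_sum fun ℓ _ => Finset.sum_le_sum fun u _ => hrec ℓ u).trans ?_
      simp only [Finset.sum_add_distrib, ← Finset.mul_sum, Finset.sum_const, Finset.card_univ,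
        nsmul_eq_mul, sum_words_S2]
      have : 0 ≤ ∑ u ∈ words m, g u := Finset.sum_nonneg fun u _ => hg0 u
      refine add_le_add (add_le_add ?_ (le_of_eq (by ring))) (le_of_eq ?_)
      · nlinarith
      · rw [Finset.sum_comm]
        simp only [sum_words_succ, Finset.sum_mul]
    intro M
    refine le_trans (Finset.sum_le_sum fun m _ => Finset.sum_le_sum fun u _ => ?_)
      (majorant (fun m => ∑ u ∈ words m, w u) (fun m => ∑ u ∈ words m, g u)
        (fun m => Finset.sum_nonneg fun u _ => hw0 u) (fun m => Finset.sum_nonneg fun u _ => hg0 u)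
        (by simp [words, w]) (by simp [words, hgnil]) (fun m => Finset.sum_le_sum fun u hu =>
          hgw u (by rintro rfl; simp [mem_words] at hu)) ?_ (fun m => ?_) M)
    · by_cases hu : u = []
      · simp [hu, w]
      · rw [if_neg hu]; exact hgw u hu
    · have := hsum 0
      simpa [words, S3, w] using this
    · have := hsum (m + 1)
      rw [sum_words_S3] at this
      have h0 : 0 ≤ ∑ p ∈ Finset.HasAntidiagonal.antidiagonal m,
          (∑ u ∈ words p.1, w u) * ∑ u ∈ words p.2, g u :=
        Finset.sum_nonneg fun p _ => mul_nonneg (Finset.sum_nonneg fun u _ => hw0 u)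
          (Finset.sum_nonneg fun u _ => hg0 u)
      nlinarith

end Pool.Agent.MP_ce43bb_an.H78
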