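import Pool.Agent.MP_ce43bb_an.H78.Fock

/-! Algebras on the Fock space, and the projection onto `L²(W*(y))`. -/

set_option linter.unusedSectionVars false

open scoped InnerProductSpace

noncomputable section

namespace Pool.Agent.MP_ce43bb_an.H78

section
variable {H : Type} [NormedAddCommGroup H] [InnerProductSpace ℂ H] [CompleteSpace H] {n : ℕ}

instance L2_complete (Ω : H) (y : Fin n → H →L[ℂ] H) : CompleteSpace (L2 Ω y) :=
  (Submodule.isClosed_topologicalClosure _).completeSpace_coe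

/-- Orthogonal projection onto `L2 Ω y`. -/
def proj (Ω : H) (y : Fin n → H →L[ℂ] H) : H →L[ℂ] H := (L2 Ω y).starProjection

/-- The quantity that equals `t Φ*(x + √t s)`. -/
def fval (Ω : H) (x s : Fin n → H →L[ℂ] H) (t : ℝ) : ℝ :=
  ∑ j, ‖proj Ω (pert x s t) (s j Ω)‖ ^ 2

end

variable {L Γ : Type} [DecidableEq L] [AddCommGroup Γ] [DecidableEq Γ]
  {H : Type} [NormedAddCommGroup H] [InnerProductSpace ℂ H] [CompleteSpace H]

namespace Fock

variable (F : Fock L Γ H)

/-- The von Neumann algebra: the commutant of the right operators. -/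
def M : VonNeumannAlgebra H where
  toStarSubalgebra := StarSubalgebra.centralizer ℂ (Set.range F.rho ∪ Set.range F.R)
  centralizer_centralizer' := by simp

theorem mem_M {T : H →L[ℂ] H} :
    T ∈ F.M ↔ (∀ g, Commute T (F.rho g)) ∧ ∀ a, Commute T (F.R a) := by
  change T ∈ StarSubalgebra.centralizer ℂ (Set.range F.rho ∪ Set.range F.R) ↔ _
  rw [StarSubalgebra.mem_centralizer_iff]
  constructor
  · intro h
    exact ⟨fun g => (h _ (Or.inl ⟨g, rfl⟩)).1.symm, fun a => (h _ (Or.inr ⟨a, rfl⟩)).1.symm⟩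
  · rintro ⟨h1, h2⟩ _ (⟨g, rfl⟩ | ⟨a, rfl⟩)
    · rw [F.star_rho]; exact ⟨(h1 g).symm, (h1 g).symm⟩
    · rw [F.star_R]; exact ⟨(h2 a).symm, (h2 a).symm⟩

theorem lam_mem_M (g : Γ) : F.lam g ∈ F.M := F.mem_M.mpr ⟨F.lam_rho g, F.lam_R g⟩

theorem S_mem_M (a : L × Γ) : F.S a ∈ F.M := F.mem_M.mpr ⟨F.S_rho a, F.S_R a⟩

/-- A noise letter: its translates are orthonormal. -/
def IsNoise (σ : L) : Prop := ∀ g, F.φ σ g = if g = 0 then 1 else 0

/-- Closed algebra generated by the group and the left fields of the letters outside `J`. -/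
def NL (J : Set L) : StarSubalgebra ℂ (H →L[ℂ] H) :=
  (StarAlgebra.adjoin ℂ (Set.range F.lam ∪ F.S '' {a | a.1 ∉ J})).topologicalClosure

/-- Algebra generated by left and right operators of the group and the letters outside `J`. -/
def BB (J : Set L) : StarSubalgebra ℂ (H →L[ℂ] H) :=
  StarAlgebra.adjoin ℂ ((Set.range F.lam ∪ F.S '' {a | a.1 ∉ J}) ∪
    (Set.range F.rho ∪ F.R '' {a | a.1 ∉ J}))

theorem isClosed_NL (J : Set L) : IsClosed (F.NL J : Set (H →L[ℂ] H)) :=
  StarSubalgebra.isClosed_topologicalClosure _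

theorem lam_mem_NL (J : Set L) (g : Γ) : F.lam g ∈ F.NL J :=
  StarSubalgebra.le_topologicalClosure _ (StarAlgebra.subset_adjoin ℂ _ (Or.inl ⟨g, rfl⟩))

theorem S_mem_NL {J : Set L} {a : L × Γ} (ha : a.1 ∉ J) : F.S a ∈ F.NL J :=
  StarSubalgebra.le_topologicalClosure _ (StarAlgebra.subset_adjoin ℂ _ (Or.inr ⟨a, ha, rfl⟩))

theorem NL_mono {J J' : Set L} (h : J ⊆ J') : F.NL J' ≤ F.NL J :=
  StarSubalgebra.topologicalClosure_mono (StarAlgebra.adjoin_mono
    (Set.union_subset_union_right _ (Set.image_mono fun _ ha hb => ha (h hb))))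

/-- Anything that commutes with the self-adjoint generators commutes with `NL J`. -/
theorem commute_of_mem_NL {J : Set L} {T a : H →L[ℂ] H} (h1 : ∀ g, Commute (F.lam g) T)
    (h2 : ∀ b : L × Γ, b.1 ∉ J → Commute (F.S b) T) (ha : a ∈ F.NL J) : Commute a T := by
  have hcl : IsClosed {a : H →L[ℂ] H | Commute a T} := by
    simp only [Commute, SemiconjBy]
    exact isClosed_eq (by fun_prop) (by fun_prop)
  have hsub : ∀ a ∈ StarAlgebra.adjoin ℂ (Set.range F.lam ∪ F.S '' {a | a.1 ∉ J}),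
      Commute a T ∧ Commute (star a) T := by
    intro a ha
    induction ha using StarAlgebra.adjoin_induction with
    | mem x hx =>
      rcases hx with ⟨g, rfl⟩ | ⟨b, hb, rfl⟩
      · rw [F.star_lam]; exact ⟨h1 g, h1 g⟩
      · rw [F.star_S]; exact ⟨h2 b hb, h2 b hb⟩
    | algebraMap c =>
      rw [← algebraMap_star_comm]
      exact ⟨Algebra.commutes _ _, Algebra.commutes _ _⟩
    | add x y _ _ hx hy => rw [star_add]; exact ⟨hx.1.add_left hy.1, hx.2.add_left hy.2⟩
    | mul x y _ _ hx hy => rw [star_mul]; exact ⟨hx.1.mul_left hy.1, hy.2.mul_left hx.2⟩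
    | star x _ hx => rw [star_star]; exact ⟨hx.2, hx.1⟩
  exact closure_minimal (fun a ha => (hsub a ha).1) hcl ha

theorem mem_M_of_mem_NL {J : Set L} {a : H →L[ℂ] H} (ha : a ∈ F.NL J) : a ∈ F.M :=
  F.mem_M.mpr ⟨fun g => F.commute_of_mem_NL (fun h => F.lam_rho h g) (fun b _ => F.S_rho b g) ha,
    fun c => F.commute_of_mem_NL (fun h => F.lam_R h c) (fun b _ => F.S_R b c) ha⟩

theorem mlt_eq_zero {a b : L × Γ} (h : a.1 ≠ b.1) : F.mlt a b = 0 :=
  F.ext_op fun w g => by
    by_cases hw : w = []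
    · subst hw; simp [F.mlt_nil, k1, h]
    · simp [F.mlt_of_ne a b hw]

theorem commute_r_of_mem_NL {J : Set L} {a : H →L[ℂ] H} (ha : a ∈ F.NL J) {c : L × Γ}
    (hc : c.1 ∈ J) : Commute a (F.r c) :=
  F.commute_of_mem_NL (fun g => F.lam_r g c) (fun b hb => by
    have := F.S_mul_r c b
    rw [F.mlt_eq_zero (fun e => hb (e ▸ hc)), add_zero] at this
    exact this) ha

end Fock

end Pool.Agent.MP_ce43bb_an.H78
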