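import Mathlib

/-!
Definitions for the non-microstates free entropy dimensions.  A tracial W*-probability space is
given concretely: a von Neumann algebra `M` on a Hilbert space `H` and a unit vector `Ω` whose
vector state is a faithful trace on `M` (a vector state is normal).
-/

open scoped InnerProductSpace ENNReal Topology
open Filter

noncomputable section

namespace Pool.Agent.MP_ce43bb_an.H78

variable {H : Type} [NormedAddCommGroup H] [InnerProductSpace ℂ H] [CompleteSpace H] {n : ℕ}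

/-- The vector state of `Ω`. -/
def tau (Ω : H) (T : H →L[ℂ] H) : ℂ := ⟪Ω, T Ω⟫_ℂ

/-- The vector state of the unit vector `Ω` is a faithful trace on `M`. -/
structure IsTracial (M : VonNeumannAlgebra H) (Ω : H) : Prop where
  unit : ‖Ω‖ = 1
  trace : ∀ a ∈ M, ∀ b ∈ M, tau Ω (a * b) = tau Ω (b * a)
  faithful : ∀ a ∈ M, tau Ω (star a * a) = 0 → a = 0

/-- Free independence of a family of unital subalgebras: alternating products of centred
elements have trace zero. -/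
def IsFree {ι : Type} (Ω : H) (A : ι → Subalgebra ℂ (H →L[ℂ] H)) : Prop :=
  ∀ l : List (ι × (H →L[ℂ] H)), l ≠ [] → (∀ p ∈ l, p.2 ∈ A p.1 ∧ tau Ω p.2 = 0) →
    l.IsChain (fun p q => p.1 ≠ q.1) → tau Ω (l.map Prod.snd).prod = 0

/-- A standard semicircular element: self-adjoint, Catalan even moments, zero odd moments. -/
def IsSemicircular (Ω : H) (s : H →L[ℂ] H) : Prop :=
  IsSelfAdjoint s ∧ ∀ k : ℕ, tau Ω (s ^ (2 * k)) = catalan k ∧ tau Ω (s ^ (2 * k + 1)) = 0

/-- `s` is a free family of standard semicircular elements, free from the set `B`. -/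
def FreeSemicircular (Ω : H) (B : Set (H →L[ℂ] H)) (s : Fin n → H →L[ℂ] H) : Prop :=
  (∀ i, IsSemicircular Ω (s i)) ∧
    IsFree Ω (fun o : Option (Fin n) =>
      o.elim (Algebra.adjoin ℂ B) (fun i => Algebra.adjoin ℂ {s i}))

/-- The monomial `y_{w_1} ⋯ y_{w_m}`. -/
def word (y : Fin n → H →L[ℂ] H) (w : List (Fin n)) : H →L[ℂ] H := (w.map y).prod

/-- `L²(W*(y), τ)`: the closed span of the vectors `y_w Ω`. -/
def L2 (Ω : H) (y : Fin n → H →L[ℂ] H) : Submodule ℂ H :=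
  (Submodule.span ℂ (Set.range fun w => word y w Ω)).topologicalClosure

/-- `(τ ⊗ τ)(∂_j y_w)` for the free difference quotient `∂_j`. -/
def diffQuot (Ω : H) (y : Fin n → H →L[ℂ] H) (j : Fin n) (w : List (Fin n)) : ℂ :=
  ∑ p : Fin w.length, if w.get p = j then
    tau Ω (word y (w.take p)) * tau Ω (word y (w.drop (p + 1))) else 0

/-- Conjugate variables: `ξ_j ∈ L²(W*(y))` and `τ(P ξ_j) = (τ ⊗ τ)(∂_j P)` for every
monomial `P`, hence for every polynomial. -/
def IsConj (Ω : H) (y : Fin n → H →L[ℂ] H) (ξ : Fin n → H) : Prop :=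
  ∀ j, ξ j ∈ L2 Ω y ∧ ∀ w, ⟪Ω, word y w (ξ j)⟫_ℂ = diffQuot Ω y j w

/-- Free Fisher information `Φ*(y)`: the sum of `‖ξ_j‖²` for the (unique) conjugate
variables, and `∞` if there are none. -/
def fisher (Ω : H) (y : Fin n → H →L[ℂ] H) : ℝ≥0∞ :=
  ⨅ (ξ : Fin n → H) (_ : IsConj Ω y ξ), ∑ j, ‖ξ j‖ₑ ^ 2

/-- `x + √t s`. -/
def pert (x s : Fin n → H →L[ℂ] H) (t : ℝ) : Fin n → H →L[ℂ] H :=
  fun i => x i + (Real.sqrt t : ℂ) • s i

/-- The integrand `n / (1 + r) - Φ*(y + √r s)` of the free entropy. -/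
def chiFun (Ω : H) (y s : Fin n → H →L[ℂ] H) (r : ℝ) : ℝ :=
  n / (1 + r) - (fisher Ω (pert y s r)).toReal

/-- The integral defining `χ*(y)` has a finite, integrable integrand. -/
def ChiFinite (Ω : H) (y s : Fin n → H →L[ℂ] H) : Prop :=
  (∀ r > 0, fisher Ω (pert y s r) ≠ ⊤) ∧
    MeasureTheory.IntegrableOn (chiFun Ω y s) (Set.Ioi 0)

/-- Non-microstates free entropy `χ*(y)`, computed with the semicircular family `s`. -/
def chi (Ω : H) (y s : Fin n → H →L[ℂ] H) : ℝ :=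
  1 / 2 * (∫ r in Set.Ioi (0 : ℝ), chiFun Ω y s r) +
    n / 2 * Real.log (2 * Real.pi * Real.exp 1)

/-- `χ*(x + √t s) / log t^(1/2)`. -/
def chiRatio (Ω : H) (x s s' : Fin n → H →L[ℂ] H) (t : ℝ) : EReal :=
  ((chi Ω (pert x s t) s' / Real.log (t ^ (1 / 2 : ℝ)) : ℝ) : EReal)

/-- `t Φ*(x + √t s)`. -/
def fisherRatio (Ω : H) (x s : Fin n → H →L[ℂ] H) (t : ℝ) : EReal :=
  ((ENNReal.ofReal t * fisher Ω (pert x s t) : ℝ≥0∞) : EReal)

/-- `δ*(x) = n - limsup χ*(x + √t s) / log t^(1/2)` as `t → 0+`. -/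
def deltaChi (Ω : H) (x s s' : Fin n → H →L[ℂ] H) : EReal :=
  (n : EReal) - limsup (chiRatio Ω x s s') (𝓝[>] 0)

/-- `δ⋆(x) = n - limsup t Φ*(x + √t s)` as `t → 0+`. -/
def deltaFisher (Ω : H) (x s : Fin n → H →L[ℂ] H) : EReal :=
  (n : EReal) - limsup (fisherRatio Ω x s) (𝓝[>] 0)

/-- `δ*(x)` with `liminf` in place of `limsup`. -/
def deltaChiInf (Ω : H) (x s s' : Fin n → H →L[ℂ] H) : EReal :=
  (n : EReal) - liminf (chiRatio Ω x s s') (𝓝[>] 0)

/-- `δ⋆(x)` with `liminf` in place of `limsup`. -/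
def deltaFisherInf (Ω : H) (x s : Fin n → H →L[ℂ] H) : EReal :=
  (n : EReal) - liminf (fisherRatio Ω x s) (𝓝[>] 0)

end Pool.Agent.MP_ce43bb_an.H78
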