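import Pool.Agent.MP_ce43bb_an.H78.Base

/-! Exponentials of self-adjoint operators and approximate spectral projections. -/

set_option linter.unusedSectionVars false

open NormedSpace

noncomputable section

namespace Pool.Agent.MP_ce43bb_an.H78

variable {H : Type} [NormedAddCommGroup H] [InnerProductSpace ℂ H] [CompleteSpace H]

theorem norm_exp_I_le {A : H →L[ℂ] H} (hA : IsSelfAdjoint A) : ‖exp (Complex.I • A)‖ ≤ 1 := by
  let : NormedAlgebra ℚ (H →L[ℂ] H) := .restrictScalars ℚ ℂ _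
  exact Fock.norm_le_one_of_star_mul (Unitary.mem_iff.mp
    (exp_mem_unitary_of_mem_skewAdjoint (hA.smul_mem_skewAdjoint Complex.conj_I))).1

theorem norm_exp_I_sub_le {A B : H →L[ℂ] H} (hA : IsSelfAdjoint A) (hB : IsSelfAdjoint B) :
    ‖exp (Complex.I • A) - exp (Complex.I • B)‖ ≤ ‖A - B‖ := by
  have h1 : ∀ (s : ℝ) {C : H →L[ℂ] H}, IsSelfAdjoint C → ‖exp (s • (Complex.I • C))‖ ≤ 1 := by
    intro s C hC
    rw [smul_comm]
    exact norm_exp_I_le (IsSelfAdjoint.smul (IsSelfAdjoint.all s) hC)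
  have hd : ∀ s : ℝ, HasDerivAt
      (fun s : ℝ => exp (s • (Complex.I • A)) * exp ((1 - s) • (Complex.I • B)))
      (exp (s • (Complex.I • A)) * (Complex.I • (A - B)) * exp ((1 - s) • (Complex.I • B))) s := by
    intro s
    have a1 := hasDerivAt_exp_smul_const (𝕂 := ℝ) (Complex.I • A) s
    have a2 := (hasDerivAt_exp_smul_const' (𝕂 := ℝ) (Complex.I • B) (1 - s)).scomp s
      ((hasDerivAt_id s).const_sub 1)
    refine (a1.mul a2).congr_deriv ?_
    simp only [Function.comp, smul_sub, mul_sub, sub_mul, neg_smul, one_smul, mul_neg, mul_assoc]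
    abel
  have := norm_image_sub_le_of_norm_deriv_le_segment_01' (C := ‖A - B‖)
    (fun s _ => (hd s).hasDerivWithinAt) fun s _ => by
      calc _ ≤ ‖exp (s • (Complex.I • A))‖ * ‖Complex.I • (A - B)‖ *
            ‖exp ((1 - s) • (Complex.I • B))‖ :=
            (norm_mul_le _ _).trans (mul_le_mul_of_nonneg_right (norm_mul_le _ _) (norm_nonneg _))
        _ ≤ 1 * ‖Complex.I • (A - B)‖ * 1 := by
            gcongr
            · exact h1 s hA
            · exact h1 _ hB
        _ = ‖A - B‖ := by simp [norm_smul]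
  simpa using this

theorem norm_pow_sub_pow_le {R : Type} [NormedRing R] {a b : R} (ha : ‖a‖ ≤ 1) (hb : ‖b‖ ≤ 1)
    (m : ℕ) : ‖a ^ m - b ^ m‖ ≤ m * ‖a - b‖ := by
  have hp : ∀ m : ℕ, ‖(a - b) * b ^ m‖ ≤ ‖a - b‖ := by
    intro m
    induction m with
    | zero => simp
    | succ m ih =>
      rw [pow_succ, ← mul_assoc]
      exact (norm_mul_le _ _).trans (by nlinarith [norm_nonneg ((a - b) * b ^ m)])
  induction m with
  | zero => simp
  | succ m ih =>
    have : a ^ (m + 1) - b ^ (m + 1) = a * (a ^ m - b ^ m) + (a - b) * b ^ m := by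
      rw [pow_succ', pow_succ']; noncomm_ring
    rw [this]
    have h2 := norm_mul_le a (a ^ m - b ^ m)
    have h3 := hp m
    have h4 := norm_add_le (a * (a ^ m - b ^ m)) ((a - b) * b ^ m)
    push_cast
    nlinarith [norm_nonneg (a ^ m - b ^ m)]

section proj
variable {V : Type} [Fintype V] [DecidableEq V] {p : V → H →L[ℂ] H}

/-- Functional calculus for a finite partition of unity. -/
def calcHom (hp : ∀ a, p a * p a = p a) (hpo : ∀ a b, a ≠ b → p a * p b = 0)
    (hps : ∑ a, p a = 1) : (V → ℂ) →ₐ[ℂ] (H →L[ℂ] H) where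
  toFun f := ∑ a, f a • p a
  map_one' := by simpa using hps
  map_mul' f g := by
    rw [Finset.sum_mul_sum]
    refine Finset.sum_congr rfl fun a _ => ?_
    rw [Finset.sum_eq_single a]
    · rw [smul_mul_smul_comm, hp]; rfl
    · intro b _ hb
      rw [smul_mul_smul_comm, hpo a b hb.symm, smul_zero]
    · simp
  map_zero' := by simp
  map_add' f g := by simp [add_smul, Finset.sum_add_distrib]
  commutes' c := by
    simp only [Pi.algebraMap_apply, Algebra.algebraMap_self, RingHom.id_apply, ← Finset.smul_sum,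
      hps, Algebra.algebraMap_eq_smul_one]

theorem exp_sum_proj (hp : ∀ a, p a * p a = p a) (hpo : ∀ a b, a ≠ b → p a * p b = 0)
    (hps : ∑ a, p a = 1) (f : V → ℂ) :
    exp (∑ a, f a • p a) = ∑ a, Complex.exp (f a) • p a := by
  let : NormedAlgebra ℚ (H →L[ℂ] H) := .restrictScalars ℚ ℂ _
  have hc : Continuous (calcHom hp hpo hps) := by
    change Continuous fun f : V → ℂ => ∑ a, f a • p a
    fun_prop
  have := map_exp (calcHom hp hpo hps) hc f
  change ∑ a, exp f a • p a = exp (∑ a, f a • p a) at this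
  rw [← this]
  simp only [Pi.coe_exp, Complex.exp_eq_exp_ℂ]

theorem pow_sum_proj (hp : ∀ a, p a * p a = p a) (hpo : ∀ a b, a ≠ b → p a * p b = 0)
    (hps : ∑ a, p a = 1) (f : V → ℂ) (m : ℕ) :
    (∑ a, f a • p a) ^ m = ∑ a, f a ^ m • p a :=
  (map_pow (calcHom hp hpo hps) f m).symm

end proj

theorem root_sum {q : ℕ} {ζ : ℂ} (h : ζ ^ q = 1) (h1 : ζ ≠ 1) : ∑ m ∈ Finset.range q, ζ ^ m = 0 := by
  have := mul_neg_geom_sum ζ q
  rw [h, sub_self] at this
  exact (mul_eq_zero.mp this).resolve_left (sub_ne_zero.mpr h1.symm)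

theorem root_gap {q : ℕ} (hq : 0 < q) {a b : ℂ} (ha : a ^ q = 1) (hb : b ^ q = 1) (hab : a ≠ b) :
    1 / (q : ℝ) ≤ ‖a - b‖ := by
  have na : ‖a‖ = 1 := Complex.norm_eq_one_of_pow_eq_one ha hq.ne'
  have nb : ‖b‖ = 1 := Complex.norm_eq_one_of_pow_eq_one hb hq.ne'
  have a0 : a ≠ 0 := by rintro rfl; simp at na
  have hz : ‖b / a‖ ≤ 1 := by simp [na, nb]
  have h0 := root_sum (ζ := b / a) (q := q) (by rw [div_pow, ha, hb, div_one])
    (fun e => hab ((div_eq_one_iff_eq a0).mp e).symm)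
  have h1 : (q : ℂ) = ∑ m ∈ Finset.range q, (1 ^ m - (b / a) ^ m) := by
    rw [Finset.sum_sub_distrib, h0]; simp
  have h2 : ‖1 - b / a‖ = ‖a - b‖ := by
    have : 1 - b / a = (a - b) / a := by field_simp
    rw [this, norm_div, na, div_one]
  have h3 : (q : ℝ) ≤ q * (q * ‖a - b‖) := by
    calc (q : ℝ) = ‖(q : ℂ)‖ := by simp
      _ ≤ ∑ m ∈ Finset.range q, (q * ‖a - b‖) := by
          rw [h1]
          refine (norm_sum_le _ _).trans (Finset.sum_le_sum fun m hm => ?_)
          refine (norm_pow_sub_pow_le (by simp) hz m).trans ?_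
          rw [h2]
          exact mul_le_mul_of_nonneg_right (by exact_mod_cast (Finset.mem_range.mp hm).le)
            (norm_nonneg _)
      _ = _ := by simp
  have hq' : (0 : ℝ) < q := by exact_mod_cast hq
  rw [div_le_iff₀ hq']
  nlinarith

/-- Approximate spectral projections built from a perturbed generator. -/
theorem exists_pt {V : Type} [Fintype V] [DecidableEq V] {p : V → H →L[ℂ] H} {q : ℕ} (hq : 0 < q)
    (hp : ∀ a, p a * p a = p a) (hpo : ∀ a b, a ≠ b → p a * p b = 0) (hps : ∑ a, p a = 1)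
    (ω : V → ℂ) (hω : ∀ a, ω a ^ q = 1) (hinj : Function.Injective ω)
    {D Y : H →L[ℂ] H} (hD : IsSelfAdjoint D) (hY : IsSelfAdjoint Y)
    (hU : exp (Complex.I • D) = ∑ a, ω a • p a) :
    ∃ (Ut : H →L[ℂ] H) (pt : V → H →L[ℂ] H), ‖Ut - ∑ a, ω a • p a‖ ≤ ‖Y - D‖ ∧
      (∀ a, ‖pt a - p a‖ ≤ q * ‖Y - D‖) ∧ (∀ a, Commute (pt a) Ut) ∧
      ∀ T, Commute T Y → Commute T Ut ∧ ∀ a, Commute T (pt a) := by
  have nω : ∀ a, ‖ω a‖ = 1 := fun a => Complex.norm_eq_one_of_pow_eq_one (hω a) hq.ne'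
  have ω0 : ∀ a, ω a ≠ 0 := fun a e => by simpa [e] using nω a
  have hq' : (q : ℂ) ≠ 0 := by exact_mod_cast hq.ne'
  have hT : ∀ T U : H →L[ℂ] H, Commute T U → ∀ a,
      Commute T ((q : ℂ)⁻¹ • ∑ m ∈ Finset.range q, ((ω a)⁻¹ ^ m) • U ^ m) := fun T U h a =>
    (Commute.sum_right _ _ _ fun m _ => (h.pow_right m).smul_right _).smul_right _
  have h1 := norm_exp_I_sub_le hY hD
  refine ⟨exp (Complex.I • Y), fun a =>
    (q : ℂ)⁻¹ • ∑ m ∈ Finset.range q, ((ω a)⁻¹ ^ m) • exp (Complex.I • Y) ^ m,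
    hU ▸ h1, fun a => ?_, fun a => (hT _ _ (Commute.refl _) a).symm,
    fun T h => ⟨(h.smul_right _).exp_right, hT _ _ (h.smul_right _).exp_right⟩⟩
  have e : p a = (q : ℂ)⁻¹ • ∑ m ∈ Finset.range q, ((ω a)⁻¹ ^ m) • exp (Complex.I • D) ^ m := by
    simp only [hU, pow_sum_proj hp hpo hps, Finset.smul_sum, smul_smul]
    rw [Finset.sum_comm, Finset.sum_eq_single a]
    · simp only [← mul_pow, inv_mul_cancel₀ (ω0 a), one_pow, mul_one, Finset.sum_const,
        Finset.card_range, ← Nat.cast_smul_eq_nsmul ℂ, smul_smul, mul_inv_cancel₀ hq', one_smul]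
    · intro b _ hb
      rw [← Finset.sum_smul, ← Finset.mul_sum]
      simp only [← mul_pow]
      rw [root_sum (by rw [mul_pow, inv_pow, hω, hω]; simp), mul_zero, zero_smul]
      intro e
      exact hb (hinj ((inv_mul_eq_one₀ (ω0 a)).mp e).symm)
    · simp
  rw [e, ← smul_sub, ← Finset.sum_sub_distrib, norm_smul, norm_inv, Complex.norm_natCast]
  have hq'' : (0 : ℝ) < q := by exact_mod_cast hq
  rw [inv_mul_le_iff₀ hq'']
  refine (norm_sum_le _ _).trans ((Finset.sum_le_sum (g := fun _ => q * ‖Y - D‖)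
    fun m hm => ?_).trans (by simp))
  rw [← smul_sub, norm_smul, norm_pow, norm_inv, nω, inv_one, one_pow, one_mul]
  refine (norm_pow_sub_pow_le (norm_exp_I_le hY) (norm_exp_I_le hD) m).trans ?_
  exact mul_le_mul (by exact_mod_cast (Finset.mem_range.mp hm).le) h1 (norm_nonneg _) hq''.le

end Pool.Agent.MP_ce43bb_an.H78
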