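import Pool.Agent.MP_ce43bb_an.H78.Gram

/-! A full Fock space with a group `Γ` of exponent two acting on the letters. -/

set_option linter.unusedSectionVars false

open scoped InnerProductSpace ComplexOrder

noncomputable section

namespace Pool.Agent.MP_ce43bb_an.H78

variable {L Γ : Type} [DecidableEq L] [AddCommGroup Γ] [DecidableEq Γ]

/-- Inner product of two one-letter words. -/
def k1 (φ : L → Γ → ℝ) (a b : L × Γ) : ℝ := if a.1 = b.1 then φ a.1 (a.2 + b.2) else 0

/-- Inner product of two words. -/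
def kw (φ : L → Γ → ℝ) : List (L × Γ) → List (L × Γ) → ℝ
  | [], [] => 1
  | a :: w, b :: v => k1 φ a b * kw φ w v
  | [], _ :: _ => 0
  | _ :: _, [] => 0

/-- Translation of all letters of a word. -/
def shift (g : Γ) (w : List (L × Γ)) : List (L × Γ) := w.map fun a => (a.1, g + a.2)

theorem k1_comm (φ : L → Γ → ℝ) (a b : L × Γ) : k1 φ a b = k1 φ b a := by
  unfold k1
  by_cases h : a.1 = b.1
  · rw [if_pos h, if_pos h.symm, h, add_comm]
  · rw [if_neg h, if_neg (Ne.symm h)]

theorem kw_comm (φ : L → Γ → ℝ) : ∀ w v : List (L × Γ), kw φ w v = kw φ v w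
  | [], [] => rfl
  | a :: w, b :: v => by simp only [kw]; rw [k1_comm, kw_comm φ w v]
  | [], _ :: _ => rfl
  | _ :: _, [] => rfl

theorem kw_snoc (φ : L → Γ → ℝ) (a b : L × Γ) :
    ∀ w v : List (L × Γ), kw φ (w ++ [a]) (v ++ [b]) = kw φ w v * k1 φ a b
  | [], [] => by simp [kw]
  | c :: w, d :: v => by
      simp only [List.cons_append, kw]; rw [kw_snoc φ a b w v]; ring
  | [], d :: v => by cases v <;> simp [kw]
  | c :: w, [] => by cases w <;> simp [kw]

theorem kw_nil_snoc (φ : L → Γ → ℝ) (a : L × Γ) (w : List (L × Γ)) : kw φ [] (w ++ [a]) = 0 := by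
  cases w <;> simp [kw]

theorem kw_shift (φ : L → Γ → ℝ) (two : ∀ g : Γ, g + g = 0) (g : Γ) :
    ∀ w v : List (L × Γ), kw φ (shift g w) (shift g v) = kw φ w v
  | [], [] => rfl
  | a :: w, b :: v => by
      have := kw_shift φ two g w v
      simp only [shift, List.map_cons, kw] at this ⊢
      rw [this]
      congr 1
      unfold k1
      have : g + a.2 + (g + b.2) = a.2 + b.2 := by
        rw [add_add_add_comm, two, zero_add]
      simp only [this]
  | [], _ :: _ => rfl
  | _ :: _, [] => rfl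

theorem psd_k1 (φ : L → Γ → ℝ)
    (h : ∀ σ, (Matrix.of fun β β' : Γ => ((φ σ (β + β') : ℝ) : ℂ)).PosSemidef) :
    (Matrix.of fun a b => ((k1 φ a b : ℝ) : ℂ)).PosSemidef := by
  refine psd_of_local _ fun s => ⟨_, psd_sum (s.image Prod.fst)
    (f := fun σ a b => ((if a.1 = σ then 1 else 0) * (if b.1 = σ then 1 else 0)) *
      φ σ (a.2 + b.2)) fun σ _ => psd_mul (psd_rank_one _) (psd_comp (h σ) Prod.snd), ?_⟩
  intro a ha b _
  simp only [Matrix.of_apply]
  congr 1
  rw [Finset.sum_eq_single a.1]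
  · unfold k1
    by_cases h : a.1 = b.1
    · simp [h]
    · simp [h, Ne.symm h]
  · intro σ _ hσ
    simp [Ne.symm hσ]
  · intro h
    exact absurd (Finset.mem_image_of_mem _ ha) h

/-- Truncated word kernel. -/
def kwt [Inhabited L] (φ : L → Γ → ℝ) : ℕ → List (L × Γ) → List (L × Γ) → ℝ
  | 0, _, _ => 1
  | m + 1, w, v => (if w = [] then 1 else 0) * (if v = [] then 1 else 0) +
      ((if w = [] then 0 else 1) * (if v = [] then 0 else 1)) *
        (k1 φ (w.headD (default, 0)) (v.headD (default, 0)) * kwt φ m w.tail v.tail)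

theorem kwt_eq [Inhabited L] (φ : L → Γ → ℝ) :
    ∀ (m : ℕ) (w v : List (L × Γ)), w.length ≤ m → v.length ≤ m → kwt φ m w v = kw φ w v
  | 0, w, v, hw, hv => by
      rw [List.length_eq_zero_iff.mp (Nat.le_zero.mp hw),
        List.length_eq_zero_iff.mp (Nat.le_zero.mp hv)]; rfl
  | m + 1, [], [], _, _ => by simp [kwt, kw]
  | m + 1, [], _ :: _, _, _ => by simp [kwt, kw]
  | m + 1, _ :: _, [], _, _ => by simp [kwt, kw]
  | m + 1, a :: w, b :: v, hw, hv => by
      simp only [List.length_cons, Nat.add_le_add_iff_right] at hw hv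
      simp [kwt, kw, kwt_eq φ m w v hw hv]

theorem psd_kw [Inhabited L] (φ : L → Γ → ℝ)
    (h : ∀ σ, (Matrix.of fun β β' : Γ => ((φ σ (β + β') : ℝ) : ℂ)).PosSemidef) :
    (Matrix.of fun w v => ((kw φ w v : ℝ) : ℂ)).PosSemidef := by
  have ht : ∀ m, (Matrix.of fun w v => ((kwt φ m w v : ℝ) : ℂ)).PosSemidef := by
    intro m
    induction m with
    | zero => simpa [kwt] using psd_rank_one (fun _ : List (L × Γ) => 1)
    | succ m ih =>
      simp only [kwt]
      exact psd_add (psd_rank_one _) (psd_mul (psd_rank_one _)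
        (psd_mul (psd_comp (psd_k1 φ h) _) (psd_comp ih _)))
  refine psd_of_local _ fun s => ⟨_, ht (s.sup List.length), fun w hw v hv => ?_⟩
  simp only [Matrix.of_apply]
  rw [kwt_eq φ _ w v (Finset.le_sup hw) (Finset.le_sup hv)]

/-- The Fock space data. -/
structure Fock (L Γ H : Type) [DecidableEq L] [AddCommGroup Γ] [DecidableEq Γ]
    [NormedAddCommGroup H] [InnerProductSpace ℂ H] where
  φ : L → Γ → ℝ
  e : List (L × Γ) → Γ → H
  lam : Γ → H →L[ℂ] H
  rho : Γ → H →L[ℂ] H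
  l : L × Γ → H →L[ℂ] H
  r : L × Γ → H →L[ℂ] H
  two : ∀ g : Γ, g + g = 0
  phi_zero : ∀ σ, φ σ 0 = 1
  inner_e : ∀ w g v h, ⟪e w g, e v h⟫_ℂ = if g = h then ((kw φ w v : ℝ) : ℂ) else 0
  dense : Dense (Submodule.span ℂ (Set.range fun p : List (L × Γ) × Γ => e p.1 p.2) : Set H)
  lam_e : ∀ g w h, lam g (e w h) = e (shift g w) (g + h)
  rho_e : ∀ g w h, rho g (e w h) = e w (h + g)
  l_e : ∀ a w h, l a (e w h) = e (a :: w) h
  r_e : ∀ a w h, r a (e w h) = e (w ++ [(a.1, h + a.2)]) h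

theorem exists_fock [Inhabited L] (φ : L → Γ → ℝ) (two : ∀ g : Γ, g + g = 0)
    (h0 : ∀ σ, φ σ 0 = 1)
    (h : ∀ σ, (Matrix.of fun β β' : Γ => ((φ σ (β + β') : ℝ) : ℂ)).PosSemidef) :
    ∃ (H : Type) (_ : NormedAddCommGroup H) (_ : InnerProductSpace ℂ H) (_ : CompleteSpace H)
      (F : Fock L Γ H), F.φ = φ := by
  obtain ⟨H, i1, i2, i3, e, he, hd⟩ := exists_gram
    (Matrix.of fun p q : List (L × Γ) × Γ =>
      (((if p.2 = q.2 then 1 else 0) * kw φ p.1 q.1 : ℝ) : ℂ))
    (psd_mul (psd_comp psd_delta Prod.snd) (psd_comp (psd_kw φ h) Prod.fst))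
  simp only [Matrix.of_apply] at he
  have hk : ∀ a : L × Γ, k1 φ a a = 1 := fun a => by simp [k1, two, h0]
  have hlam : ∀ g : Γ, ∃ T : H →L[ℂ] H, ∀ p, T (e p) = e (shift g p.1, g + p.2) := fun g =>
    exists_ext hd _ fun p q => by simp [he, kw_shift φ two]
  have hrho : ∀ g : Γ, ∃ T : H →L[ℂ] H, ∀ p, T (e p) = e (p.1, p.2 + g) := fun g =>
    exists_ext hd _ fun p q => by simp [he]
  have hl : ∀ a : L × Γ, ∃ T : H →L[ℂ] H, ∀ p, T (e p) = e (a :: p.1, p.2) := fun a =>
    exists_ext hd _ fun p q => by simp [he, kw, hk]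
  have hr : ∀ a : L × Γ, ∃ T : H →L[ℂ] H,
      ∀ p, T (e p) = e (p.1 ++ [(a.1, p.2 + a.2)], p.2) := fun a =>
    exists_ext hd _ fun p q => by
      simp only [he, kw_snoc]
      by_cases hpq : p.2 = q.2
      · simp [hpq, hk]
      · simp [hpq]
  choose lam hlam using hlam
  choose rho hrho using hrho
  choose l hl using hl
  choose r hr using hr
  refine ⟨H, i1, i2, i3, ⟨φ, fun w g => e (w, g), lam, rho, l, r, two, h0, fun w g v h => ?_, hd,
    fun g w h => hlam g (w, h), fun g w h => hrho g (w, h), fun a w h => hl a (w, h),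
    fun a w h => hr a (w, h)⟩, rfl⟩
  rw [he]
  by_cases hgh : g = h <;> simp [hgh]

namespace Fock

variable {H : Type} [NormedAddCommGroup H] [InnerProductSpace ℂ H] [CompleteSpace H]
  (F : Fock L Γ H)

/-- The vacuum vector. -/
def Ω : H := F.e [] 0

theorem ext_op {H' : Type} [NormedAddCommGroup H'] [InnerProductSpace ℂ H'] {S T : H →L[ℂ] H'}
    (h : ∀ w g, S (F.e w g) = T (F.e w g)) : S = T :=
  clm_ext F.dense fun p => h p.1 p.2

theorem ext_vec {x y : H} (h : ∀ w g, ⟪F.e w g, x⟫_ℂ = ⟪F.e w g, y⟫_ℂ) : x = y :=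
  vec_ext F.dense fun p => h p.1 p.2

include F in
theorem add_self_left (g h : Γ) : g + (g + h) = h := by rw [← add_assoc, F.two, zero_add]

include F in
theorem add_eq_zero_iff (g h : Γ) : g + h = 0 ↔ g = h := by
  constructor
  · intro e
    have := F.add_self_left g h
    rw [e, add_zero] at this
    exact this
  · rintro rfl; exact F.two g

theorem k1_self (a : L × Γ) : k1 F.φ a a = 1 := by simp [k1, F.two, F.phi_zero]

theorem inner_Ω_Ω : ⟪F.Ω, F.Ω⟫_ℂ = 1 := by simp only [Ω, F.inner_e]; simp [kw]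

theorem norm_nil (g : Γ) : ‖F.e [] g‖ = 1 := by
  have h : ⟪F.e [] g, F.e [] g⟫_ℂ = 1 := by simp only [F.inner_e]; simp [kw]
  have h2 : ‖F.e [] g‖ ^ 2 = 1 := by
    rw [← inner_self_eq_norm_sq (𝕜 := ℂ), h]; simp
  exact (pow_eq_one_iff_of_nonneg (norm_nonneg _) two_ne_zero).mp h2

theorem norm_Ω : ‖F.Ω‖ = 1 := F.norm_nil 0

theorem inner_star_right (T : H →L[ℂ] H) (x y : H) : ⟪x, star T y⟫_ℂ = ⟪T x, y⟫_ℂ :=
  ContinuousLinearMap.adjoint_inner_right T x y

theorem inner_star_left (T : H →L[ℂ] H) (x y : H) : ⟪star T x, y⟫_ℂ = ⟪x, T y⟫_ℂ :=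
  ContinuousLinearMap.adjoint_inner_left T y x

theorem shift_shift (g h : Γ) (w : List (L × Γ)) : shift g (shift h w) = shift (g + h) w := by
  simp [shift, add_assoc]

theorem shift_zero (w : List (L × Γ)) : shift (0 : Γ) w = w := by simp [shift]

theorem lam_mul (g h : Γ) : F.lam g * F.lam h = F.lam (g + h) :=
  F.ext_op fun w k => by simp [F.lam_e, shift_shift, add_assoc]

theorem lam_zero : F.lam 0 = 1 := F.ext_op fun w k => by simp [F.lam_e, shift_zero]

theorem rho_mul (g h : Γ) : F.rho g * F.rho h = F.rho (g + h) :=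
  F.ext_op fun w k => by simp [F.rho_e, add_assoc, add_comm h g]

theorem rho_zero : F.rho 0 = 1 := F.ext_op fun w k => by simp [F.rho_e]

theorem star_lam (g : Γ) : star (F.lam g) = F.lam g :=
  F.ext_op fun w k => F.ext_vec fun v h => by
    rw [inner_star_right, F.lam_e, F.lam_e, F.inner_e, F.inner_e,
      ← kw_shift F.φ F.two g v (shift g w), shift_shift, F.two, shift_zero]
    have : (g + h = k) ↔ (h = g + k) := by
      constructor
      · rintro rfl; exact (F.add_self_left g h).symm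
      · rintro rfl; exact F.add_self_left g k
    simp only [this]

theorem star_rho (g : Γ) : star (F.rho g) = F.rho g :=
  F.ext_op fun w k => F.ext_vec fun v h => by
    rw [inner_star_right, F.rho_e, F.rho_e, F.inner_e, F.inner_e]
    have : (h + g = k) ↔ (h = k + g) := by
      constructor
      · rintro rfl; rw [add_assoc, F.two, add_zero]
      · rintro rfl; rw [add_assoc, F.two, add_zero]
    simp only [this]

theorem star_l_nil (a : L × Γ) (h : Γ) : star (F.l a) (F.e [] h) = 0 :=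
  F.ext_vec fun v k => by
    rw [inner_star_right, F.l_e, F.inner_e]; simp [kw]

theorem star_l_cons (a b : L × Γ) (w : List (L × Γ)) (h : Γ) :
    star (F.l a) (F.e (b :: w) h) = (k1 F.φ a b : ℂ) • F.e w h :=
  F.ext_vec fun v k => by
    rw [inner_star_right, F.l_e, F.inner_e, inner_smul_right, F.inner_e]; simp [kw]

theorem star_r_nil (a : L × Γ) (h : Γ) : star (F.r a) (F.e [] h) = 0 :=
  F.ext_vec fun v k => by
    rw [inner_star_right, F.r_e, F.inner_e, kw_comm, kw_nil_snoc]; simp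

theorem star_r_snoc (a b : L × Γ) (w : List (L × Γ)) (h : Γ) :
    star (F.r a) (F.e (w ++ [b]) h) = (k1 F.φ (a.1, h + a.2) b : ℂ) • F.e w h :=
  F.ext_vec fun v k => by
    rw [inner_star_right, F.r_e, F.inner_e, inner_smul_right, F.inner_e, kw_snoc]
    by_cases hk : k = h
    · simp [hk, mul_comm]
    · simp [hk]

theorem star_l_mul_l (a b : L × Γ) : star (F.l a) * F.l b = (k1 F.φ a b : ℂ) • 1 :=
  F.ext_op fun w k => by simp [F.l_e, F.star_l_cons]

theorem star_r_mul_r_self (a : L × Γ) : star (F.r a) * F.r a = 1 :=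
  F.ext_op fun w k => by simp [F.r_e, F.star_r_snoc, F.k1_self]

theorem norm_le_one_of_star_mul {T : H →L[ℂ] H} (h : star T * T = 1) : ‖T‖ ≤ 1 := by
  refine T.opNorm_le_bound zero_le_one fun x => ?_
  have : ⟪T x, T x⟫_ℂ = ⟪x, x⟫_ℂ := by
    rw [← inner_star_right, ← mul_apply_eq_comp, h]; rfl
  rw [inner_self_eq_norm_sq_to_K, inner_self_eq_norm_sq_to_K] at this
  have h2 : ‖T x‖ ^ 2 = ‖x‖ ^ 2 := by exact_mod_cast this
  rw [one_mul]
  exact le_of_eq ((pow_left_inj₀ (norm_nonneg _) (norm_nonneg _) two_ne_zero).mp h2)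

theorem norm_l (a : L × Γ) : ‖F.l a‖ ≤ 1 :=
  norm_le_one_of_star_mul (by rw [F.star_l_mul_l, F.k1_self]; simp)

theorem norm_r (a : L × Γ) : ‖F.r a‖ ≤ 1 := norm_le_one_of_star_mul (F.star_r_mul_r_self a)

theorem norm_lam (g : Γ) : ‖F.lam g‖ ≤ 1 :=
  norm_le_one_of_star_mul (by rw [F.star_lam, F.lam_mul, F.two, F.lam_zero])

theorem norm_rho (g : Γ) : ‖F.rho g‖ ≤ 1 :=
  norm_le_one_of_star_mul (by rw [F.star_rho, F.rho_mul, F.two, F.rho_zero])

theorem lam_mul_l (g : Γ) (a : L × Γ) : F.lam g * F.l a = F.l (a.1, g + a.2) * F.lam g :=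
  F.ext_op fun w k => by simp [F.lam_e, F.l_e, shift]

theorem lam_mul_star_l (g : Γ) (a : L × Γ) :
    F.lam g * star (F.l a) = star (F.l (a.1, g + a.2)) * F.lam g := by
  have := congrArg star (F.lam_mul_l g (a.1, g + a.2))
  simp only [star_mul, F.star_lam, F.add_self_left] at this
  exact this.symm

theorem lam_rho (g h : Γ) : Commute (F.lam g) (F.rho h) :=
  F.ext_op fun w k => by simp [F.lam_e, F.rho_e, add_assoc]

theorem lam_r (g : Γ) (a : L × Γ) : Commute (F.lam g) (F.r a) :=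
  F.ext_op fun w k => by simp [F.lam_e, F.r_e, shift, add_assoc]

theorem lam_star_r (g : Γ) (a : L × Γ) : Commute (F.lam g) (star (F.r a)) := by
  have := (F.lam_r g a).star_star
  rwa [F.star_lam] at this

theorem l_rho (a : L × Γ) (h : Γ) : Commute (F.l a) (F.rho h) :=
  F.ext_op fun w k => by simp [F.l_e, F.rho_e]

theorem star_l_rho (a : L × Γ) (h : Γ) : Commute (star (F.l a)) (F.rho h) := by
  have := (F.l_rho a h).star_star
  rwa [F.star_rho] at this

theorem l_r (a b : L × Γ) : Commute (F.l a) (F.r b) :=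
  F.ext_op fun w k => by simp [F.l_e, F.r_e]

/-- The commutator of a right annihilation and a left creation operator. -/
def mlt (a b : L × Γ) : H →L[ℂ] H := star (F.r a) * F.l b - F.l b * star (F.r a)

theorem mlt_nil (a b : L × Γ) (h : Γ) :
    F.mlt a b (F.e [] h) = (k1 F.φ (a.1, h + a.2) b : ℂ) • F.e [] h := by
  have := F.star_r_snoc a b [] h
  simp only [List.nil_append] at this
  simp [mlt, F.l_e, F.star_r_nil, this]

theorem mlt_of_ne (a b : L × Γ) {w : List (L × Γ)} (hw : w ≠ []) (h : Γ) :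
    F.mlt a b (F.e w h) = 0 := by
  obtain ⟨v, c, rfl⟩ : ∃ v c, w = v ++ [c] := ⟨_, _, (List.dropLast_append_getLast hw).symm⟩
  have := F.star_r_snoc a c (b :: v) h
  simp only [List.cons_append] at this
  simp [mlt, F.l_e, F.star_r_snoc, this]

theorem inner_mlt (a b : L × Γ) (w : List (L × Γ)) (h : Γ) (x : H) :
    ⟪F.e w h, F.mlt a b x⟫_ℂ =
      if w = [] then (k1 F.φ (a.1, h + a.2) b : ℂ) * ⟪F.e [] h, x⟫_ℂ else 0 := by
  have : (innerSL ℂ (F.e w h)).comp (F.mlt a b) =
      if w = [] then (k1 F.φ (a.1, h + a.2) b : ℂ) • innerSL ℂ (F.e [] h) else 0 := by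
    refine F.ext_op fun v k => ?_
    by_cases hv : v = []
    · subst hv
      simp only [ContinuousLinearMap.comp_apply, F.mlt_nil, innerSL_apply_apply, inner_smul_right,
        F.inner_e]
      by_cases hk : h = k
      · subst hk
        cases w <;> simp [kw, F.norm_nil]
      · cases w <;> simp [F.inner_e, hk]
    · simp only [ContinuousLinearMap.comp_apply, F.mlt_of_ne a b hv, map_zero]
      obtain ⟨c, v, rfl⟩ := List.exists_cons_of_ne_nil hv
      cases w <;> simp [F.inner_e, kw]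
  have h2 := congrArg (fun f => f x) this
  split_ifs at h2 ⊢ with hw <;> simpa using h2

theorem star_mlt (a b : L × Γ) : star (F.mlt a b) = F.mlt a b :=
  F.ext_op fun w k => F.ext_vec fun v h => by
    rw [inner_star_right, ← inner_conj_symm, F.inner_mlt, F.inner_mlt]
    by_cases hk : h = k
    · subst hk
      cases w <;> cases v <;> simp [F.inner_e, kw]
    · cases w <;> cases v <;> simp [F.inner_e, hk, Ne.symm hk]

/-- Left field operator. -/
def S (a : L × Γ) : H →L[ℂ] H := F.l a + star (F.l a)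

/-- Right field operator. -/
def R (a : L × Γ) : H →L[ℂ] H := F.r a + star (F.r a)

theorem star_S (a : L × Γ) : star (F.S a) = F.S a := by simp [S, add_comm]

theorem star_R (a : L × Γ) : star (F.R a) = F.R a := by simp [R, add_comm]

theorem norm_S (a : L × Γ) : ‖F.S a‖ ≤ 2 := by
  have := F.norm_l a
  calc ‖F.S a‖ ≤ ‖F.l a‖ + ‖star (F.l a)‖ := norm_add_le _ _
    _ ≤ 2 := by rw [norm_star]; linarith

theorem norm_R (a : L × Γ) : ‖F.R a‖ ≤ 2 := by
  have := F.norm_r a
  calc ‖F.R a‖ ≤ ‖F.r a‖ + ‖star (F.r a)‖ := norm_add_le _ _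
    _ ≤ 2 := by rw [norm_star]; linarith

theorem star_r_mul_S (a b : L × Γ) :
    star (F.r a) * F.S b = F.S b * star (F.r a) + F.mlt a b := by
  have := (F.l_r b a).star_star
  simp only [S, mlt, mul_add, add_mul, this.eq]
  abel

theorem S_mul_r (a b : L × Γ) : F.S b * F.r a = F.r a * F.S b + F.mlt a b := by
  have := congrArg star (F.star_r_mul_S a b)
  simpa only [star_mul, star_add, star_star, F.star_S, F.star_mlt] using this

theorem S_R (a b : L × Γ) : Commute (F.S a) (F.R b) := by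
  simp only [Commute, SemiconjBy, R, mul_add, add_mul, F.S_mul_r, F.star_r_mul_S]
  abel

theorem S_rho (a : L × Γ) (h : Γ) : Commute (F.S a) (F.rho h) :=
  (F.l_rho a h).add_left (F.star_l_rho a h)

theorem lam_R (g : Γ) (a : L × Γ) : Commute (F.lam g) (F.R a) :=
  (F.lam_r g a).add_right (F.lam_star_r g a)

theorem lam_mul_S (g : Γ) (a : L × Γ) : F.lam g * F.S a = F.S (a.1, g + a.2) * F.lam g := by
  simp only [S, mul_add, add_mul, F.lam_mul_l, F.lam_mul_star_l]

theorem lam_Ω (g : Γ) : F.lam g F.Ω = F.e [] g := by simp [Ω, F.lam_e, shift]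

theorem rho_Ω (g : Γ) : F.rho g F.Ω = F.e [] g := by simp [Ω, F.rho_e]

theorem l_Ω (a : L × Γ) : F.l a F.Ω = F.e [a] 0 := by simp [Ω, F.l_e]

theorem r_Ω (a : L × Γ) : F.r a F.Ω = F.e [a] 0 := by simp [Ω, F.r_e]

theorem star_l_Ω (a : L × Γ) : star (F.l a) F.Ω = 0 := F.star_l_nil a 0

theorem star_r_Ω (a : L × Γ) : star (F.r a) F.Ω = 0 := F.star_r_nil a 0

theorem S_Ω (a : L × Γ) : F.S a F.Ω = F.e [a] 0 := by simp [S, F.l_Ω, F.star_l_Ω]

theorem R_Ω (a : L × Γ) : F.R a F.Ω = F.e [a] 0 := by simp [R, F.r_Ω, F.star_r_Ω]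

end Fock

end Pool.Agent.MP_ce43bb_an.H78
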