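import Pool.Agent.MP_ce43bb_an.H78.Defs

/-! Hilbert spaces from positive kernels, and isometries from equal Gram matrices. -/

open scoped InnerProductSpace ComplexOrder

noncomputable section

namespace Pool.Agent.MP_ce43bb_an.H78

theorem psd_of_local {I : Type} (K : Matrix I I ℂ)
    (h : ∀ s : Finset I, ∃ A : Matrix I I ℂ, A.PosSemidef ∧ ∀ i ∈ s, ∀ j ∈ s, A i j = K i j) :
    K.PosSemidef := by
  classical
  refine ⟨?_, fun x => ?_⟩
  · ext i j
    obtain ⟨A, hA, hAK⟩ := h {i, j}
    have := hA.isHermitian.apply i j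
    rw [hAK i (by simp) j (by simp), hAK j (by simp) i (by simp)] at this
    simpa using this
  · obtain ⟨A, hA, hAK⟩ := h x.support
    have := hA.2 x
    convert this using 1
    refine Finset.sum_congr rfl fun i hi => Finset.sum_congr rfl fun j hj => ?_
    simp only [hAK i hi j hj]

theorem psd_rank_one {I : Type} (f : I → ℝ) :
    (Matrix.of fun i j => ((f i * f j : ℝ) : ℂ)).PosSemidef := by
  refine ⟨?_, fun x => ?_⟩
  · ext i j
    simp [mul_comm]
  · have : (x.sum fun i xi => x.sum fun j xj =>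
        star xi * (Matrix.of fun i j => ((f i * f j : ℝ) : ℂ)) i j * xj) =
        star (x.sum fun j xj => (f j : ℂ) * xj) * (x.sum fun j xj => (f j : ℂ) * xj) := by
      simp only [Finsupp.sum, star_sum, Finset.sum_mul_sum, Matrix.of_apply]
      refine Finset.sum_congr rfl fun i _ => Finset.sum_congr rfl fun j _ => ?_
      simp
      ring
    rw [this]
    exact star_mul_self_nonneg _

theorem psd_mul {I : Type} {f g : I → I → ℝ}
    (hf : (Matrix.of fun i j => ((f i j : ℝ) : ℂ)).PosSemidef)
    (hg : (Matrix.of fun i j => ((g i j : ℝ) : ℂ)).PosSemidef) :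
    (Matrix.of fun i j => ((f i j * g i j : ℝ) : ℂ)).PosSemidef := by
  have h : (Matrix.of fun i j => ((f i j * g i j : ℝ) : ℂ)) =
      (Matrix.of fun i j => ((f i j : ℝ) : ℂ)).hadamard (Matrix.of fun i j => ((g i j : ℝ) : ℂ)) := by
    ext i j
    simp
  rw [h]
  exact hf.hadamard hg

theorem psd_add {I : Type} {f g : I → I → ℝ}
    (hf : (Matrix.of fun i j => ((f i j : ℝ) : ℂ)).PosSemidef)
    (hg : (Matrix.of fun i j => ((g i j : ℝ) : ℂ)).PosSemidef) :
    (Matrix.of fun i j => ((f i j + g i j : ℝ) : ℂ)).PosSemidef := by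
  convert hf.add hg using 1
  ext i j
  simp

theorem psd_comp {I J : Type} {f : I → I → ℝ}
    (hf : (Matrix.of fun i j => ((f i j : ℝ) : ℂ)).PosSemidef) (c : J → I) :
    (Matrix.of fun i j => ((f (c i) (c j) : ℝ) : ℂ)).PosSemidef :=
  hf.submatrix c

theorem psd_sum {I κ : Type} (s : Finset κ) {f : κ → I → I → ℝ}
    (hf : ∀ k ∈ s, (Matrix.of fun i j => ((f k i j : ℝ) : ℂ)).PosSemidef) :
    (Matrix.of fun i j => ((∑ k ∈ s, f k i j : ℝ) : ℂ)).PosSemidef := by
  classical
  induction s using Finset.induction_on with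
  | empty => simpa using psd_rank_one (fun _ : I => 0)
  | insert k s hk ih =>
    simp only [Finset.sum_insert hk]
    exact psd_add (hf k (by simp)) (ih fun k' hk' => hf k' (by simp [hk']))

theorem psd_prod {I κ : Type} (s : Finset κ) {f : κ → I → I → ℝ}
    (hf : ∀ k ∈ s, (Matrix.of fun i j => ((f k i j : ℝ) : ℂ)).PosSemidef) :
    (Matrix.of fun i j => ((∏ k ∈ s, f k i j : ℝ) : ℂ)).PosSemidef := by
  classical
  induction s using Finset.induction_on with
  | empty => simpa using psd_rank_one (fun _ : I => 1)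
  | insert k s hk ih =>
    simp only [Finset.prod_insert hk]
    exact psd_mul (hf k (by simp)) (ih fun k' hk' => hf k' (by simp [hk']))

theorem psd_delta {I : Type} [DecidableEq I] :
    (Matrix.of fun i j : I => (((if i = j then 1 else 0) : ℝ) : ℂ)).PosSemidef := by
  convert (Matrix.PosSemidef.one : (1 : Matrix I I ℂ).PosSemidef) using 1
  ext i j
  by_cases h : i = j <;> simp [Matrix.one_apply, h]

theorem exists_gram {I : Type} (K : Matrix I I ℂ) (hK : K.PosSemidef) :
    ∃ (H : Type) (_ : NormedAddCommGroup H) (_ : InnerProductSpace ℂ H) (_ : CompleteSpace H)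
      (e : I → H), (∀ i j, ⟪e i, e j⟫_ℂ = K i j) ∧
        Dense (Submodule.span ℂ (Set.range e) : Set H) := by
  classical
  let K' : Matrix I I (ℂ →L[ℂ] ℂ) := Matrix.of fun i j => K i j • (1 : ℂ →L[ℂ] ℂ)
  have hK' : K'.PosSemidef := by
    have ht := (RKHS.posSemidef_tfae (K := K')).out 2 0
    refine ht.mp ⟨?_, fun vv => ?_⟩
    · ext i j
      have := hK.isHermitian.apply i j
      simp [K', ← this]
    · have h2 := (hK.2 vv)
      have h3 : (vv.sum fun x w => vv.sum fun x' w' => ⟪K' x' x w, w'⟫_ℂ) =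
          vv.sum fun i xi => vv.sum fun j xj => star xi * K i j * xj := by
        refine Finset.sum_congr rfl fun i _ => Finset.sum_congr rfl fun j _ => ?_
        have := hK.isHermitian.apply i j
        simp [K', ← this]
        ring
      rw [h3]
      exact (Complex.nonneg_iff.mp h2).1
  have : Fact K'.PosSemidef := ⟨hK'⟩
  refine ⟨RKHS.OfKernel K', inferInstance, inferInstance, inferInstance,
    fun i => RKHS.kerFun (RKHS.OfKernel K') i 1, fun i j => ?_, ?_⟩
  · rw [← RKHS.kernel_inner, RKHS.OfKernel.kernel_ofKernel]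
    have := hK.isHermitian.apply i j
    simp [K', ← this]
  · have h := RKHS.kerFun_dense (𝕜 := ℂ) (RKHS.OfKernel K')
    rw [← Submodule.dense_iff_topologicalClosure_eq_top] at h
    refine h.mono ?_
    refine Submodule.span_le.mpr ?_
    rintro _ ⟨x, v, rfl⟩
    have : RKHS.kerFun (RKHS.OfKernel K') x v = v • RKHS.kerFun (RKHS.OfKernel K') x 1 := by
      rw [← map_smul]; simp
    rw [this]
    exact Submodule.smul_mem _ _ (Submodule.subset_span ⟨x, rfl⟩)

variable {I H H' : Type} [NormedAddCommGroup H] [InnerProductSpace ℂ H]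
  [NormedAddCommGroup H'] [InnerProductSpace ℂ H']

theorem clm_ext {e : I → H} (hd : Dense (Submodule.span ℂ (Set.range e) : Set H))
    {S T : H →L[ℂ] H'} (h : ∀ i, S (e i) = T (e i)) : S = T :=
  ContinuousLinearMap.ext_on hd (by rintro _ ⟨i, rfl⟩; exact h i)

theorem vec_ext {e : I → H} (hd : Dense (Submodule.span ℂ (Set.range e) : Set H))
    {x y : H} (h : ∀ i, ⟪e i, x⟫_ℂ = ⟪e i, y⟫_ℂ) : x = y := by
  have : innerSL ℂ x = innerSL ℂ y := clm_ext hd fun i => by
    simp only [innerSL_apply_apply]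
    rw [← inner_conj_symm, h, inner_conj_symm]
  exact ext_inner_right ℂ fun v => by simpa using congrArg (fun f => f v) this

theorem exists_ext [CompleteSpace H'] {e : I → H}
    (hd : Dense (Submodule.span ℂ (Set.range e) : Set H)) (g : I → H')
    (hg : ∀ i j, ⟪g i, g j⟫_ℂ = ⟪e i, e j⟫_ℂ) :
    ∃ T : H →L[ℂ] H', ∀ i, T (e i) = g i := by
  let E := Finsupp.linearCombination ℂ e
  let G := Finsupp.linearCombination ℂ g
  have hE : DenseRange E := by
    have : Set.range E = (Submodule.span ℂ (Set.range e) : Set H) := by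
      rw [← Finsupp.range_linearCombination]; rfl
    unfold DenseRange
    rw [this]; exact hd
  have hn : ∀ c, ‖G c‖ ≤ 1 * ‖E c‖ := by
    intro c
    have : ⟪G c, G c⟫_ℂ = ⟪E c, E c⟫_ℂ := by
      simp only [G, E, Finsupp.linearCombination_apply, Finsupp.sum, sum_inner, inner_sum,
        inner_smul_left, inner_smul_right, hg]
    rw [inner_self_eq_norm_sq_to_K, inner_self_eq_norm_sq_to_K] at this
    have h2 : ‖G c‖ ^ 2 = ‖E c‖ ^ 2 := by exact_mod_cast this
    rw [one_mul]
    exact le_of_eq ((pow_left_inj₀ (norm_nonneg _) (norm_nonneg _) two_ne_zero).mp h2)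
  refine ⟨G.extendOfNorm E, fun i => ?_⟩
  have := LinearMap.extendOfNorm_eq hE ⟨1, hn⟩ (Finsupp.single i 1)
  simpa [E, G] using this

end Pool.Agent.MP_ce43bb_an.H78
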