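import Pool.Agent.MP_ce43bb_an.H78.Low
import Pool.Agent.MP_ce43bb_an.H64.Expand
import Pool.Agent.MP_ce43bb_an.H25.Resolve
import Pool.Agent.MP_ce43bb_an.H93.Trace

/-! The windows on which `t Φ*` is large. -/

set_option linter.unusedSectionVars false

open scoped InnerProductSpace

noncomputable section

namespace Pool.Agent.MP_ce43bb_an.H78

variable {V : ℕ → Type} [∀ j, AddCommGroup (V j)] [∀ j, Fintype (V j)] [∀ j, DecidableEq (V j)]
  {H : Type} [NormedAddCommGroup H] [InnerProductSpace ℂ H] [CompleteSpace H]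

namespace Data

variable (D : Data V)

theorem side_pt (s : Side (Π₀ j, V j) H) (k : ℕ) {τ : ℝ} (h1 : (D.U k ^ 3300)⁻¹ ≤ τ)
    (a0 : Let × Π₀ j, V j) :
    ∃ (Ut : H →L[ℂ] H) (pt : V k → H →L[ℂ] H),
      ‖Ut - ∑ a, om k a • D.p s k a‖ ≤ D.U k ^ 33 * τ ∧
      (∀ a, ‖pt a - D.p s k a‖ ≤ D.U k ^ 33 * τ) ∧ (∀ a, Commute (pt a) Ut) ∧
      ∀ T, Commute T (D.x s 0 + (τ : ℂ) • s.Sf a0) → Commute T Ut ∧ ∀ a, Commute T (pt a) := by
  have hw := D.U_pos k
  have hτ : 0 < τ := (inv_pos.mpr (pow_pos hw _)).trans_le h1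
  have hsa : ∀ {T : H →L[ℂ] H} (c : ℝ), IsSelfAdjoint T → IsSelfAdjoint ((c : ℂ) • T) :=
    fun c h => IsSelfAdjoint.smul (Complex.conj_ofReal c) h
  obtain ⟨Ut, pt, b1, b2, b3, b4⟩ := exists_pt Fintype.card_pos (D.p_idem s k) (D.p_orth s k)
    (D.sum_p s k) (om k) (om_pow k) (om_inj k) (hsa _ (D.isSelfAdjoint_xJ s (k + 1) 0))
    (hsa (D.th k) ((D.isSelfAdjoint_x s 0).add (hsa τ (s.star_Sf a0)))) (D.exp_xJ s k)
  have hth : 0 ≤ D.th k := by unfold th; positivity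
  have hn : ‖(D.th k : ℂ) • (D.x s 0 + (τ : ℂ) • s.Sf a0) - (D.th k : ℂ) • D.xJ s (k + 1) 0‖ ≤
      D.U k ^ 25 * τ := by
    rw [← smul_sub, norm_smul, Complex.norm_real, Real.norm_of_nonneg hth, add_sub_right_comm]
    have c1 := D.norm_x_sub s (k + 1) 0
    have c2 : ‖(τ : ℂ) • s.Sf a0‖ ≤ τ * 2 := by
      rw [norm_smul, Complex.norm_real, Real.norm_of_nonneg hτ.le]
      exact mul_le_mul_of_nonneg_left (s.norm_Sf a0) hτ.le
    have c3 : 2 * D.bd 0 (k + 1) ≤ τ := by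
      refine le_trans ?_ h1
      simp only [bd, if_true]
      have c4 := D.mul_U_pow_le k (show 3300 < 20000 * 16 by norm_num)
      rw [← D.U_succ_pow] at c4
      have c5 := pow_pos hw 3300
      generalize D.U k ^ 3300 = A at *
      generalize D.U (k + 1) ^ 16 = B at *
      rw [← div_eq_mul_inv, div_le_iff₀ (by linarith), inv_mul_eq_div, le_div_iff₀ c5]
      linarith
    have c6 := norm_add_le (D.x s 0 - D.xJ s (k + 1) 0) ((τ : ℂ) • s.Sf a0)
    have c7 : D.th k * 3 ≤ D.U k ^ 25 := by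
      have := D.mul_U_pow_le k (show 24 < 25 by norm_num)
      have c8 := pow_pos hw 24
      unfold th
      nlinarith [Real.pi_le_four]
    calc _ ≤ D.th k * (3 * τ) := mul_le_mul_of_nonneg_left (by linarith) hth
      _ ≤ _ := by rw [← mul_assoc]; exact mul_le_mul_of_nonneg_right c7 hτ.le
  refine ⟨Ut, pt, b1.trans (hn.trans ?_), fun a => (b2 a).trans ?_, b3,
    fun T hT => b4 T (hT.smul_right _)⟩
  · exact mul_le_mul_of_nonneg_right (D.U_pow_le k (by norm_num)) hτ.le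
  · rw [D.card_eq, show D.U k ^ 33 * τ = D.U k ^ 8 * (D.U k ^ 25 * τ) by ring]
    exact mul_le_mul_of_nonneg_left hn (pow_pos hw 8).le

theorem term_Ω (F : Fock Let (Π₀ j, V j) H) (i : Fin 65) (j : ℕ) :
    D.term F.left i j F.Ω = D.term F.right i j F.Ω := by
  unfold term
  split_ifs
  · simp [y, p, Fock.left, Fock.right, F.lam_Ω, F.rho_Ω]
  · simp [Fock.left, Fock.right, F.S_Ω, F.R_Ω]

theorem xJ_Ω (F : Fock Let (Π₀ j, V j) H) (J : ℕ) (i : Fin 65) :
    D.xJ F.left J i F.Ω = D.xJ F.right J i F.Ω := by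
  simp [xJ, D.term_Ω]

theorem x_Ω (F : Fock Let (Π₀ j, V j) H) (i : Fin 65) :
    D.x F.left i F.Ω = D.x F.right i F.Ω := by
  have h := fun s => ((ContinuousLinearMap.apply ℂ H F.Ω).continuous.tendsto _).comp
    (D.tendsto_xJ s i)
  refine tendsto_nhds_unique (h F.left) ((h F.right).congr fun J => ?_)
  exact (D.xJ_Ω F J i).symm

theorem inner_pp (F : Fock Let (Π₀ j, V j) H) (k : ℕ) (a b : V k) (σ : Let) :
    ⟪F.e [(σ, 0)] 0, (D.p F.left k a * D.p F.right k b) (F.e [(σ, 0)] 0)⟫_ℂ =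
      (((Fintype.card (V k) : ℝ) ^ 2)⁻¹ *
        ∑ γ, D.χ k γ (a + b) * F.φ σ (DFinsupp.single k γ) : ℝ) := by
  have h : ∀ γ γ' : V k,
      (0 : Π₀ j, V j) = DFinsupp.single k γ + DFinsupp.single k γ' ↔ γ' = γ := by
    intro γ γ'
    rw [eq_comm, F.add_eq_zero_iff, DFinsupp.single_injective.eq_iff, eq_comm]
  simp only [p, Fock.left, Fock.right, mul_apply_eq_comp, smul_apply, sum_apply, map_smul, map_sum,
    inner_smul_right, inner_sum, F.rho_e, F.lam_e, F.inner_e, zero_add, h]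
  push_cast
  simp only [Finset.mul_sum]
  refine Finset.sum_congr rfl fun γ _ => ?_
  rw [Finset.sum_eq_single γ]
  · simp [shift, kw, k1, D.χ_add']
    ring
  · intro γ' _ hγ
    simp [Ne.symm hγ]
  · simp

theorem commute_pp (F : Fock Let (Π₀ j, V j) H) (k : ℕ) (a b : V k) :
    Commute (D.p F.left k a) (D.p F.right k b) :=
  D.commute_p F.right (fun g => (D.commute_p F.left (fun h => (F.lam_rho h g).symm) k a).symm) k b

theorem pp_z (F : Fock Let (Π₀ j, V j) H) (hF : F.φ = D.phi) {k : ℕ} {a b : V k}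
    (hab : a + b ∉ D.S k) (q : Fin 65 × ℕ) (hq : q.2 < k) :
    (D.p F.left k a * D.p F.right k b) (F.e [(.inl q, 0)] 0) = 0 := by
  have hP := (D.isStarProjection_p F.left k a).mul (D.isStarProjection_p F.right k b)
    (D.commute_pp F k a b)
  have h0 : ∑ γ, D.χ k γ (a + b) * F.φ (.inl q) (DFinsupp.single k γ) = 0 := by
    simp only [hF, D.phi_single q hq, Ph, ← mul_div_assoc, Finset.mul_sum, ← D.χ_add',
      ← Finset.sum_div]
    rw [Finset.sum_comm, Finset.sum_eq_zero, zero_div]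
    intro x hx
    rw [D.sum_χ, if_neg]
    rw [D.add_eq_zero]
    rintro rfl
    exact hab hx
  have h1 := D.inner_pp F k a b (.inl q)
  rw [h0, mul_zero, Complex.ofReal_zero, ← hP.isIdempotentElem.eq, mul_apply_eq_comp,
    ← Fock.inner_star_left, hP.isSelfAdjoint.star_eq] at h1
  exact inner_self_eq_zero.mp h1

theorem inner_Pi (F : Fock Let (Π₀ j, V j) H) (hF : F.φ = D.phi) (k : ℕ) (i : Fin 65 ⊕ Fin 65) :
    ⟪F.e [(.inr i, 0)] 0, (∑ ab ∈ Finset.univ.filter (fun ab : V k × V k => ab.1 + ab.2 ∉ D.S k),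
      D.p F.left k ab.1 * D.p F.right k ab.2) (F.e [(.inr i, 0)] 0)⟫_ℂ =
      (((D.S k)ᶜ.card / Fintype.card (V k) : ℝ) : ℂ) := by
  have h1 : ∀ c : V k, ∑ γ, D.χ k γ c * F.φ (.inr i) (DFinsupp.single k γ) = 1 := by
    intro c
    rw [Finset.sum_eq_single 0]
    · simp [D.χ_zero, F.phi_zero]
    · intro γ _ hγ
      rw [D.isNoise F hF, if_neg (by simpa using hγ), mul_zero]
    · simp
  have h2 : ((Finset.univ.filter (fun ab : V k × V k => ab.1 + ab.2 ∉ D.S k)).card : ℝ) =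
      Fintype.card (V k) * (D.S k)ᶜ.card := by
    rw [Finset.card_filter, Fintype.sum_prod_type]
    push_cast
    rw [Finset.sum_congr rfl (g := fun _ => ((D.S k)ᶜ.card : ℝ)) fun a _ => ?_]
    · simp
    · rw [← Equiv.sum_comp (Equiv.addLeft a)]
      simp only [Equiv.coe_addLeft, ← add_assoc, D.two, zero_add]
      rw [Finset.sum_boole]
      congr 2
      ext x
      simp
  simp only [sum_apply, inner_sum, D.inner_pp, h1, Finset.sum_const,
    nsmul_eq_mul]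
  rw [← Complex.ofReal_natCast, h2, ← Complex.ofReal_mul]
  congr 1
  have : (Fintype.card (V k) : ℝ) ≠ 0 := by exact_mod_cast Fintype.card_ne_zero
  field_simp

theorem high (F : Fock Let (Π₀ j, V j) H) (hF : F.φ = D.phi) (k : ℕ) {τ : ℝ}
    (h1 : (D.U k ^ 3300)⁻¹ ≤ τ) (h2 : τ ≤ (D.U k ^ 1650)⁻¹) :
    7 ≤ fval F.Ω (D.x F.left) (fun i => F.S (.inr (.inl i), 0)) (τ ^ 2) := by
  have hw := D.U_pos k
  have hτ : 0 < τ := (inv_pos.mpr (pow_pos hw _)).trans_le h1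
  have hτ1 : τ ≤ 1 := h2.trans (inv_le_one_of_one_le₀ (one_le_pow₀ (D.U_one k)))
  obtain ⟨Q, hQdef⟩ : ∃ Q, Q = D.U k ^ 33 := ⟨_, rfl⟩
  have hQ : 256 ≤ Q := by
    rw [hQdef]; simpa using D.mul_U_pow_le k (show 0 < 33 by norm_num)
  have hsmall : Q ^ 50 * τ ≤ 1 := by
    rw [hQdef, ← pow_mul]
    exact (mul_le_mul_of_nonneg_left h2 (pow_pos hw _).le).trans
      (mul_inv_cancel₀ (pow_pos hw _).ne').le
  have hρ : D.rh k ≤ τ ^ 2 := by
    refine le_trans (le_of_eq ?_) (pow_le_pow_left₀ (inv_pos.mpr (pow_pos hw _)).le h1 2)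
    rw [inv_pow, ← pow_mul]; rfl
  have hVQ : (Fintype.card (V k) : ℝ) ≤ Q := by
    rw [D.card_eq, hQdef]; exact D.U_pow_le k (by norm_num)
  set yt := pert (D.x F.left) (fun i => F.S (.inr (.inl i), 0)) (τ ^ 2) with hyt
  have hy : ∀ i, yt i = D.x F.left i + (τ : ℂ) • F.left.Sf (.inr (.inl i), 0) := fun i => by
    simp only [hyt, pert, Real.sqrt_sq hτ.le]; rfl
  let yR : Fin 65 → H →L[ℂ] H := fun i =>
    D.x F.right i + (τ : ℂ) • F.right.Sf (.inr (.inl i), 0)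
  have hsa : ∀ (s : Side (Π₀ j, V j) H) i a,
      IsSelfAdjoint (D.x s i + (τ : ℂ) • s.Sf a) := fun s i a =>
    (D.isSelfAdjoint_x s i).add (IsSelfAdjoint.smul (Complex.conj_ofReal τ) (s.star_Sf a))
  have hcomm : ∀ (s : Side (Π₀ j, V j) H) {T : H →L[ℂ] H}, (∀ g, Commute T (s.Λ g)) →
      (∀ a, Commute T (s.Sf a)) → ∀ i a, Commute T (D.x s i + (τ : ℂ) • s.Sf a) :=
    fun s T h h' i a => (D.commute_x s h h' i).add_right ((h' a).smul_right _)
  have hρL : ∀ g h, Commute (F.rho g) (F.left.Λ h) := fun g h => (F.lam_rho h g).symm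
  have hρS : ∀ g a, Commute (F.rho g) (F.left.Sf a) := fun g a => (F.S_rho a g).symm
  have hRL : ∀ b h, Commute (F.R b) (F.left.Λ h) := fun b h => (F.lam_R h b).symm
  have hRS : ∀ b a, Commute (F.R b) (F.left.Sf a) := fun b a => (F.S_R a b).symm
  have hPL : ∀ i, Commute (proj F.Ω yt) (yt i) := fun i =>
    H42.commute_proj_left _ _ i (hy i ▸ hsa _ _ _)
  have hPR : ∀ i, Commute (proj F.Ω yt) (yR i) := fun i =>
    H42.commute_proj_right _ _ i (hsa _ _ _) (fun i' => hcomm F.right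
      (fun g => (hy i' ▸ hcomm F.left (hρL g) (hρS g) _ _).symm)
      (fun b => (hy i' ▸ hcomm F.left (hRL b) (hRS b) _ _).symm) _ _) (by
        simp only [yR, hy, add_apply, smul_apply, D.x_Ω]
        simp only [Fock.left, Fock.right, F.S_Ω, F.R_Ω])
  obtain ⟨Ut, pt, b1, b2, b3, b4⟩ := D.side_pt F.left k h1 (.inr (.inl 0), 0)
  obtain ⟨UR, pR, c1, c2, c3, c4⟩ := D.side_pt F.right k h1 (.inr (.inl 0), 0)
  rw [← hQdef] at b1 b2 c1 c2
  have htail : ∀ (s : Side (Π₀ j, V j) H) (i : Fin 64),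
      ‖D.x s i.succ - D.xJ s k i.succ‖ ≤ 4 * τ ^ 2 := fun s i => by
    have := D.norm_x_sub s k i.succ
    rw [bd, if_neg (Fin.succ_ne_zero i)] at this
    linarith
  have hXz : ∀ (s : Side (Π₀ j, V j) H) (i : Fin 64) a,
      ‖D.x s i.succ + (τ : ℂ) • s.Sf a - D.xJ s k i.succ‖ ≤ Q * τ := fun s i a => by
    rw [add_sub_right_comm]
    refine (norm_add_le _ _).trans ?_
    rw [norm_smul, Complex.norm_real, Real.norm_of_nonneg hτ.le]
    nlinarith [htail s i, s.norm_Sf a]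
  have hP := H42.isStarProjection_proj F.Ω yt
  obtain ⟨hPi, hc, e₁, e₂, he₁, he₂, hd⟩ := H64.lemmaL1 F.Ω F.norm_Ω Q τ (by linarith) hVQ hτ hsmall
    (proj F.Ω yt) hP (H42.proj_apply_self _ _) (om k)
    (fun a b hab => (one_div_le_one_div_of_le (by exact_mod_cast Fintype.card_pos) hVQ).trans
      (root_gap Fintype.card_pos (om_pow k a) (om_pow k b) fun e => hab (om_inj k e)))
    (D.p F.left k) (D.p F.right k) pt pR Ut UR (D.isStarProjection_p _ k) (D.p_orth _ k)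
    (D.sum_p _ k) (D.isStarProjection_p _ k) (D.p_orth _ k) (D.sum_p _ k) b1 c1 b2 c2 b3 c3
    (fun i : Fin 64 => D.xJ F.left k i.succ) (fun i => D.xJ F.right k i.succ) (fun i => yt i.succ)
    (fun i => F.e [(.inr (.inl i.succ), 0)] 0)
    (fun i => (D.norm_xJ _ _ _).trans (by linarith)) (fun i => (D.norm_xJ _ _ _).trans (by linarith))
    (fun i => D.xJ_Ω F k _)
    (fun i => by
      have : yt i.succ F.Ω - D.xJ F.left k i.succ F.Ω - (τ : ℂ) • F.e [(.inr (.inl i.succ), 0)] 0 =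
          (D.x F.left i.succ - D.xJ F.left k i.succ) F.Ω := by
        simp only [hy, add_apply, smul_apply, sub_apply]
        simp only [Fock.left, F.S_Ω]
        abel
      rw [this]
      refine (ContinuousLinearMap.le_opNorm _ _).trans ?_
      rw [F.norm_Ω, mul_one]
      nlinarith [htail F.left i, sq_nonneg τ])
    (fun i => F.norm_e _ _)
    (by
      have hL : ∀ A ∈ ({Ut} ∪ Set.range (D.p F.left k) ∪ Set.range pt ∪
          Set.range (fun i : Fin 64 => D.xJ F.left k i.succ) : Set (H →L[ℂ] H)),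
          ∀ T, (∀ g, Commute T (F.left.Λ g)) → (∀ a, Commute T (F.left.Sf a)) → Commute T A := by
        rintro A (((rfl | ⟨a, rfl⟩) | ⟨a, rfl⟩) | ⟨i, rfl⟩) T h h'
        · exact (b4 T (hcomm _ h h' _ _)).1
        · exact D.commute_p _ h k a
        · exact (b4 T (hcomm _ h h' _ _)).2 a
        · exact D.commute_xJ _ h h' k _
      intro A hA
      have h : ∀ g, Commute A (F.right.Λ g) := fun g => (hL A hA _ (hρL g) (hρS g)).symm
      have h' : ∀ b, Commute A (F.right.Sf b) := fun b => (hL A hA _ (hRL b) (hRS b)).symm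
      rintro B (((rfl | ⟨a, rfl⟩) | ⟨a, rfl⟩) | ⟨i, rfl⟩)
      · exact (c4 A (hcomm _ h h' _ _)).1
      · exact D.commute_p _ h k a
      · exact (c4 A (hcomm _ h h' _ _)).2 a
      · exact D.commute_xJ _ h h' k _)
    (by
      rintro A ((⟨a, rfl⟩ | ⟨a, rfl⟩) | ⟨i, rfl⟩)
      · exact (b4 _ (hy 0 ▸ hPL 0)).2 a
      · exact (c4 _ (hPR 0)).2 a
      · exact hPL _)
    (Finset.univ.filter (fun ab : V k × V k => ab.1 + ab.2 ∉ D.S k))
    (fun ab hab i => by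
      simp only [xJ, term, if_neg (Fin.succ_ne_zero i), sum_apply, smul_apply, map_sum, map_smul]
      refine Finset.sum_eq_zero fun j hj => ?_
      have : F.left.Sf (.inl (i.succ, j), 0) F.Ω = F.e [(.inl (i.succ, j), 0)] 0 := F.S_Ω _
      rw [this, D.pp_z F hF (Finset.mem_filter.mp hab).2 _ (Finset.mem_range.mp hj), smul_zero])
    _ rfl
  set Pi := ∑ ab ∈ Finset.univ.filter (fun ab : V k × V k => ab.1 + ab.2 ∉ D.S k),
      D.p F.left k ab.1 * D.p F.right k ab.2 with hPidef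
  have hQ1 : (1 : ℝ) ≤ Q := by linarith
  have hnY : ∀ z : H →L[ℂ] H, ‖z‖ ≤ 8 → ‖Pi * z‖ ≤ Q := fun z hz =>
    (norm_mul_le _ _).trans (by nlinarith [hPi.norm_le, norm_nonneg z, norm_nonneg Pi])
  have hcY : ∀ z X : H →L[ℂ] H, ‖z‖ ≤ 8 → ‖X - z‖ ≤ Q * τ → Commute (proj F.Ω yt) X →
      ‖proj F.Ω yt * (Pi * z) - Pi * z * proj F.Ω yt‖ ≤ Q ^ 10 * τ := by
    intro z X hz hX hPX
    have e : proj F.Ω yt * (Pi * z) - Pi * z * proj F.Ω yt =
        (proj F.Ω yt * Pi - Pi * proj F.Ω yt) * z +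
          Pi * ((X - z) * proj F.Ω yt - proj F.Ω yt * (X - z)) := by
      simp only [mul_sub, sub_mul, hPX.eq, mul_assoc]
      abel
    have n1 := (norm_mul_le (proj F.Ω yt * Pi - Pi * proj F.Ω yt) z).trans
      (mul_le_mul hc hz (norm_nonneg _) (by positivity))
    have n2 := (norm_mul_le (X - z) (proj F.Ω yt)).trans
      (mul_le_mul hX hP.norm_le (norm_nonneg _) (by positivity))
    have n3 := (norm_mul_le (proj F.Ω yt) (X - z)).trans
      (mul_le_mul hP.norm_le hX (norm_nonneg _) zero_le_one)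
    have n4 := (norm_mul_le Pi ((X - z) * proj F.Ω yt - proj F.Ω yt * (X - z))).trans
      (mul_le_mul hPi.norm_le ((norm_sub_le _ _).trans (add_le_add n2 n3)) (norm_nonneg _)
        zero_le_one)
    rw [e]
    refine (norm_add_le _ _).trans ((add_le_add n1 n4).trans ?_)
    have m1 : Q ≤ Q ^ 4 := le_self_pow₀ hQ1 (by norm_num)
    have m2 : Q ≤ Q ^ 6 := le_self_pow₀ hQ1 (by norm_num)
    have m3 : 10 * Q ^ 4 ≤ Q ^ 10 := by
      rw [show Q ^ 10 = Q ^ 6 * Q ^ 4 by ring]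
      exact mul_le_mul_of_nonneg_right (by linarith) (by positivity)
    nlinarith
  let J : Set Let := Set.range fun i : Fin 65 => (.inr (.inl i) : Let)
  have hJ : ∀ σ ∈ J, F.IsNoise σ := by rintro _ ⟨i, rfl⟩; exact D.isNoise F hF _
  have hJ' : ∀ q, (.inl q : Let) ∉ J := by rintro q ⟨i, h⟩; cases h
  have m1 : ∀ g, F.left.Λ g ∈ F.BB J := fun g =>
    StarAlgebra.subset_adjoin ℂ _ (Or.inl (Or.inl ⟨g, rfl⟩))
  have m2 : ∀ q, F.left.Sf (.inl q, 0) ∈ F.BB J := fun q =>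
    StarAlgebra.subset_adjoin ℂ _ (Or.inl (Or.inr ⟨_, hJ' q, rfl⟩))
  have m3 : ∀ g, F.right.Λ g ∈ F.BB J := fun g =>
    StarAlgebra.subset_adjoin ℂ _ (Or.inr (Or.inl ⟨g, rfl⟩))
  have m4 : ∀ q, F.right.Sf (.inl q, 0) ∈ F.BB J := fun q =>
    StarAlgebra.subset_adjoin ℂ _ (Or.inr (Or.inr ⟨_, hJ' q, rfl⟩))
  have m5 : Pi ∈ F.BB J := sum_mem fun ab _ => mul_mem (D.mem_p _ m1 k _) (D.mem_p _ m3 k _)
  have key := H25.lemmaL2 (n := 64) (by norm_num) Q (Q ^ 10 * τ)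
    ((D.S k)ᶜ.card / Fintype.card (V k)) (by linarith) (by push_cast; linarith)
    (by rw [← mul_assoc, ← pow_add]; exact hsmall) (proj F.Ω yt) Pi hP hPi
    (fun i => Pi * D.xJ F.right k i.succ) (fun i => Pi * D.xJ F.left k i.succ)
    (fun i => by rw [← mul_assoc, hPi.isIdempotentElem.eq])
    (fun i => by rw [← mul_assoc, hPi.isIdempotentElem.eq])
    (fun i => hnY _ (D.norm_xJ _ _ _)) (fun i => hnY _ (D.norm_xJ _ _ _))
    (fun i => hcY _ _ (D.norm_xJ _ _ _) (hXz F.right i _) (hPR _))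
    (fun i => hcY _ _ (D.norm_xJ _ _ _) (hXz F.left i _) (hy _ ▸ hPL _))
    (fun i => F.e [(.inr (.inl i.succ), 0)] 0) (fun i => F.norm_e _ _) e₁ e₂ he₁ he₂ hd (F.BB J)
    (fun i => mul_mem m5 (D.mem_xJ _ m3 m4 k _)) (fun i => mul_mem m5 (D.mem_xJ _ m1 m2 k _))
    (fun b hb i j hij => H93.BB_off F hJ hb ⟨_, rfl⟩ ⟨_, rfl⟩ (by simpa using hij))
    (fun b hb b' hb' i j => H93.BB_trace F hJ hb hb' ⟨_, rfl⟩ ⟨_, rfl⟩)
    (fun i => D.inner_Pi F hF k _)
  have hα : (1 : ℝ) / 4 ≤ (D.S k)ᶜ.card / Fintype.card (V k) := by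
    have h3 : (Fintype.card (V k) : ℝ) ≤ 4 * (D.S k)ᶜ.card := by exact_mod_cast D.S_big k
    rw [le_div_iff₀ (by exact_mod_cast Fintype.card_pos)]
    linarith
  unfold fval
  simp only [F.S_Ω]
  rw [Fin.sum_univ_succ, ← hyt]
  push_cast at key
  linarith [sq_nonneg ‖proj F.Ω yt (F.e [(.inr (.inl 0), 0)] 0)‖]

end Data

end Pool.Agent.MP_ce43bb_an.H78
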