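import Pool.Agent.MP_ce43bb_an.H78.Base
import Pool.Agent.MP_ce43bb_an.H78.Appell

/-! The upper bound for the conjugate variable on the windows where the holes are invisible. -/

set_option linter.unusedSectionVars false

open scoped InnerProductSpace

noncomputable section

namespace Pool.Agent.MP_ce43bb_an.H78

variable {L Γ : Type} [DecidableEq L] [AddCommGroup Γ] [DecidableEq Γ]
  {H : Type} [NormedAddCommGroup H] [InnerProductSpace ℂ H] [CompleteSpace H]
  {A : Type} [AddCommGroup A] [Fintype A] [DecidableEq A]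

/-- Coefficient at `g` of a function on `A` extended by zero. -/
def cf (ι : A →+ Γ) (g : Γ) : (A → ℂ) →ₗ[ℂ] ℂ where
  toFun G := ∑ a, if g = ι a then G a else 0
  map_add' G G' := by
    rw [← Finset.sum_add_distrib]
    exact Finset.sum_congr rfl fun a _ => by split_ifs <;> simp
  map_smul' c G := by
    simp only [RingHom.id_apply, smul_eq_mul, Finset.mul_sum]
    exact Finset.sum_congr rfl fun a _ => by split_ifs <;> simp

theorem cf_apply {ι : A →+ Γ} (hι : Function.Injective ι) (a : A) (G : A → ℂ) :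
    cf ι (ι a) G = G a := by
  change (∑ b, if ι a = ι b then G b else 0) = _
  simp [hι.eq_iff]

theorem cf_of_not {ι : A →+ Γ} {g : Γ} (hg : ∀ a, g ≠ ι a) (G : A → ℂ) : cf ι g G = 0 := by
  change (∑ b, if g = ι b then G b else 0) = _
  simp [hg]

theorem cf_conv {ι : A →+ Γ} (hι : Function.Injective ι) (g : Γ) (f G : A → ℂ) :
    ∑ a, f a * cf ι (ι a + g) G = cf ι g (conv f G) := by
  by_cases hg : ∃ c, g = ι c
  · obtain ⟨c, rfl⟩ := hg
    simp only [← map_add, cf_apply hι, conv]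
  · push Not at hg
    rw [cf_of_not hg]
    refine Finset.sum_eq_zero fun a _ => ?_
    rw [cf_of_not fun c hc => hg (c - a) (by rw [map_sub, ← hc]; abel), mul_zero]

theorem cf_mul {ι : A →+ Γ} (hι : Function.Injective ι) (g : Γ) (η : Γ → ℂ) (G : A → ℂ) :
    η g * cf ι g G = cf ι g ((fun c => η (ι c)) * G) := by
  by_cases hg : ∃ c, g = ι c
  · obtain ⟨c, rfl⟩ := hg
    simp only [cf_apply hι, Pi.mul_apply]
  · push Not at hg
    simp [cf_of_not hg]

namespace Fock

variable (F : Fock L Γ H)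

theorem norm_e (w : List (L × Γ)) (g : Γ) : ‖F.e w g‖ = 1 := by
  have hk : kw F.φ w w = 1 := by
    induction w with
    | nil => rfl
    | cons a w ih => simp [kw, ih, F.k1_self]
  have h : ⟪F.e w g, F.e w g⟫_ℂ = 1 := by simp only [F.inner_e]; simp [hk]
  have h2 : ‖F.e w g‖ ^ 2 = 1 := by
    rw [← inner_self_eq_norm_sq (𝕜 := ℂ), h]; simp
  exact (pow_eq_one_iff_of_nonneg (norm_nonneg _) two_ne_zero).mp h2

theorem inner_rho (w : List (L × Γ)) (g h : Γ) (x : H) :
    ⟪F.e w g, F.rho h x⟫_ℂ = ⟪F.e w (g + h), x⟫_ℂ := by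
  rw [← F.star_rho, inner_star_right, F.rho_e]

theorem inner_lam_nil (g h : Γ) (x : H) :
    ⟪F.e [] g, F.lam h x⟫_ℂ = ⟪F.e [] (h + g), x⟫_ℂ := by
  rw [← F.star_lam, inner_star_right, F.lam_e]; rfl

theorem inner_snoc (w : List (L × Γ)) (a : L × Γ) (g : Γ) (x : H) :
    ⟪F.e (w ++ [a]) g, x⟫_ℂ = ⟪F.e w g, star (F.r (a.1, g + a.2)) x⟫_ℂ := by
  rw [inner_star_right, F.r_e, F.add_self_left]

theorem inner_S_nil (a : L × Γ) (g : Γ) (x : H) :
    ⟪F.e [] g, F.S a x⟫_ℂ = ⟪F.e [] g, star (F.r (a.1, g + a.2)) x⟫_ℂ := by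
  rw [← F.star_S, inner_star_right, ← F.inner_snoc]
  simp [S, F.l_e, F.star_l_nil]

theorem mlt_vac {ι : A →+ Γ} (hι : Function.Injective ι) {x : H} {G : A → ℂ}
    (hx : ∀ g, ⟪F.e [] g, x⟫_ℂ = cf ι g G) (a b : L × Γ) :
    F.mlt a b x = ∑ c, (G c * k1 F.φ (a.1, ι c + a.2) b) • F.rho (ι c) F.Ω := by
  refine F.ext_vec fun w g => ?_
  rw [F.inner_mlt, hx, inner_sum]
  simp only [inner_smul_right, F.rho_Ω, F.inner_e]
  cases w with
  | cons d w => simp [kw]
  | nil =>
    rw [if_pos rfl, cf_mul hι g (fun g => (k1 F.φ (a.1, g + a.2) b : ℂ))]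
    change (∑ c, if g = ι c then _ else 0) = _
    refine Finset.sum_congr rfl fun c _ => ?_
    split_ifs <;> simp [kw, mul_comm]

theorem lemmaU {Bt : Type} [AddCommGroup Bt] [Fintype Bt] [DecidableEq Bt] {n : ℕ}
    (ι : A →+ Γ) (ι' : Bt →+ Γ) (hind : ∀ β a, ι' β = ι a → β = 0 ∧ a = 0)
    (d : Fin n → Bt → ℂ) (δ : Fin n → A → ℂ) (Sg : Finset L) (cc : Fin n → L → ℝ)
    (hcc : ∀ i σ, σ ∉ Sg → cc i σ = 0) (σ : Fin n → L) (hσn : ∀ i, F.IsNoise (σ i))
    {τ θ' D ρ θ : ℝ} (hτ : 0 < τ) (hσ : ∀ i i', cc i' (σ i) = if i' = i then τ else 0)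
    (hθ' : 0 ≤ θ') (hη : ∀ i i' β c, c ≠ 0 →
      |∑ s ∈ Sg, cc i s * cc i' s * F.φ s (ι' β + ι c)| ≤ θ')
    (hδ : ∀ i, nu (δ i) ≤ D) (hA : Fintype.card (Fin n × Bt) * D ≤ τ / 10)
    (hB : (Fintype.card (Fin n × Bt) : ℝ) ^ 2 * θ' ≤ τ ^ 2 / 10)
    (i0 : Fin n) (ζ : L) (hρ : 0 < ρ) (hζ : ∀ i', cc i' ζ = if i' = i0 then ρ else 0)
    (hζ0 : ∀ β, F.φ ζ (ι' β) = if β = 0 then 1 else 0) (hθ0 : 0 ≤ θ)
    (hζθ : ∀ β c, c ≠ 0 → |F.φ ζ (ι' β + ι c)| ≤ θ) (hθ : Fintype.card (Fin n × Bt) * θ ≤ 1)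
    (y : Fin n → H →L[ℂ] H)
    (hy : ∀ i, y i = ∑ β, d i β • F.lam (ι' β) +
      (∑ a, δ i a • F.lam (ι a) + ∑ s ∈ Sg, (cc i s : ℂ) • F.S (s, 0)))
    (c : List (Fin n) →₀ ℂ) :
    ‖⟪F.e [(σ i0, 0)] 0, c.sum fun w a => a • word y w F.Ω⟫_ℂ‖ ≤
      (τ / ρ + 1 / 16) * ‖c.sum fun w a => a • word y w F.Ω‖ := by
  have hι : Function.Injective ι := (injective_iff_map_eq_zero ι).mpr fun a ha =>
    (hind 0 a (by simp [ha])).2
  have hι' : Function.Injective ι' := (injective_iff_map_eq_zero ι').mpr fun b hb =>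
    (hind b 0 (by simp [hb])).1
  have twoA : ∀ a : A, a + a = 0 := fun a => hι (by simp [F.two])
  have twoB : ∀ a : Bt, a + a = 0 := fun a => hι' (by simp [F.two])
  have hcf : ∀ β c G, cf ι (ι' β + ι c) G = if β = 0 then G c else 0 := by
    intro β c G
    split_ifs with hβ
    · simp [hβ, cf_apply hι]
    · exact cf_of_not (fun a ha => hβ (hind β (a - c) (by rw [map_sub, ← ha]; abel)).1) G
  let X : Fin n × Bt → H →L[ℂ] H := fun ℓ =>
    ∑ a, δ ℓ.1 a • F.lam (ι a) + ∑ s ∈ Sg, (cc ℓ.1 s : ℂ) • F.S (s, ι' ℓ.2)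
  let ηt : Fin n × Bt → Fin n × Bt → Γ → ℂ := fun ℓ ℓ' g =>
    ((∑ s ∈ Sg, cc ℓ.1 s * cc ℓ'.1 s * F.φ s (ι' (ℓ.2 + ℓ'.2) + g) : ℝ) : ℂ)
  obtain ⟨G, κ, hG0, hGne, hGs, hGb⟩ := exists_vacuum twoA (fun ℓ : Fin n × Bt => δ ℓ.1)
    (fun ℓ ℓ' c => ηt ℓ ℓ' (ι c)) hτ (fun ℓ => hδ ℓ.1) hθ'
    (fun ℓ ℓ' c hc => by
      simp only [ηt, Complex.norm_real, Real.norm_eq_abs]; exact hη _ _ _ c hc) hA hB
  obtain ⟨W, hW0, hWs⟩ := exists_appell X κ
  have hD : ∀ (a0 : L × Γ) ℓ, star (F.r a0) * X ℓ - X ℓ * star (F.r a0) =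
      (cc ℓ.1 a0.1 : ℂ) • F.mlt a0 (a0.1, ι' ℓ.2) := by
    intro a0 ℓ
    simp only [X, mul_add, add_mul, Finset.mul_sum, Finset.sum_mul, mul_smul_comm, smul_mul_assoc,
      (F.lam_star_r _ a0).eq, F.star_r_mul_S, smul_add, Finset.sum_add_distrib]
    have : ∑ s ∈ Sg, (cc ℓ.1 s : ℂ) • F.mlt a0 (s, ι' ℓ.2) =
        (cc ℓ.1 a0.1 : ℂ) • F.mlt a0 (a0.1, ι' ℓ.2) := by
      refine Finset.sum_eq_single _ (fun s _ hs => ?_) fun h => by simp [hcc _ _ h]
      rw [F.mlt_eq_zero (Ne.symm hs), smul_zero]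
    rw [this]
    abel
  have hXρ : ∀ ℓ g, Commute (X ℓ) (F.rho g) := fun ℓ g =>
    (Commute.sum_left _ _ _ fun a _ => (F.lam_rho _ g).smul_left _).add_left
      (Commute.sum_left _ _ _ fun a _ => (F.S_rho _ g).smul_left _)
  have hWρ : ∀ u g, Commute (W u) (F.rho g) := by
    intro u g
    induction hm : u.length using Nat.strong_induction_on generalizing u with
    | _ m ih =>
      cases u with
      | nil => rw [hW0]; exact Commute.one_left _
      | cons ℓ u =>
        simp only [List.length_cons] at hm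
        rw [hWs]
        refine ((hXρ ℓ g).mul_left (ih _ (by omega) u rfl)).sub_left ?_
        exact S2_induction (fun T => Commute T (F.rho g)) (fun _ _ => Commute.add_left)
          fun p r hpr => (ih r.length (by simp [← hm, ← hpr]) r rfl).smul_left _
  have hDW : ∀ u : List (Fin n × Bt),
      (∀ b : List (Fin n × Bt), b.length < u.length →
        ∀ g, ⟪F.e [] g, W b F.Ω⟫_ℂ = cf ι g (G b)) →
      ∀ w g (a0 : L × Γ), ⟪F.e w g, star (F.r a0) (W u F.Ω)⟫_ℂ =
        S3 (fun a ℓ b => ∑ c, (cc ℓ.1 a0.1 : ℂ) * F.φ a0.1 (ι c + a0.2 + ι' ℓ.2) * G b c *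
          ⟪F.e w (g + ι c), W a F.Ω⟫_ℂ) u := by
    intro u hu w g a0
    have h1 := congrArg (fun T : H →L[ℂ] H => ⟪F.e w g, T F.Ω⟫_ℂ)
      (appell_deriv hW0 hWs (star (F.r a0)) u)
    simp only [sub_apply, mul_apply_eq_comp, F.star_r_Ω, map_zero,
      sub_zero] at h1
    rw [h1]
    let Φ : (H →L[ℂ] H) →L[ℂ] ℂ := (innerSL ℂ (F.e w g)).comp (ContinuousLinearMap.apply ℂ H F.Ω)
    have h2 := map_S3 Φ (fun a ℓ b => W a * (star (F.r a0) * X ℓ - X ℓ * star (F.r a0)) * W b) u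
    refine h2.trans (S3_congr fun a ℓ b hab => ?_)
    change ⟪F.e w g, (W a * (star (F.r a0) * X ℓ - X ℓ * star (F.r a0)) * W b) F.Ω⟫_ℂ = _
    rw [hD]
    simp only [mul_apply_eq_comp, smul_apply]
    rw [F.mlt_vac hι (hu b (by simp [← hab]; omega))]
    simp only [map_smul, map_sum, inner_smul_right, inner_sum, Finset.mul_sum]
    refine Finset.sum_congr rfl fun c _ => ?_
    rw [← mul_apply_eq_comp, (hWρ a _).eq, mul_apply_eq_comp, F.inner_rho]
    simp only [k1, if_true]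
    ring
  have hVac : ∀ u g, ⟪F.e [] g, W u F.Ω⟫_ℂ = cf ι g (G u) := by
    intro u
    induction hm : u.length using Nat.strong_induction_on generalizing u with
    | _ m ih =>
      intro g
      cases u with
      | nil =>
        rw [hW0, hG0]
        change ⟪F.e [] g, F.e [] 0⟫_ℂ = ∑ a, if g = ι a then _ else 0
        rw [F.inner_e, Finset.sum_eq_single 0]
        · simp [kw]
        · intro a _ ha; simp [ha]
        · simp
      | cons ℓ u =>
        simp only [List.length_cons] at hm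
        have ih' : ∀ b : List (Fin n × Bt), b.length ≤ u.length →
            ∀ g, ⟪F.e [] g, W b F.Ω⟫_ℂ = cf ι g (G b) := fun b hb => ih _ (by omega) b rfl
        let Φ : (H →L[ℂ] H) →L[ℂ] ℂ :=
          (innerSL ℂ (F.e [] g)).comp (ContinuousLinearMap.apply ℂ H F.Ω)
        have e3 : ⟪F.e [] g, (S2 (fun p r => κ (ℓ :: p) • W r) u) F.Ω⟫_ℂ =
            cf ι g (S2 (fun p r => κ (ℓ :: p) • G r) u) := by
          rw [map_S2]
          refine (map_S2 Φ (fun p r => κ (ℓ :: p) • W r) u).trans (S2_congr fun p r hpr => ?_)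
          rw [map_smul, map_smul, ← ih' r (by simp [← hpr])]
          rfl
        have e1 : ⟪F.e [] g, (∑ a, δ ℓ.1 a • F.lam (ι a)) (W u F.Ω)⟫_ℂ =
            cf ι g (conv (δ ℓ.1) (G u)) := by
          simp only [sum_apply, smul_apply, inner_sum,
            inner_smul_right, F.inner_lam_nil, ih' u le_rfl, cf_conv hι]
        have e2 : ⟪F.e [] g, (∑ s ∈ Sg, (cc ℓ.1 s : ℂ) • F.S (s, ι' ℓ.2)) (W u F.Ω)⟫_ℂ =
            cf ι g (S3 (fun a ℓ' b => conv (G b) ((fun c => ηt ℓ ℓ' (ι c)) * G a)) u) := by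
          simp only [sum_apply, smul_apply, inner_sum,
            inner_smul_right, F.inner_S_nil, hDW u fun b hb => ih' b hb.le]
          rw [map_S3]
          have : ∀ (z : ℂ) (Fn : List (Fin n × Bt) → Fin n × Bt → List (Fin n × Bt) → ℂ),
              z * S3 Fn u = S3 (fun a ℓ b => z * Fn a ℓ b) u :=
            fun z Fn => map_S3 (AddMonoidHom.mulLeft z) Fn u
          simp only [this]
          rw [← S3_sum]
          refine S3_congr fun a ℓ' b hab => ?_
          rw [← cf_conv hι]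
          simp only [← cf_mul hι _ (ηt ℓ ℓ')]
          simp only [ih' a (by simp [← hab]), Finset.mul_sum, ηt, Complex.ofReal_sum,
            Finset.sum_mul]
          rw [Finset.sum_comm]
          refine Finset.sum_congr rfl fun c _ => Finset.sum_congr rfl fun s _ => ?_
          rw [add_comm g (ι c), show ι' (ℓ.2 + ℓ'.2) + (ι c + g) = ι c + (g + ι' ℓ.2) + ι' ℓ'.2 by
            rw [map_add]; abel]
          push_cast
          ring
        rw [hWs, hGs, map_sub, map_add, ← e1, ← e2, ← e3]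
        simp [X]
  have hDW' := fun u => hDW u fun b _ => hVac b
  have hGβ : ∀ β (u : List (Fin n × Bt)), cf ι (ι' β) (G u) = if β = 0 ∧ u = [] then 1 else 0 := by
    intro β u
    have := hcf β 0 (G u)
    rw [map_zero, add_zero] at this
    rw [this]
    by_cases hu : u = []
    · simp [hu, hG0]
    · simp [hu, hGne u hu]
  have hbi : ∀ (u' : List (Fin n × Bt)) β u,
      ⟪F.e (u'.map fun ℓ => (σ ℓ.1, ι' ℓ.2)) (ι' β), W u F.Ω⟫_ℂ =
        if β = 0 ∧ u = u' then (τ : ℂ) ^ u'.length else 0 := by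
    intro u'
    induction u' using List.reverseRecOn with
    | nil => intro β u; simp [hVac, hGβ]
    | append_singleton u' ℓ ih =>
      intro β u
      rw [List.map_append, List.map_singleton, F.inner_snoc, hDW']
      have hterm : ∀ a ℓ' b, (∑ c, (cc ℓ'.1 (σ ℓ.1) : ℂ) *
          F.φ (σ ℓ.1) (ι c + (ι' β + ι' ℓ.2) + ι' ℓ'.2) * G b c *
          ⟪F.e (u'.map fun ℓ => (σ ℓ.1, ι' ℓ.2)) (ι' β + ι c), W a F.Ω⟫_ℂ) =
          if b = [] ∧ ℓ' = ℓ ∧ β = 0 ∧ a = u' then (τ : ℂ) ^ (u'.length + 1) else 0 := by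
        intro a ℓ' b
        rw [Finset.sum_eq_single 0]
        · rw [map_zero, add_zero, zero_add, ih, hσ, hσn, ← map_add, ← map_add]
          simp only [map_eq_zero_iff ι' hι']
          by_cases hβ : β = 0
          · subst hβ
            have h2 : ℓ.2 + ℓ'.2 = 0 ↔ ℓ'.2 = ℓ.2 := by
              constructor
              · intro h
                have := congrArg (ℓ.2 + ·) h
                simpa [← add_assoc, twoB] using this
              · intro h; rw [h, twoB]
            simp only [zero_add, h2, Prod.ext_iff]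
            by_cases hb : b = []
            · subst hb
              by_cases h1 : ℓ'.1 = ℓ.1 <;> by_cases h2 : ℓ'.2 = ℓ.2 <;> by_cases h3 : a = u' <;>
                simp [h1, h2, h3, hG0, pow_succ']
            · simp [hb, hGne b hb]
          · simp [hβ]
        · intro c _ hc
          rw [hσn, if_neg]
          · simp
          · intro h
            refine hc (hind (β + ℓ.2 + ℓ'.2) c ?_).2
            rw [← F.add_eq_zero_iff, ← h, map_add, map_add]
            abel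
        · simp
      simp only [hterm]
      rcases List.eq_nil_or_concat' u with rfl | ⟨u, m, rfl⟩
      · simp [S3]
      · rw [S3_last fun a ℓ b hb => by simp [hb]]
        simp only [List.append_singleton_inj, List.length_append, List.length_singleton, true_and]
        congr 1
        exact propext ⟨fun h => ⟨h.2.1, h.2.2, h.1⟩, fun h => ⟨h.2.2, h.1, h.2.1⟩⟩
  let wt : List (Fin n × Bt) → ℝ := fun u => if u = [] then 0 else nu (G u) / τ ^ u.length
  have hwt0 : ∀ u, 0 ≤ wt u := fun u => by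
    simp only [wt]; split_ifs
    · exact le_rfl
    · exact div_nonneg (nu_nonneg _) (by positivity)
  have htest : ∀ β u, ‖⟪F.e [(ζ, 0)] (ι' β), W u F.Ω⟫_ℂ -
      (if β = 0 ∧ u = [(i0, 0)] then (ρ : ℂ) else 0)‖ ≤
      if β = 0 then τ ^ u.length * (ρ * θ / τ * S3 (fun a _ b => wt a * wt b) u) else 0 := by
    intro β u
    have := F.inner_snoc [] (ζ, 0) (ι' β) (W u F.Ω)
    rw [List.nil_append] at this
    rw [this, hDW']
    simp only [hVac, hcf, add_zero]
    by_cases hβ : β = 0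
    · subst hβ
      simp only [if_true, true_and, map_zero, add_zero]
      have hmain : S3 (fun a ℓ b => (cc ℓ.1 ζ : ℂ) * F.φ ζ (ι' ℓ.2) * G b 0 * G a 0) u =
          if u = [(i0, 0)] then (ρ : ℂ) else 0 := by
        rcases List.eq_nil_or_concat' u with rfl | ⟨u, m, rfl⟩
        · simp [S3]
        · rw [S3_last fun a ℓ b hb => by simp [hGne b hb], hζ, hζ0]
          by_cases hu : u = []
          · subst hu
            by_cases h1 : m.1 = i0 <;> by_cases h2 : m.2 = 0 <;>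
              simp [h1, h2, hG0, Prod.ext_iff]
          · have : u ++ [m] ≠ [(i0, 0)] := fun h => hu (List.append_singleton_inj.mp
              (show u ++ [m] = [] ++ [(i0, 0)] from h)).1
            simp [hGne u hu, this]
      have hsplit : S3 (fun a ℓ b => ∑ c, (cc ℓ.1 ζ : ℂ) * F.φ ζ (ι c + ι' ℓ.2) * G b c * G a c) u =
          S3 (fun a ℓ b => (cc ℓ.1 ζ : ℂ) * F.φ ζ (ι' ℓ.2) * G b 0 * G a 0) u +
          S3 (fun a ℓ b => ∑ c ∈ Finset.univ.erase 0,
            (cc ℓ.1 ζ : ℂ) * F.φ ζ (ι c + ι' ℓ.2) * G b c * G a c) u := by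
        rw [← S3_add]
        refine S3_congr fun a ℓ b _ => ?_
        rw [← Finset.add_sum_erase _ _ (Finset.mem_univ (0 : A))]
        simp
      rw [hsplit, hmain, add_sub_cancel_left]
      refine (le_S3 (fun z : ℂ => ‖z‖) (by simp) norm_add_le _ u).trans ?_
      rw [← mul_assoc, mul_S3]
      refine S3_mono fun a ℓ b hab => ?_
      by_cases ha : a = []
      · subst ha
        rw [Finset.sum_eq_zero fun c hc => by simp [hG0, Finset.ne_of_mem_erase hc]]
        simp [wt]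
      by_cases hb : b = []
      · subst hb
        rw [Finset.sum_eq_zero fun c hc => by simp [hG0, Finset.ne_of_mem_erase hc]]
        simp [wt]
      have hc1 : |cc ℓ.1 ζ| ≤ ρ := by
        rw [hζ]; split_ifs
        · exact (abs_of_pos hρ).le
        · simpa using hρ.le
      calc ‖∑ c ∈ Finset.univ.erase 0, (cc ℓ.1 ζ : ℂ) * F.φ ζ (ι c + ι' ℓ.2) * G b c * G a c‖
          ≤ ∑ c ∈ Finset.univ.erase 0, ρ * θ * nu (G b) * ‖G a c‖ := by
            refine (norm_sum_le _ _).trans (Finset.sum_le_sum fun c hc => ?_)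
            simp only [norm_mul, Complex.norm_real, Real.norm_eq_abs]
            have h1 := hζθ ℓ.2 c (Finset.ne_of_mem_erase hc)
            rw [add_comm] at h1
            have h2 := norm_le_nu (G b) c
            gcongr
        _ ≤ ∑ c, ρ * θ * nu (G b) * ‖G a c‖ :=
            Finset.sum_le_sum_of_subset_of_nonneg (Finset.erase_subset _ _) fun c _ _ => by
              have := nu_nonneg (G b)
              positivity
        _ = _ := by
            rw [← Finset.mul_sum]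
            simp only [wt, if_neg ha, if_neg hb, ← hab, List.length_append, List.length_cons]
            change ρ * θ * nu (G b) * nu (G a) = _
            field_simp
            ring
    · simp [hβ, S3_zero]
  let vec : List (Fin n × Bt) × Bt → H := fun p => F.rho (ι' p.2) (W p.1 F.Ω)
  let 𝒮 : Submodule ℂ H := Submodule.span ℂ (Set.range vec)
  have hX𝒮 : ∀ ℓ, ∀ x ∈ 𝒮, X ℓ x ∈ 𝒮 := by
    intro ℓ x hx
    have : 𝒮 ≤ 𝒮.comap (X ℓ : H →ₗ[ℂ] H) := by
      refine Submodule.span_le.mpr ?_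
      rintro _ ⟨⟨u, β⟩, rfl⟩
      change X ℓ (F.rho (ι' β) (W u F.Ω)) ∈ 𝒮
      have e : X ℓ * W u = W (ℓ :: u) + S2 (fun p r => κ (ℓ :: p) • W r) u := by
        rw [hWs]; abel
      rw [← mul_apply_eq_comp, (hXρ ℓ _).eq, mul_apply_eq_comp, ← mul_apply_eq_comp (X ℓ), e,
        add_apply, map_add]
      refine 𝒮.add_mem (Submodule.subset_span ⟨(ℓ :: u, β), rfl⟩) ?_
      refine S2_induction (fun T : H →L[ℂ] H => F.rho (ι' β) (T F.Ω) ∈ 𝒮) (fun S T hS hT => ?_)
        fun p r _ => ?_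
      · rw [add_apply, map_add]; exact 𝒮.add_mem hS hT
      · rw [smul_apply, map_smul]
        exact 𝒮.smul_mem _ (Submodule.subset_span ⟨(r, β), rfl⟩)
    exact this hx
  have hlamX : ∀ β ℓ, F.lam (ι' β) * X ℓ = X (ℓ.1, β + ℓ.2) * F.lam (ι' β) := by
    intro β ℓ
    simp only [X, mul_add, add_mul, Finset.mul_sum, Finset.sum_mul, mul_smul_comm, smul_mul_assoc,
      F.lam_mul_S, F.lam_mul, map_add, add_comm (ι' β)]
  have hword : ∀ w β, F.lam (ι' β) (word y w F.Ω) ∈ 𝒮 := by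
    intro w
    induction w with
    | nil =>
      intro β
      refine Submodule.subset_span ⟨([], β), ?_⟩
      simp [vec, word, hW0, F.lam_Ω, F.rho_Ω]
    | cons i w ih =>
      intro β
      have e : word y (i :: w) = y i * word y w := by simp [word]
      have e' : y i = ∑ β, d i β • F.lam (ι' β) + X (i, 0) := by simp [hy, X]
      rw [e, mul_apply_eq_comp, e', add_apply, map_add]
      refine 𝒮.add_mem ?_ ?_
      · simp only [sum_apply, smul_apply, map_sum, map_smul]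
        refine 𝒮.sum_mem fun β' _ => 𝒮.smul_mem _ ?_
        rw [← mul_apply_eq_comp, F.lam_mul, ← map_add]
        exact ih _
      · rw [← mul_apply_eq_comp, hlamX, mul_apply_eq_comp]
        exact hX𝒮 _ _ (ih _)
  have hξ : (c.sum fun w a => a • word y w F.Ω) ∈ 𝒮 := by
    refine 𝒮.sum_mem fun w _ => 𝒮.smul_mem _ ?_
    have := hword w 0
    rwa [map_zero, F.lam_zero] at this
  generalize (c.sum fun w a => a • word y w F.Ω) = ξ at hξ ⊢
  obtain ⟨f, hf⟩ := Finsupp.mem_span_range_iff_exists_finsupp.mp hξ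
  have hcoef : ∀ u', ⟪F.e (u'.map fun ℓ => (σ ℓ.1, ι' ℓ.2)) 0, ξ⟫_ℂ =
      f (u', 0) * (τ : ℂ) ^ u'.length := by
    intro u'
    rw [← hf, Finsupp.sum, inner_sum]
    simp only [inner_smul_right, vec, F.inner_rho, zero_add, hbi]
    rw [Finset.sum_eq_single (u', 0)]
    · simp
    · rintro ⟨u, β⟩ _ hne
      rw [if_neg, mul_zero]
      rintro ⟨h1, h2⟩
      exact hne (Prod.ext h2 h1)
    · intro h
      simp [Finsupp.notMem_support_iff.mp h]
  have hcb : ∀ u', ‖f (u', 0)‖ * τ ^ u'.length ≤ ‖ξ‖ := by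
    intro u'
    have h1 := norm_inner_le_norm (𝕜 := ℂ) (F.e (u'.map fun ℓ => (σ ℓ.1, ι' ℓ.2)) 0) ξ
    rw [hcoef, F.norm_e, one_mul, norm_mul, norm_pow, Complex.norm_real,
      Real.norm_of_nonneg hτ.le] at h1
    exact h1
  have hSsum : ∀ s : Finset (List (Fin n × Bt)),
      θ * ∑ u ∈ s, S3 (fun a _ b => wt a * wt b) u ≤ 1 / 16 := by
    intro s
    obtain ⟨M, hM⟩ := sum_le_sum_words s (S3 fun a _ b => wt a * wt b)
      (S3_nonneg fun a _ b => mul_nonneg (hwt0 a) (hwt0 b))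
    have h1 : ∑ m ∈ Finset.range M, ∑ u ∈ words m, S3 (fun a _ b => wt a * wt b) u ≤
        ∑ m ∈ Finset.range (M + 1), ∑ u ∈ words m, S3 (fun a _ b => wt a * wt b) u :=
      Finset.sum_le_sum_of_subset_of_nonneg (Finset.range_subset_range.mpr (Nat.le_succ M))
        fun m _ _ => Finset.sum_nonneg fun u _ =>
          S3_nonneg (fun a _ b => mul_nonneg (hwt0 a) (hwt0 b)) u
    rw [Finset.sum_range_succ'] at h1
    simp only [sum_words_S3, ← Finset.mul_sum] at h1
    have h0 : ∀ m, 0 ≤ ∑ u ∈ words m, wt u := fun m => Finset.sum_nonneg fun u _ => hwt0 u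
    have h2 := sum_antidiagonal_le _ _ h0 h0 M
    have h3 : ∑ m ∈ Finset.range M, ∑ u ∈ words m, wt u ≤ 1 / 4 := hGb M
    have h4 : 0 ≤ ∑ m ∈ Finset.range M, ∑ u ∈ words m, wt u := Finset.sum_nonneg fun m _ => h0 m
    have h5 : ∑ u ∈ words 0, S3 (fun a _ b => wt a * wt b) u = 0 := by simp [words, S3]
    rw [h5, add_zero] at h1
    have h6 := h2.trans (mul_le_mul h3 h3 h4 (by norm_num))
    have h7 : (0 : ℝ) ≤ Fintype.card (Fin n × Bt) := by positivity
    calc _ ≤ θ * (Fintype.card (Fin n × Bt) * (1 / 4 * (1 / 4))) := by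
          refine mul_le_mul_of_nonneg_left (hM.trans (h1.trans ?_)) hθ0
          exact mul_le_mul_of_nonneg_left h6 h7
      _ ≤ 1 / 16 := by nlinarith
  have herr : ‖⟪F.e [(ζ, 0)] 0, ξ⟫_ℂ - f ([(i0, 0)], 0) * ρ‖ ≤ ρ / τ / 16 * ‖ξ‖ := by
    have e1 : f ([(i0, 0)], 0) * ρ =
        ∑ p ∈ f.support, f p * (if p.2 = 0 ∧ p.1 = [(i0, 0)] then (ρ : ℂ) else 0) := by
      rw [Finset.sum_eq_single ([(i0, 0)], 0)]
      · simp
      · rintro ⟨u, β⟩ _ hne
        rw [if_neg, mul_zero]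
        rintro ⟨h1, h2⟩
        exact hne (Prod.ext h2 h1)
      · intro h
        simp [Finsupp.notMem_support_iff.mp h]
    have e2 : ⟪F.e [(ζ, 0)] 0, ξ⟫_ℂ =
        ∑ p ∈ f.support, f p * ⟪F.e [(ζ, 0)] (ι' p.2), W p.1 F.Ω⟫_ℂ := by
      rw [← hf, Finsupp.sum, inner_sum]
      simp only [inner_smul_right, vec, F.inner_rho, zero_add]
    rw [e1, e2, ← Finset.sum_sub_distrib]
    have e3 : ∀ p ∈ f.support, ‖f p * ⟪F.e [(ζ, 0)] (ι' p.2), W p.1 F.Ω⟫_ℂ -
        f p * (if p.2 = 0 ∧ p.1 = [(i0, 0)] then (ρ : ℂ) else 0)‖ ≤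
        if p.2 = 0 then ρ / τ * ‖ξ‖ * (θ * S3 (fun a _ b => wt a * wt b) p.1) else 0 := by
      rintro ⟨u, β⟩ _
      rw [← mul_sub, norm_mul]
      refine (mul_le_mul_of_nonneg_left (htest β u) (norm_nonneg _)).trans ?_
      by_cases hβ : β = 0
      · subst hβ
        simp only [if_true]
        have h0 := S3_nonneg (F := fun a _ b => wt a * wt b)
          (fun a _ b => mul_nonneg (hwt0 a) (hwt0 b)) u
        rw [← mul_assoc]
        refine (mul_le_mul_of_nonneg_right (hcb u) (by positivity)).trans (le_of_eq ?_)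
        ring
      · simp [hβ]
    refine (norm_sum_le _ _).trans ((Finset.sum_le_sum e3).trans ?_)
    rw [← Finset.sum_filter, ← Finset.mul_sum, ← Finset.mul_sum,
      ← Finset.sum_image (s := f.support.filter fun p => p.2 = 0) (g := Prod.fst)
        (f := S3 fun a _ b => wt a * wt b) fun p hp q hq h => Prod.ext h
          ((Finset.mem_filter.mp hp).2.trans (Finset.mem_filter.mp hq).2.symm)]
    refine (mul_le_mul_of_nonneg_left (hSsum _) (by positivity)).trans (le_of_eq ?_)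
    ring
  have h1 := hcoef [(i0, 0)]
  simp only [List.map_cons, List.map_nil, map_zero, List.length_singleton, pow_one] at h1
  have h2 := norm_inner_le_norm (𝕜 := ℂ) (F.e [(ζ, 0)] 0) ξ
  rw [F.norm_e, one_mul] at h2
  have h3 : ‖f ([(i0, 0)], 0)‖ * ρ ≤ ‖ξ‖ + ρ / τ / 16 * ‖ξ‖ := by
    have := norm_sub_norm_le (f ([(i0, 0)], 0) * ρ) ⟪F.e [(ζ, 0)] 0, ξ⟫_ℂ
    rw [norm_sub_rev, norm_mul, Complex.norm_real, Real.norm_of_nonneg hρ.le] at this
    linarith
  rw [h1, norm_mul, Complex.norm_real, Real.norm_of_nonneg hτ.le]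
  calc ‖f ([(i0, 0)], 0)‖ * τ = ‖f ([(i0, 0)], 0)‖ * ρ * (τ / ρ) := by field_simp
    _ ≤ (‖ξ‖ + ρ / τ / 16 * ‖ξ‖) * (τ / ρ) := by gcongr
    _ = _ := by field_simp

end Fock

end Pool.Agent.MP_ce43bb_an.H78
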