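import Pool.Agent.MP_ce43bb_an.H78.Model
import Pool.Agent.MP_ce43bb_an.H78.Upper
import Pool.Agent.MP_ce43bb_an.H42.Conj

/-! The windows on which `t Φ*` is small. -/

set_option linter.unusedSectionVars false

open scoped InnerProductSpace
open Filter Topology

noncomputable section

namespace Pool.Agent.MP_ce43bb_an.H78

variable {V : ℕ → Type} [∀ j, AddCommGroup (V j)] [∀ j, Fintype (V j)] [∀ j, DecidableEq (V j)]
  {H : Type} [NormedAddCommGroup H] [InnerProductSpace ℂ H] [CompleteSpace H]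

/-- Finite combinations with a bound on the `ℓ¹` norm of the coefficients. -/
def Rep {A : Type} [Fintype A] (Λ : A → H →L[ℂ] H) (c : ℝ) (T : H →L[ℂ] H) : Prop :=
  ∃ δ : A → ℂ, nu δ ≤ c ∧ T = ∑ a, δ a • Λ a

section
variable {A : Type} [Fintype A] [DecidableEq A] {Λ : A → H →L[ℂ] H}

theorem Rep.mono {c c' : ℝ} {T : H →L[ℂ] H} (h : Rep Λ c T) (hc : c ≤ c') : Rep Λ c' T :=
  let ⟨δ, h1, h2⟩ := h
  ⟨δ, h1.trans hc, h2⟩

theorem Rep.zero : Rep Λ 0 0 := ⟨0, by simp [nu], by simp⟩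

theorem Rep.add {c c' : ℝ} {T T' : H →L[ℂ] H} (h : Rep Λ c T) (h' : Rep Λ c' T') :
    Rep Λ (c + c') (T + T') := by
  obtain ⟨δ, h1, rfl⟩ := h
  obtain ⟨δ', h1', rfl⟩ := h'
  exact ⟨δ + δ', (nu_add _ _).trans (add_le_add h1 h1'), by
    simp [add_smul, Finset.sum_add_distrib]⟩

theorem Rep.smul {c : ℝ} {T : H →L[ℂ] H} (h : Rep Λ c T) (z : ℂ) : Rep Λ (‖z‖ * c) (z • T) := by
  obtain ⟨δ, h1, rfl⟩ := h
  refine ⟨z • δ, ?_, by simp [Finset.smul_sum, smul_smul]⟩
  have : nu (z • δ) = ‖z‖ * nu δ := by simp [nu, Finset.mul_sum]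
  rw [this]
  exact mul_le_mul_of_nonneg_left h1 (norm_nonneg _)

theorem Rep.sum {κ : Type} (s : Finset κ) {c : κ → ℝ} {T : κ → H →L[ℂ] H}
    (h : ∀ k ∈ s, Rep Λ (c k) (T k)) : Rep Λ (∑ k ∈ s, c k) (∑ k ∈ s, T k) := by
  classical
  induction s using Finset.induction_on with
  | empty => simpa using Rep.zero
  | insert k s hk ih =>
    rw [Finset.sum_insert hk, Finset.sum_insert hk]
    exact (h k (by simp)).add (ih fun k' hk' => h k' (by simp [hk']))

theorem Rep.single (a : A) : Rep Λ 1 (Λ a) := by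
  refine ⟨Pi.single a 1, ?_, ?_⟩
  · rw [nu, Finset.sum_eq_single a] <;> simp +contextual
  · rw [Finset.sum_eq_single a] <;> simp +contextual

end

/-- The subgroup of the levels in `T`. -/
abbrev GT (V : ℕ → Type) (T : Finset ℕ) : Type := ∀ i : (T : Set ℕ), V i

/-- Its inclusion. -/
def io (T : Finset ℕ) : GT V T →+ Π₀ j, V j := DFinsupp.mkAddGroupHom T

theorem io_mem {T : Finset ℕ} (a : GT V T) {l : ℕ} (h : l ∈ T) : io T a l = a ⟨l, h⟩ :=
  DFinsupp.mk_of_mem h

theorem io_not {T : Finset ℕ} (a : GT V T) {l : ℕ} (h : l ∉ T) : io T a l = 0 :=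
  DFinsupp.mk_of_notMem h

theorem io_single {T : Finset ℕ} {j : ℕ} (h : j ∈ T) (γ : V j) :
    io T (Pi.single (M := fun i : (T : Set ℕ) => V i) ⟨j, h⟩ γ) = DFinsupp.single j γ := by
  refine DFinsupp.ext fun l => ?_
  by_cases hl : l = j
  · subst hl
    rw [io_mem _ h]
    simp
  · rw [DFinsupp.single_eq_of_ne hl]
    by_cases hT : l ∈ T
    · rw [io_mem _ hT, Pi.single_eq_of_ne (fun e => hl (congrArg Subtype.val e))]
    · exact io_not _ hT

theorem exists_io_ne {T : Finset ℕ} {a : GT V T} (ha : a ≠ 0) : ∃ l ∈ T, io T a l ≠ 0 := by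
  obtain ⟨⟨l, hl⟩, h⟩ := Function.ne_iff.mp ha
  exact ⟨l, hl, by rwa [io_mem _ hl]⟩

theorem tendsto_word {n : ℕ} {yJ : ℕ → Fin n → H →L[ℂ] H} {y : Fin n → H →L[ℂ] H}
    (h : ∀ i, Tendsto (fun J => yJ J i) atTop (𝓝 (y i))) (w : List (Fin n)) :
    Tendsto (fun J => word (yJ J) w) atTop (𝓝 (word y w)) := by
  induction w with
  | nil => simp [word]
  | cons i w ih => simpa [word] using (h i).mul ih

namespace Data

variable (D : Data V)

theorem rep_y (s : Side (Π₀ j, V j) H) {T : Finset ℕ} {j : ℕ} (h : j ∈ T) :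
    Rep (fun a => s.Λ (io T a)) (D.U j ^ 16) (D.y s j) := by
  have hq : (0 : ℝ) < Fintype.card (V j) := by exact_mod_cast Fintype.card_pos
  have hp : ∀ a, Rep (fun a => s.Λ (io T a)) 1 (D.p s j a) := by
    intro a
    refine ((Rep.sum Finset.univ (c := fun γ => ‖(D.χ j γ a : ℂ)‖ * 1) fun γ _ => ?_).smul _).mono
      (le_of_eq ?_)
    · rw [← io_single h]
      exact (Rep.single _).smul _
    · simp [D.abs_χ, hq.ne']
  refine (Rep.sum Finset.univ fun a _ => (hp a).smul _).mono ((Finset.sum_le_sum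
    (g := fun _ => D.U j ^ 8) fun a _ => ?_).trans (le_of_eq ?_))
  · rw [mul_one, Complex.norm_natCast, ← D.card_eq]
    exact_mod_cast (en_lt j a).le
  · rw [Finset.sum_const, Finset.card_univ, nsmul_eq_mul, D.card_eq]; ring

theorem rep_terms (s : Side (Π₀ j, V j) H) (T : Finset ℕ) (i : Fin 65) :
    Rep (fun a => s.Λ (io T a)) (∑ j ∈ T, (D.U j ^ 16)⁻¹)
      (if i = 0 then ∑ j ∈ T, D.term s 0 j else 0) := by
  split_ifs
  · refine Rep.sum T fun j hj => ?_
    have := (D.rep_y s hj).smul (D.eps j)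
    rw [Complex.norm_real, Real.norm_of_nonneg (D.eps_pos j).le, D.eps_mul] at this
    simpa [term] using this
  · exact Rep.zero.mono (Finset.sum_nonneg fun j _ => (inv_pos.mpr (pow_pos (D.U_pos j) _)).le)

theorem card_GT (k : ℕ) :
    (Fintype.card (Fin 65 × GT V (Finset.range (k + 1))) : ℝ) ≤ D.U k ^ 17 := by
  have h1 : ∀ k, ∏ l ∈ Finset.range (k + 1), D.U l ^ 8 ≤ D.U k ^ 16 := by
    intro k
    induction k with
    | zero => simpa using D.U_pow_le 0 (by norm_num)
    | succ k ih =>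
      rw [Finset.prod_range_succ, show D.U (k + 1) ^ 16 = D.U (k + 1) ^ 8 * D.U (k + 1) ^ 8 by ring]
      refine mul_le_mul_of_nonneg_right (ih.trans ?_) (pow_pos (D.U_pos _) _).le
      rw [D.U_succ_pow]
      exact D.U_pow_le k (by norm_num)
  have h2 : (Fintype.card (GT V (Finset.range (k + 1))) : ℝ) =
      ∏ l ∈ Finset.range (k + 1), D.U l ^ 8 := by
    rw [Fintype.card_pi]
    push_cast
    simp only [D.card_eq]
    exact Finset.prod_coe_sort (Finset.range (k + 1)) fun l => D.U l ^ 8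
  rw [Fintype.card_prod, Fintype.card_fin]
  push_cast
  rw [h2]
  have := D.mul_U_pow_le k (show 16 < 17 by norm_num)
  have := pow_pos (D.U_pos k) 16
  linarith [h1 k]

theorem isNoise (F : Fock Let (Π₀ j, V j) H) (hF : F.φ = D.phi) (i : Fin 65 ⊕ Fin 65) :
    F.IsNoise (.inr i) := fun g => by
  rw [hF]
  by_cases h : g = 0 <;> simp [phi, h]

theorem low_one (F : Fock Let (Π₀ j, V j) H) (hF : F.φ = D.phi) (k : ℕ) {τ : ℝ}
    (h1 : (D.U (k + 1))⁻¹ ≤ τ) (h2 : τ ≤ D.rh k / 16) (i0 : Fin 65) (hi : i0 ≠ 0) :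
    ‖proj F.Ω (pert (D.x F.left) (fun i => F.S (.inr (.inl i), 0)) (τ ^ 2))
      (F.e [(.inr (.inl i0), 0)] 0)‖ ≤ 1 / 8 := by
  have hW := D.U_pos (k + 1)
  have hW1 := D.U_one (k + 1)
  have hw := D.U_pos k
  have hτ : 0 < τ := (inv_pos.mpr hW).trans_le h1
  have hρ := D.rh_pos k
  refine H42.norm_proj_le _ _ _ (by norm_num) fun c => ?_
  let yJ : ℕ → Fin 65 → H →L[ℂ] H := fun J i =>
    D.xJ F.left J i + (τ : ℂ) • F.S (.inr (.inl i), 0)
  have hlim : Tendsto (fun J => c.sum fun w a => a • word (yJ J) w F.Ω) atTop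
      (𝓝 (c.sum fun w a => a • word (pert (D.x F.left) (fun i => F.S (.inr (.inl i), 0))
        (τ ^ 2)) w F.Ω)) := by
    refine tendsto_finsetSum _ fun w _ => Tendsto.const_smul ?_ _
    refine ((ContinuousLinearMap.apply ℂ H F.Ω).continuous.tendsto _).comp (tendsto_word ?_ w)
    intro i
    simp only [pert, Real.sqrt_sq hτ.le]
    exact (D.tendsto_xJ _ i).add_const _
  refine le_of_tendsto_of_tendsto (Tendsto.inner tendsto_const_nhds hlim).norm
    (hlim.norm.const_mul _) ?_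
  filter_upwards [eventually_ge_atTop (k + 1)] with J hJ
  choose d hd0 hd using fun i => D.rep_terms F.left (Finset.range (k + 1)) i
  choose δ hδ0 hδ using fun i => D.rep_terms F.left (Finset.Ico (k + 1) J) i
  let cc : Fin 65 → Let → ℝ := fun i σ => match σ with
    | .inl p => if p.1 = i ∧ i ≠ 0 ∧ p.2 < J then D.rh p.2 else 0
    | .inr (.inl i') => if i' = i then τ else 0
    | .inr (.inr _) => 0
  have hdisj : ∀ {l}, l ∈ Finset.Ico (k + 1) J → l ∉ Finset.range (k + 1) := fun h h' => by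
    simp only [Finset.mem_Ico, Finset.mem_range] at h h'; omega
  have hφ : ∀ (β : GT V (Finset.range (k + 1))) (c : GT V (Finset.Ico (k + 1) J)), c ≠ 0 →
      io _ β + io _ c ≠ 0 ∧ ∀ p, |F.φ (.inl p) (io _ β + io _ c)| ≤ (D.U (k + 1) ^ 4)⁻¹ := by
    intro β c hc
    obtain ⟨l, hl, hne⟩ := exists_io_ne hc
    have h3 : (io _ β + io _ c) l ≠ 0 := by
      rwa [DFinsupp.add_apply, io_not β (hdisj hl), zero_add]
    refine ⟨fun e => h3 (by rw [e]; rfl), fun p => ?_⟩
    rw [hF]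
    refine (D.abs_phi p _ h3).trans ((D.abs_ψ _ _ h3).trans ?_)
    exact inv_anti₀ (pow_pos hW 4)
      (pow_le_pow_left₀ hW.le (D.U_mono (Finset.mem_Ico.mp hl).1) 4)
  have hcard := D.card_GT k
  have hbig : 256 * D.U k ^ 34 ≤ D.U (k + 1) := by
    rw [D.U_succ]; exact D.mul_U_pow_le k (by norm_num)
  have h17 : D.U k ^ 17 ≤ D.U k ^ 34 := D.U_pow_le k (by norm_num)
  have hp17 := pow_pos hw 17
  have hτW : 1 ≤ τ * D.U (k + 1) := by rwa [inv_le_iff_one_le_mul₀ hW] at h1
  refine le_trans (F.lemmaU (io (Finset.Ico (k + 1) J)) (io (Finset.range (k + 1))) ?_ d δ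
    ((Finset.univ ×ˢ Finset.range J).disjSum Finset.univ) cc ?_ (fun i => .inr (.inl i)) ?_
    (τ := τ) (θ' := 2 * (D.U (k + 1) ^ 4)⁻¹) (D := 2 * (D.U (k + 1) ^ 16)⁻¹) (ρ := D.rh k)
    (θ := (D.U (k + 1) ^ 4)⁻¹) hτ ?_ (by positivity) ?_ ?_ ?_ ?_ i0 (.inl (i0, k)) hρ ?_ ?_
    (by positivity) (fun β c hc => (hφ β c hc).2 _) ?_ (yJ J) ?_ c) ?_
  · intro β a h
    constructor
    · by_contra hβ
      obtain ⟨l, hl, hne⟩ := exists_io_ne hβ
      exact hne (by rw [h]; exact io_not a fun h' => hdisj h' hl)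
    · by_contra ha
      obtain ⟨l, hl, hne⟩ := exists_io_ne ha
      exact hne (by rw [← h]; exact io_not β (hdisj hl))
  · rintro i (p | i') h
    · have : ¬p.2 < J := by simpa using h
      simp [cc, this]
    · simp at h
  · exact fun i => D.isNoise F hF _
  · intro i i'
    simp only [cc, eq_comm]
  · intro i i' β c hc
    obtain ⟨h3, h4⟩ := hφ β c hc
    rw [Finset.sum_disjSum, Finset.sum_eq_zero (s := Finset.univ) fun σ _ => by
      rw [hF]; simp [phi, h3], add_zero]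
    refine (Finset.abs_sum_le_sum_abs _ _).trans ((Finset.sum_le_sum (g := fun p =>
      if p.1 = i then D.rh p.2 * (D.U (k + 1) ^ 4)⁻¹ else 0) fun p _ => ?_).trans ?_)
    · have a1 : |cc i' (.inl p)| ≤ 1 := by
        simp only [cc]; split_ifs
        · rw [abs_of_pos (D.rh_pos _)]; exact D.rh_le_one _
        · simp
      have a2 := h4 p
      have a3 := D.rh_pos p.2
      rw [abs_mul, abs_mul]
      split_ifs with hp
      · have a4 : |cc i (.inl p)| ≤ D.rh p.2 := by
          simp only [cc]; split_ifs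
          · exact (abs_of_pos a3).le
          · simpa using a3.le
        exact mul_le_mul ((mul_le_of_le_one_right (abs_nonneg _) a1).trans a4) a2 (abs_nonneg _)
          a3.le
      · simp [cc, hp]
    · rw [Finset.sum_product]
      simp only [Finset.sum_ite_irrel, Finset.sum_const_zero, Finset.sum_ite_eq',
        Finset.mem_univ, if_true, ← Finset.sum_mul]
      have := sum_Ico_le (fun j => (D.rh_pos j).le) D.rh_half 0 J
      rw [← Finset.range_eq_Ico] at this
      exact mul_le_mul_of_nonneg_right (by linarith [D.rh_le_one 0]) (by positivity)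
  · exact fun i => (hδ0 i).trans (sum_Ico_le
      (fun j => (inv_pos.mpr (pow_pos (D.U_pos j) _)).le) (D.inv_half 16 (by norm_num)) _ J)
  · refine (mul_le_mul_of_nonneg_right hcard (by positivity)).trans ?_
    have a1 : D.U (k + 1) * D.U (k + 1) ≤ D.U (k + 1) ^ 16 := by
      rw [← sq]; exact D.U_pow_le _ (by norm_num)
    rw [← mul_assoc, ← div_eq_mul_inv, div_le_iff₀ (by positivity)]
    nlinarith [mul_le_mul_of_nonneg_left a1 hτ.le]
  · refine (mul_le_mul_of_nonneg_right (pow_le_pow_left₀ (by positivity) hcard 2)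
      (by positivity)).trans ?_
    rw [← mul_assoc, ← div_eq_mul_inv, div_le_iff₀ (by positivity), ← pow_mul]
    have a1 : 1 ≤ (τ * D.U (k + 1)) ^ 2 := one_le_pow₀ hτW
    have a2 : D.U (k + 1) ≤ D.U (k + 1) ^ 2 := le_self_pow₀ hW1 (by norm_num)
    have a3 : τ ^ 2 / 10 * D.U (k + 1) ^ 4 = (τ * D.U (k + 1)) ^ 2 * D.U (k + 1) ^ 2 / 10 := by ring
    rw [a3]
    norm_num only
    nlinarith
  · intro i'
    simp only [cc]
    by_cases h : i' = i0
    · subst h; simp [hi]; omega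
    · simp [h, Ne.symm h]
  · intro β
    rw [hF]
    split_ifs with hβ
    · simp [hβ, phi]
    · obtain ⟨l, hl, hne⟩ := exists_io_ne hβ
      have := D.abs_phi (i0, k) _ hne
      have hl' : l ≤ k := by simpa [Nat.lt_succ_iff] using hl
      simpa [ψ, hl', hne] using this
  · refine (mul_le_mul_of_nonneg_right hcard (by positivity)).trans ?_
    rw [← div_eq_mul_inv, div_le_one (by positivity)]
    have : D.U (k + 1) ≤ D.U (k + 1) ^ 4 := le_self_pow₀ hW1 (by norm_num)
    linarith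
  · intro i
    have e1 := hd i
    have e2 := hδ i
    simp only [Fock.left] at e1 e2
    rw [← e1, ← e2, Finset.sum_disjSum, Fintype.sum_sum_type, Finset.sum_product]
    simp only [yJ, xJ, cc]
    by_cases h0 : i = 0
    · subst h0
      rw [← Finset.sum_range_add_sum_Ico _ hJ]
      simp [apply_ite ((↑) : ℝ → ℂ), Fock.left, add_assoc]
    · rw [Finset.sum_eq_single i]
      · simp only [h0, if_false, zero_add, term, Fock.left]
        congr 1
        · exact Finset.sum_congr rfl fun j hj => by simp [h0, Finset.mem_range.mp hj]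
        · simp [apply_ite ((↑) : ℝ → ℂ)]
      · intro b _ hb; simp [hb]
      · simp
  · refine mul_le_mul_of_nonneg_right ?_ (norm_nonneg _)
    have : τ / D.rh k ≤ 1 / 16 := by rw [div_le_iff₀ hρ]; linarith
    linarith

theorem low (F : Fock Let (Π₀ j, V j) H) (hF : F.φ = D.phi) (k : ℕ) {τ : ℝ}
    (h1 : (D.U (k + 1))⁻¹ ≤ τ) (h2 : τ ≤ D.rh k / 16) :
    fval F.Ω (D.x F.left) (fun i => F.S (.inr (.inl i), 0)) (τ ^ 2) ≤ 2 := by
  unfold fval
  simp only [F.S_Ω]
  rw [Fin.sum_univ_succ]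
  have a1 : ‖proj F.Ω (pert (D.x F.left) (fun i => F.S (.inr (.inl i), 0)) (τ ^ 2))
      (F.e [(.inr (.inl 0), 0)] 0)‖ ≤ 1 := by
    refine (ContinuousLinearMap.le_opNorm _ _).trans ?_
    rw [F.norm_e, mul_one]
    exact (H42.isStarProjection_proj _ _).norm_le
  have a2 := Finset.sum_le_sum (s := Finset.univ) fun (i : Fin 64) _ =>
    pow_le_pow_left₀ (norm_nonneg _) (D.low_one F hF k h1 h2 i.succ (Fin.succ_ne_zero i)) 2
  have a3 := pow_le_pow_left₀ (norm_nonneg _) a1 2
  simp only [Finset.sum_const, Finset.card_univ, Fintype.card_fin, nsmul_eq_mul] at a2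
  norm_num only at a2 a3
  linarith

end Data

end Pool.Agent.MP_ce43bb_an.H78
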