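import Pool.Agent.MP_ce43bb_an.H78.High
import Pool.Agent.MP_ce43bb_an.H6.Semi

/-! Assembly. -/

set_option linter.unusedSectionVars false

open scoped InnerProductSpace ENNReal Topology
open Filter

noncomputable section

namespace Pool.Agent.MP_ce43bb_an.H78

variable {V : ℕ → Type} [∀ j, AddCommGroup (V j)] [∀ j, Fintype (V j)] [∀ j, DecidableEq (V j)]
  {H : Type} [NormedAddCommGroup H] [InnerProductSpace ℂ H] [CompleteSpace H]

theorem ereal_sub_lt (r : ℝ) {a b : EReal} (h : a < b) : (r : EReal) - b < (r : EReal) - a := by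
  induction a using EReal.rec with
  | bot =>
    induction b using EReal.rec with
    | bot => exact absurd h (lt_irrefl _)
    | coe b => rw [EReal.coe_sub_bot, ← EReal.coe_sub]; exact EReal.coe_lt_top _
    | top => simp
  | coe a =>
    induction b using EReal.rec with
    | bot => simp at h
    | coe b =>
      rw [← EReal.coe_sub, ← EReal.coe_sub, EReal.coe_lt_coe_iff]
      have := EReal.coe_lt_coe_iff.mp h
      linarith
    | top => rw [EReal.sub_top, ← EReal.coe_sub]; exact EReal.bot_lt_coe _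
  | top => simp at h

theorem Data.window (D : Data V) {m m' : ℕ} (h1 : m + 1000 ≤ m') (h2 : m' ≤ 40000) {t : ℝ}
    (ht : 0 < t) (ht0 : t < (D.U 0 ^ 40000)⁻¹) :
    ∃ k, t ≤ (D.U k ^ m')⁻¹ ∧ (D.U k ^ m')⁻¹ < (D.U k ^ m)⁻¹ ∧ (D.U k ^ m)⁻¹ ≤ 1 ∧
      1 / 800000 * Real.log (1 / t) ≤ Real.log ((D.U k ^ m)⁻¹ / (D.U k ^ m')⁻¹) := by
  obtain ⟨N, hN⟩ : ∃ N : ℕ, N = 40000 := ⟨_, rfl⟩
  rw [← hN] at ht0 h2
  have hex : ∃ k, (D.U (k + 1) ^ N)⁻¹ < t := by
    have h : ∀ k : ℕ, (D.U k ^ N)⁻¹ ≤ (1 / 2) ^ k := by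
      intro k
      induction k with
      | zero => simpa using inv_le_one_of_one_le₀ (one_le_pow₀ (D.U_one 0))
      | succ k ih =>
        have := D.inv_half N (by omega) k
        rw [pow_succ (1 / 2 : ℝ)]
        linarith
    obtain ⟨k, hk⟩ := exists_pow_lt_of_lt_one ht (show (1 / 2 : ℝ) < 1 by norm_num)
    have := D.inv_half N (by omega) k
    have h0 := inv_pos.mpr (pow_pos (D.U_pos k) N)
    exact ⟨k, by linarith [h k]⟩
  classical
  have hk := Nat.find_spec hex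
  have hk' : t ≤ (D.U (Nat.find hex) ^ N)⁻¹ := by
    rcases h : Nat.find hex with _ | j
    · exact ht0.le
    · exact not_lt.mp (Nat.find_min hex (by omega))
  generalize Nat.find hex = k at hk hk'
  have hw := D.U_pos k
  have hw1 : 1 < D.U k := by linarith [D.U_ge k]
  refine ⟨k, hk'.trans (inv_anti₀ (pow_pos hw _) (D.U_pow_le k h2)),
    inv_strictAnti₀ (pow_pos hw _) (pow_lt_pow_right₀ hw1 (by omega)),
    inv_le_one_of_one_le₀ (one_le_pow₀ hw1.le), ?_⟩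
  have hl := Real.log_pos hw1
  have a1 : Real.log (1 / t) ≤ (20000 * N : ℕ) * Real.log (D.U k) := by
    rw [← Real.log_pow, ← D.U_succ_pow, one_div]
    exact Real.log_le_log (inv_pos.mpr ht) (inv_lt_of_inv_lt₀ (pow_pos (D.U_pos _) _) hk).le
  rw [Real.log_div (inv_pos.mpr (pow_pos hw _)).ne' (inv_pos.mpr (pow_pos hw _)).ne',
    Real.log_inv, Real.log_inv, Real.log_pow, Real.log_pow]
  have a2 : (m : ℝ) + 1000 ≤ m' := by exact_mod_cast h1
  rw [hN] at a1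
  push_cast at a1
  nlinarith

theorem inv_le_sqrt {w T : ℝ} {e : ℕ} (h : (w ^ (e * 2))⁻¹ ≤ T) : (w ^ e)⁻¹ ≤ √T :=
  Real.le_sqrt_of_sq_le (by rwa [inv_pow, ← pow_mul])

theorem sqrt_le_inv {w T : ℝ} (hw : 0 < w) {e : ℕ} (h : T ≤ (w ^ (e * 2))⁻¹) : √T ≤ (w ^ e)⁻¹ :=
  Real.sqrt_le_iff.mpr ⟨(inv_pos.mpr (pow_pos hw _)).le, by rwa [inv_pow, ← pow_mul]⟩

theorem main :
    ∃ (n : ℕ) (H : Type) (_ : NormedAddCommGroup H) (_ : InnerProductSpace ℂ H)
      (_ : CompleteSpace H) (M : VonNeumannAlgebra H) (Ω : H) (x s s' : Fin n → H →L[ℂ] H),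
      1 ≤ n ∧ IsTracial M Ω ∧
      (∀ i, x i ∈ M ∧ IsSelfAdjoint (x i) ∧ s i ∈ M ∧ s' i ∈ M) ∧
      FreeSemicircular Ω (Set.range x) s ∧
      FreeSemicircular Ω (Set.range x ∪ Set.range s) s' ∧
      (∀ t > 0, fisher Ω (pert x s t) ≠ ⊤ ∧ ChiFinite Ω (pert x s t) s') ∧
      deltaFisher Ω x s < deltaChi Ω x s s' ∧
      deltaChiInf Ω x s s' < deltaFisherInf Ω x s := by
  obtain ⟨V, _, _, _, ⟨D⟩⟩ := exists_data
  obtain ⟨H, _, _, _, F, hF⟩ := D.exists_model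
  let σ : Fin 65 → Let := fun i => .inr (.inl i)
  let σ' : Fin 65 → Let := fun i => .inr (.inr i)
  have hσ : Function.Injective σ := fun i j h => by simpa [σ] using h
  have hσ' : Function.Injective σ' := fun i j h => by simpa [σ'] using h
  have hσσ : Function.Injective (Sum.elim σ σ') := by
    rintro (i | i) (j | j) h <;> simp_all [σ, σ']
  have hn : ∀ i, F.IsNoise (σ i) := fun i => D.isNoise F hF _
  have hn' : ∀ i, F.IsNoise (σ' i) := fun i => D.isNoise F hF _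
  have hx : ∀ i, D.x F.left i ∈ F.NL (Set.range σ ∪ Set.range σ') := fun i =>
    (F.isClosed_NL _).mem_of_tendsto (D.tendsto_xJ F.left i) (Eventually.of_forall fun J =>
      D.mem_xJ F.left (F.lam_mem_NL _) (fun p => F.S_mem_NL (by simp [σ, σ'])) J i)
  have hx1 : ∀ i, D.x F.left i ∈ F.NL (Set.range σ) := fun i =>
    F.NL_mono Set.subset_union_left (hx i)
  have hx2 : ∀ i, D.x F.left i ∈ F.NL (Set.range σ') := fun i =>
    F.NL_mono Set.subset_union_right (hx i)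
  have hxs := D.isSelfAdjoint_x F.left
  have hfree : ∀ (τ : Fin 65 → Let), Function.Injective τ → (∀ i, F.IsNoise (τ i)) →
      ∀ B : Set (H →L[ℂ] H), B ⊆ F.NL (Set.range τ) → FreeSemicircular F.Ω B (fun i => F.S (τ i, 0)) :=
    fun τ h1 h2 B hB => H6.freeSemicircular F τ h1 h2 (F.NL (Set.range τ))
      (fun a ha i j => H93.key_identity F (by rintro _ ⟨i, rfl⟩; exact h2 i) ha ⟨i, rfl⟩ ⟨j, rfl⟩)
      (fun a ha i => H93.star_l_apply F ha ⟨i, rfl⟩ 0) B hB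
  obtain ⟨f, hf⟩ : ∃ f, f = fval F.Ω (D.x F.left) (fun i => F.S (σ i, 0)) := ⟨_, rfl⟩
  have hf0 : ∀ t, 0 ≤ f t := fun t => hf ▸ Finset.sum_nonneg fun _ _ => sq_nonneg _
  have hΦ : ∀ t > 0, fisher F.Ω (pert (D.x F.left) (fun i => F.S (σ i, 0)) t) =
      ENNReal.ofReal (f t / t) := fun t ht => hf ▸ H42.fisher_pert F σ hσ hn _ hx1 hxs ht
  have hΦ2 : ∀ t > 0, ∀ r > 0, fisher F.Ω (pert (pert (D.x F.left) (fun i => F.S (σ i, 0)) t)
      (fun i => F.S (σ' i, 0)) r) = ENNReal.ofReal (f (t + r) / (t + r)) := fun t ht r hr => by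
    rw [H42.fisher_pert_pert F σ σ' hσσ hn hn' _ hx hxs ht hr.le, hΦ _ (add_pos ht hr)]
  have hchi : ∀ t > 0, Set.EqOn (chiFun F.Ω (pert (D.x F.left) (fun i => F.S (σ i, 0)) t)
      (fun i => F.S (σ' i, 0))) (fun r => (65 : ℕ) / (1 + r) - f (t + r) / (t + r)) (Set.Ioi 0) :=
    fun t ht r hr => by
      simp only [chiFun]
      rw [hΦ2 t ht r hr, ENNReal.toReal_ofReal (div_nonneg (hf0 _) (add_pos ht hr).le)]
  obtain ⟨hint, hsup, hinf⟩ := H58.final_analysis 65 f (hf ▸ H42.measurable_fval _ _ _) (4 ^ 2) 2 7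
    (1 / 800000) (D.U 0 ^ 40000)⁻¹ ((65 : ℕ) / 2 * Real.log (2 * Real.pi * Real.exp 1))
    (fun T _ => hf ▸ H42.fval_le F σ _ T) (by norm_num)
    (fun T hT => hf ▸ H42.fval_lower F σ _
      (fun i => H93.star_l_apply F (hx1 i) ⟨i, rfl⟩ 0) (D.norm_x F.left) hT)
    (by norm_num) (by norm_num) (inv_pos.mpr (pow_pos (D.U_pos 0) _))
    (fun t ht ht0 => by
      obtain ⟨k, h1, h2, h3, h4⟩ := D.window (m := 6601 * 2) (m' := 20000 * 2) (by norm_num)
        (by norm_num) ht ht0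
      refine ⟨_, _, h1, h2, h3, h4, fun T hb ha => ?_⟩
      rw [hf, ← Real.sq_sqrt (ht.le.trans (h1.trans hb))]
      refine D.low F hF k (D.U_succ k ▸ inv_le_sqrt hb) ((sqrt_le_inv (D.U_pos k) ha).trans ?_)
      have a1 := D.mul_U_pow_le k (show 6600 < 6601 by norm_num)
      have a2 := pow_pos (D.U_pos k) 6600
      rw [Data.rh, div_eq_mul_inv, ← mul_inv]
      exact inv_anti₀ (mul_pos a2 (by norm_num)) (by linarith))
    (fun t ht ht0 => by
      obtain ⟨k, h1, h2, h3, h4⟩ := D.window (m := 1650 * 2) (m' := 3300 * 2) (by norm_num)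
        (by norm_num) ht ht0
      refine ⟨_, _, h1, h2, h3, h4, fun T hb ha => ?_⟩
      rw [hf, ← Real.sq_sqrt (ht.le.trans (h1.trans hb))]
      exact D.high F hF k (inv_le_sqrt hb) (sqrt_le_inv (D.U_pos k) ha))
  have e1 : ∀ᶠ t in 𝓝[>] (0 : ℝ), fisherRatio F.Ω (D.x F.left) (fun i => F.S (σ i, 0)) t =
      (f t : EReal) := by
    filter_upwards [self_mem_nhdsWithin] with t ht
    have ht' : 0 < t := ht
    rw [fisherRatio, hΦ t ht, ← ENNReal.ofReal_mul ht'.le, mul_div_cancel₀ _ ht'.ne',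
      EReal.coe_ennreal_ofReal, max_eq_left (hf0 t)]
  have e2 : ∀ᶠ t in 𝓝[>] (0 : ℝ), chiRatio F.Ω (D.x F.left) (fun i => F.S (σ i, 0))
      (fun i => F.S (σ' i, 0)) t =
      (((1 / 2 * (∫ r in Set.Ioi (0 : ℝ), ((65 : ℕ) / (1 + r) - f (t + r) / (t + r))) +
        (65 : ℕ) / 2 * Real.log (2 * Real.pi * Real.exp 1)) /
          Real.log (t ^ (1 / 2 : ℝ)) : ℝ) : EReal) := by
    filter_upwards [self_mem_nhdsWithin] with t ht
    rw [chiRatio, chi, MeasureTheory.setIntegral_congr_fun measurableSet_Ioi (hchi t ht)]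
  refine ⟨65, H, _, _, inferInstance, F.M, F.Ω, D.x F.left, fun i => F.S (σ i, 0),
    fun i => F.S (σ' i, 0), by norm_num, H93.isTracial F,
    fun i => ⟨F.mem_M_of_mem_NL (hx i), hxs i, F.S_mem_M _, F.S_mem_M _⟩,
    hfree σ hσ hn _ (by rintro _ ⟨i, rfl⟩; exact hx1 i), hfree σ' hσ' hn' _ ?_,
    fun t ht => ⟨by rw [hΦ t ht]; exact ENNReal.ofReal_ne_top,
      fun r hr => by rw [hΦ2 t ht r hr]; exact ENNReal.ofReal_ne_top,
      (hint t ht).congr_fun (hchi t ht).symm measurableSet_Ioi⟩, ?_, ?_⟩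
  · rintro _ (⟨i, rfl⟩ | ⟨i, rfl⟩)
    · exact hx2 i
    · exact F.S_mem_NL (by simp [σ, σ'])
  · rw [deltaFisher, deltaChi, limsup_congr e1, limsup_congr e2]
    exact ereal_sub_lt ((65 : ℕ) : ℝ) hsup
  · rw [deltaFisherInf, deltaChiInf, liminf_congr e1, liminf_congr e2]
    exact ereal_sub_lt ((65 : ℕ) : ℝ) hinf

end Pool.Agent.MP_ce43bb_an.H78
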