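import Pool.Agent.MP_ce43bb_an.H78.ExpOp
import Pool.Agent.MP_ce43bb_an.H58.Final

/-! The model: levels, covariances, and the variables. -/

set_option linter.unusedSectionVars false

open scoped InnerProductSpace ComplexOrder
open NormedSpace

noncomputable section

namespace Pool.Agent.MP_ce43bb_an.H78

theorem tail_le {E : Type} [NormedAddCommGroup E] [CompleteSpace E] {f : ℕ → E} {b : ℕ → ℝ}
    (hf : ∀ j, ‖f j‖ ≤ b j) (hb : ∀ j, b (j + 1) ≤ b j / 2) :
    Summable f ∧ ∀ J, ‖∑' j, f j - ∑ j ∈ Finset.range J, f j‖ ≤ 2 * b J := by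
  have h1 : ∀ J i, b (i + J) ≤ b J * (1 / 2) ^ i := by
    intro J i
    induction i with
    | zero => simp
    | succ i ih =>
      have := hb (i + J)
      rw [show i + 1 + J = i + J + 1 by omega, pow_succ]
      linarith
  have h2 : ∀ J, HasSum (fun i : ℕ => b J * (1 / 2 : ℝ) ^ i) (b J * 2) := fun J =>
    hasSum_geometric_two.mul_left _
  have hs : Summable f := Summable.of_norm_bounded (h2 0).summable fun i => (hf i).trans (h1 0 i)
  refine ⟨hs, fun J => ?_⟩
  rw [← hs.sum_add_tsum_nat_add J, add_sub_cancel_left, mul_comm]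
  exact tsum_of_norm_bounded (h2 J) fun i => (hf _).trans (h1 J i)

theorem sum_Ico_le {b : ℕ → ℝ} (h0 : ∀ j, 0 ≤ b j) (hb : ∀ j, b (j + 1) ≤ b j / 2) (k J : ℕ) :
    ∑ j ∈ Finset.Ico k J, b j ≤ 2 * b k := by
  rcases le_total J k with h | h
  · rw [Finset.Ico_eq_empty_of_le h]; simpa using h0 k
  · have : ∀ J, k ≤ J → ∑ j ∈ Finset.Ico k J, b j + 2 * b J ≤ 2 * b k := by
      intro J hJ
      induction J, hJ using Nat.le_induction with
      | base => simp
      | succ J hJ ih => rw [Finset.sum_Ico_succ_top hJ]; linarith [hb J]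
    linarith [this J h, h0 J]

/-- The data of the levels. -/
structure Data (V : ℕ → Type) [∀ j, AddCommGroup (V j)] [∀ j, Fintype (V j)]
    [∀ j, DecidableEq (V j)] where
  u : ℕ → ℕ
  u_ge : ∀ j, 256 ≤ u j
  u_succ : ∀ j, u (j + 1) = u j ^ 20000
  card : ∀ j, Fintype.card (V j) = u j ^ 8
  two : ∀ j (a : V j), a + a = 0
  χ : ∀ j, V j → V j → ℝ
  S : ∀ j, Finset (V j)
  χ_add : ∀ j a b x, χ j (a + b) x = χ j a x * χ j b x
  χ_comm : ∀ j a x, χ j a x = χ j x a
  χ_zero : ∀ j x, χ j 0 x = 1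
  χ_sum : ∀ j a, a ≠ 0 → ∑ x, χ j a x = 0
  S_ne : ∀ j, (S j).Nonempty
  S_small : ∀ j a, a ≠ 0 → |∑ x ∈ S j, χ j a x| * (u j : ℝ) ^ 4 ≤ (S j).card
  S_big : ∀ j, Fintype.card (V j) ≤ 4 * (S j)ᶜ.card

theorem exists_data : ∃ (V : ℕ → Type) (_ : ∀ j, AddCommGroup (V j)) (_ : ∀ j, Fintype (V j))
    (_ : ∀ j, DecidableEq (V j)), Nonempty (Data V) := by
  obtain ⟨μ, hμ0, hμ⟩ : ∃ μ : ℕ → ℕ, (∀ j, 8 ≤ μ j) ∧ ∀ j, μ (j + 1) = μ j * 20000 :=
    ⟨fun j => 8 * 20000 ^ j, fun j => Nat.le_mul_of_pos_right _ (by positivity),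
      fun j => by simp only [pow_succ, mul_assoc]⟩
  have h := fun j => H58.exists_bent (4 * μ j) (by have := hμ0 j; omega)
  choose χ S h1 h2 h3 h4 h5 h6 h7 using h
  have hc : ∀ j, Fintype.card ((Fin (4 * μ j) → ZMod 2) × (Fin (4 * μ j) → ZMod 2)) =
      4 ^ (4 * μ j) := fun j => by
    simp only [Fintype.card_prod, Fintype.card_pi, ZMod.card, Finset.prod_const, Finset.card_univ,
      Fintype.card_fin]
    rw [← mul_pow]; rfl
  refine ⟨fun j => (Fin (4 * μ j) → ZMod 2) × (Fin (4 * μ j) → ZMod 2), inferInstance,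
    inferInstance, inferInstance, ⟨⟨fun j => 2 ^ μ j, fun j => ?_, fun j => ?_, fun j => ?_,
      fun j a => ?_, χ, S, h1, h2, h3, h4, h5, fun j a ha => ?_, fun j => ?_⟩⟩⟩
  · exact (show 256 = 2 ^ 8 by norm_num) ▸ Nat.pow_le_pow_right two_pos (hμ0 j)
  · rw [hμ, pow_mul]
  · rw [hc, ← pow_mul, show 4 = 2 ^ 2 by norm_num, ← pow_mul]
    congr 1; ring
  · ext i <;> exact CharTwo.add_self_eq_zero _
  · have := h6 j a ha
    push_cast
    rwa [← pow_mul, mul_comm (μ j)]
  · rw [hc]; exact h7 j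

/-- The letters: `z` letters and two families of noise letters. -/
abbrev Let : Type := (Fin 65 × ℕ) ⊕ (Fin 65 ⊕ Fin 65)

/-- One of the two sides of the Fock space. -/
structure Side (Γ H : Type) [AddCommGroup Γ] [NormedAddCommGroup H] [InnerProductSpace ℂ H]
    [CompleteSpace H] where
  Λ : Γ → H →L[ℂ] H
  Sf : Let × Γ → H →L[ℂ] H
  Λ_mul : ∀ g h, Λ g * Λ h = Λ (g + h)
  Λ_zero : Λ 0 = 1
  star_Λ : ∀ g, star (Λ g) = Λ g
  norm_Λ : ∀ g, ‖Λ g‖ ≤ 1
  star_Sf : ∀ a, star (Sf a) = Sf a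
  norm_Sf : ∀ a, ‖Sf a‖ ≤ 2

variable {V : ℕ → Type} [∀ j, AddCommGroup (V j)] [∀ j, Fintype (V j)] [∀ j, DecidableEq (V j)]
  {H : Type} [NormedAddCommGroup H] [InnerProductSpace ℂ H] [CompleteSpace H]

/-- The left side. -/
def Fock.left (F : Fock Let (Π₀ j, V j) H) : Side (Π₀ j, V j) H :=
  ⟨F.lam, F.S, F.lam_mul, F.lam_zero, F.star_lam, F.norm_lam, F.star_S, F.norm_S⟩

/-- The right side. -/
def Fock.right (F : Fock Let (Π₀ j, V j) H) : Side (Π₀ j, V j) H :=
  ⟨F.rho, F.R, F.rho_mul, F.rho_zero, F.star_rho, F.norm_rho, F.star_R, F.norm_R⟩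

namespace Data

variable (D : Data V)

/-- The base of level `j` as a real number. -/
def U (j : ℕ) : ℝ := D.u j

theorem U_ge (j : ℕ) : 256 ≤ D.U j := by unfold U; exact_mod_cast D.u_ge j

theorem U_pos (j : ℕ) : 0 < D.U j := by linarith [D.U_ge j]

theorem U_one (j : ℕ) : 1 ≤ D.U j := by linarith [D.U_ge j]

theorem U_succ (j : ℕ) : D.U (j + 1) = D.U j ^ 20000 := by unfold U; rw [D.u_succ]; push_cast; rfl

theorem card_eq (j : ℕ) : (Fintype.card (V j) : ℝ) = D.U j ^ 8 := by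
  unfold U; rw [D.card]; push_cast; rfl

theorem U_pow_le (j : ℕ) {a b : ℕ} (h : a ≤ b) : D.U j ^ a ≤ D.U j ^ b :=
  pow_le_pow_right₀ (D.U_one j) h

theorem mul_U_pow_le (j : ℕ) {a b : ℕ} (h : a < b) : 256 * D.U j ^ a ≤ D.U j ^ b :=
  calc 256 * D.U j ^ a ≤ D.U j * D.U j ^ a :=
        mul_le_mul_of_nonneg_right (D.U_ge j) (pow_pos (D.U_pos j) a).le
    _ = D.U j ^ (a + 1) := (pow_succ' _ _).symm
    _ ≤ _ := D.U_pow_le j h

theorem U_succ_pow (j a : ℕ) : D.U (j + 1) ^ a = D.U j ^ (20000 * a) := by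
  rw [D.U_succ, ← pow_mul]

theorem U_mono {j k : ℕ} (h : j ≤ k) : D.U j ≤ D.U k := by
  induction k, h using Nat.le_induction with
  | base => exact le_rfl
  | succ k _ ih =>
    rw [D.U_succ]
    exact ih.trans (le_self_pow₀ (D.U_one k) (by norm_num))

theorem inv_half (a : ℕ) (ha : 0 < a) (j : ℕ) :
    (D.U (j + 1) ^ a)⁻¹ ≤ (D.U j ^ a)⁻¹ / 2 := by
  have h1 := D.mul_U_pow_le j (show a < 20000 * a by omega)
  have h2 := pow_pos (D.U_pos j) a
  rw [D.U_succ_pow, div_eq_mul_inv, ← mul_inv]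
  exact inv_anti₀ (by positivity) (by linarith)

theorem u_dvd {j k : ℕ} (h : j < k) : D.u j ^ 32 ∣ D.u k ^ 24 := by
  have : D.u j ^ 2 ∣ D.u k := by
    induction k, h using Nat.le_induction with
    | base => rw [D.u_succ]; exact pow_dvd_pow _ (by norm_num)
    | succ k _ ih => rw [D.u_succ]; exact ih.trans (dvd_pow_self _ (by norm_num))
  refine (pow_dvd_pow _ (by norm_num : 32 ≤ 2 * 24)).trans ?_
  rw [pow_mul]
  exact pow_dvd_pow_of_dvd this 24

theorem χ_sq (j : ℕ) (a x : V j) : D.χ j a x * D.χ j a x = 1 := by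
  rw [← D.χ_add, D.two, D.χ_zero]

theorem abs_χ (j : ℕ) (a x : V j) : |D.χ j a x| = 1 := by
  rcases mul_self_eq_one_iff.mp (D.χ_sq j a x) with h | h <;> simp [h]

include D in
theorem add_eq_zero (j : ℕ) (a b : V j) : a + b = 0 ↔ a = b := by
  constructor
  · intro h
    have := congrArg (· + b) h
    simpa [add_assoc, D.two] using this
  · rintro rfl; exact D.two j a

theorem sum_χ (j : ℕ) (c : V j) :
    ∑ γ, D.χ j γ c = if c = 0 then (Fintype.card (V j) : ℝ) else 0 := by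
  simp only [fun γ => D.χ_comm j γ c]
  split_ifs with h
  · simp [h, D.χ_zero]
  · exact D.χ_sum j c h

theorem χ_add' (j : ℕ) (γ a b : V j) : D.χ j γ (a + b) = D.χ j γ a * D.χ j γ b := by
  rw [D.χ_comm, D.χ_add, D.χ_comm j a, D.χ_comm j b]

/-- Fourier transform of the uniform measure on `S l`. -/
def Ph (l : ℕ) (a : V l) : ℝ := (∑ x ∈ D.S l, D.χ l a x) / (D.S l).card

theorem card_S_pos (l : ℕ) : (0 : ℝ) < (D.S l).card := by exact_mod_cast (D.S_ne l).card_pos

theorem Ph_zero (l : ℕ) : D.Ph l 0 = 1 := by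
  have := D.card_S_pos l
  simp [Ph, D.χ_zero, this.ne']

theorem abs_Ph (l : ℕ) {a : V l} (ha : a ≠ 0) : |D.Ph l a| ≤ (D.U l ^ 4)⁻¹ := by
  have h1 := D.card_S_pos l
  have h2 := pow_pos (D.U_pos l) 4
  rw [Ph, abs_div, abs_of_pos h1, div_le_iff₀ h1, inv_mul_eq_div, le_div_iff₀ h2]
  exact D.S_small l a ha

/-- Factor of level `l` in the covariance of the letters of level `j`. -/
def ψ (j l : ℕ) (a : V l) : ℝ := if l ≤ j then (if a = 0 then 1 else 0) else D.Ph l a

theorem ψ_zero (j l : ℕ) : D.ψ j l 0 = 1 := by simp [ψ, D.Ph_zero]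

theorem abs_ψ (j l : ℕ) {a : V l} (ha : a ≠ 0) : |D.ψ j l a| ≤ (D.U l ^ 4)⁻¹ := by
  unfold ψ
  split_ifs
  · simpa using (pow_pos (D.U_pos l) 4).le
  · exact D.abs_Ph l ha

theorem abs_ψ_le_one (j l : ℕ) (a : V l) : |D.ψ j l a| ≤ 1 := by
  by_cases ha : a = 0
  · simp [ha, D.ψ_zero]
  · exact (D.abs_ψ j l ha).trans (inv_le_one_of_one_le₀ (one_le_pow₀ (D.U_one l)))

/-- The covariances of the letters. -/
def phi : Let → (Π₀ j, V j) → ℝ
  | .inl p, γ => ∏ l ∈ γ.support, D.ψ p.2 l (γ l)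
  | .inr _, γ => if γ = 0 then 1 else 0

theorem phi_eq (p : Fin 65 × ℕ) (γ : Π₀ j, V j) {T : Finset ℕ} (hT : γ.support ⊆ T) :
    D.phi (.inl p) γ = ∏ l ∈ T, D.ψ p.2 l (γ l) :=
  Finset.prod_subset hT fun l _ hl => by rw [DFinsupp.notMem_support_iff.mp hl, D.ψ_zero]

theorem abs_phi (p : Fin 65 × ℕ) (γ : Π₀ j, V j) {l : ℕ} (hl : γ l ≠ 0) :
    |D.phi (.inl p) γ| ≤ |D.ψ p.2 l (γ l)| := by
  simp only [phi]
  rw [← Finset.mul_prod_erase _ _ (DFinsupp.mem_support_iff.mpr hl), abs_mul, Finset.abs_prod]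
  exact mul_le_of_le_one_right (abs_nonneg _)
    (Finset.prod_le_one (fun _ _ => abs_nonneg _) fun m _ => D.abs_ψ_le_one _ m _)

theorem phi_single (p : Fin 65 × ℕ) {k : ℕ} (hk : p.2 < k) (a : V k) :
    D.phi (.inl p) (DFinsupp.single k a) = D.Ph k a := by
  rw [D.phi_eq p _ DFinsupp.support_single_subset]
  simp [ψ, hk.not_ge]

include D in
theorem two_Γ (g : Π₀ j, V j) : g + g = 0 := DFinsupp.ext fun j => D.two j (g j)

theorem psd_ψ (j l : ℕ) :
    (Matrix.of fun a b : V l => ((D.ψ j l (a + b) : ℝ) : ℂ)).PosSemidef := by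
  unfold ψ
  by_cases h : l ≤ j
  · simp only [if_pos h, D.add_eq_zero]
    exact psd_delta
  · simp only [if_neg h]
    have h1 := D.card_S_pos l
    have : ∀ a b : V l, D.Ph l (a + b) = ∑ x ∈ D.S l,
        (D.χ l a x / √(D.S l).card) * (D.χ l b x / √(D.S l).card) := by
      intro a b
      simp only [Ph, Finset.sum_div, D.χ_add, div_mul_div_comm, Real.mul_self_sqrt h1.le]
    simp only [this]
    exact psd_sum _ fun x _ => psd_rank_one _

theorem exists_model : ∃ (H : Type) (_ : NormedAddCommGroup H) (_ : InnerProductSpace ℂ H)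
    (_ : CompleteSpace H) (F : Fock Let (Π₀ j, V j) H), F.φ = D.phi := by
  refine exists_fock D.phi D.two_Γ (fun σ => ?_) fun σ => ?_
  · cases σ <;> simp [phi]
  · rcases σ with p | i
    · refine psd_of_local _ fun s => ⟨_, psd_prod (s.biUnion DFinsupp.support)
        (f := fun l (β β' : Π₀ j, V j) => D.ψ p.2 l (β l + β' l))
        fun l _ => psd_comp (D.psd_ψ p.2 l) fun β : Π₀ j, V j => β l, fun β hβ β' hβ' => ?_⟩
      simp only [Matrix.of_apply]
      rw [D.phi_eq p (β + β') (T := s.biUnion DFinsupp.support)]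
      · rfl
      · refine DFinsupp.support_add.trans (Finset.union_subset ?_ ?_)
        · exact Finset.subset_biUnion_of_mem _ hβ
        · exact Finset.subset_biUnion_of_mem _ hβ'
    · have : ∀ a b : Π₀ j, V j, a + b = 0 ↔ a = b := fun a b => by
        constructor
        · intro h
          have := congrArg (· + b) h
          simpa [add_assoc, D.two_Γ] using this
        · rintro rfl; exact D.two_Γ a
      simp only [phi, this]
      exact psd_delta

variable (s : Side (Π₀ j, V j) H)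

/-- The projections of level `k`. -/
def p (k : ℕ) (a : V k) : H →L[ℂ] H :=
  (Fintype.card (V k) : ℂ)⁻¹ • ∑ γ, (D.χ k γ a : ℂ) • s.Λ (DFinsupp.single k γ)

theorem card_ne (k : ℕ) : (Fintype.card (V k) : ℂ) ≠ 0 := by
  exact_mod_cast Fintype.card_ne_zero

theorem p_mul_Λ (k : ℕ) (a γ : V k) :
    D.p s k a * s.Λ (DFinsupp.single k γ) = (D.χ k γ a : ℂ) • D.p s k a := by
  simp only [p, smul_mul_assoc, Finset.sum_mul, s.Λ_mul, ← DFinsupp.single_add]
  rw [smul_comm (D.χ k γ a : ℂ)]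
  congr 1
  rw [Finset.smul_sum, ← Equiv.sum_comp (Equiv.addRight γ)]
  refine Finset.sum_congr rfl fun δ _ => ?_
  simp only [Equiv.coe_addRight, add_assoc, D.two, add_zero, D.χ_add, smul_smul]
  push_cast
  rw [mul_comm]

theorem p_mul (k : ℕ) (a b : V k) :
    D.p s k a * D.p s k b = if a = b then D.p s k a else 0 := by
  nth_rewrite 2 [p]
  simp only [mul_smul_comm, Finset.mul_sum, D.p_mul_Λ, smul_smul, ← Finset.sum_smul]
  have : ∑ γ, (D.χ k γ b : ℂ) * D.χ k γ a = ((∑ γ, D.χ k γ (b + a) : ℝ) : ℂ) := by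
    simp [D.χ_add']
  rw [← Finset.mul_sum, this, D.sum_χ]
  simp only [D.add_eq_zero]
  by_cases h : a = b
  · simp [h]
  · simp [h, Ne.symm h]

theorem p_idem (k : ℕ) (a : V k) : D.p s k a * D.p s k a = D.p s k a := by simp [D.p_mul]

theorem p_orth (k : ℕ) (a b : V k) (h : a ≠ b) : D.p s k a * D.p s k b = 0 := by simp [D.p_mul, h]

theorem sum_p (k : ℕ) : ∑ a, D.p s k a = 1 := by
  simp only [p, ← Finset.smul_sum]
  rw [Finset.sum_comm, Finset.sum_eq_single 0]
  · simp [D.χ_zero, s.Λ_zero, ← Nat.cast_smul_eq_nsmul ℂ, smul_smul]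
  · intro γ _ hγ
    rw [← Finset.sum_smul, ← Complex.ofReal_sum, D.χ_sum k γ hγ]
    simp
  · simp

theorem star_p (k : ℕ) (a : V k) : star (D.p s k a) = D.p s k a := by
  simp [p, star_smul, star_sum, s.star_Λ]

theorem isStarProjection_p (k : ℕ) (a : V k) : IsStarProjection (D.p s k a) :=
  ⟨D.p_idem s k a, D.star_p s k a⟩

theorem commute_p {T : H →L[ℂ] H} (h : ∀ g, Commute T (s.Λ g)) (k : ℕ) (a : V k) :
    Commute T (D.p s k a) :=
  (Commute.sum_right _ _ _ fun _ _ => (h _).smul_right _).smul_right _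

/-- Enumeration of level `k`. -/
def en (k : ℕ) (a : V k) : ℕ := Fintype.equivFin (V k) a

/-- The generator of level `k`. -/
def y (k : ℕ) : H →L[ℂ] H := ∑ a, (en k a : ℂ) • D.p s k a

theorem en_lt (k : ℕ) (a : V k) : en k a < Fintype.card (V k) := (Fintype.equivFin (V k) a).2

theorem norm_y (k : ℕ) : ‖D.y s k‖ ≤ D.U k ^ 16 := by
  refine (norm_sum_le _ _).trans ((Finset.sum_le_sum (g := fun _ => D.U k ^ 8)
    fun a _ => ?_).trans (le_of_eq ?_))
  · rw [norm_smul, Complex.norm_natCast, ← D.card_eq]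
    exact (mul_le_of_le_one_right (Nat.cast_nonneg _) (D.isStarProjection_p s k a).norm_le).trans
      (by exact_mod_cast (en_lt k a).le)
  · rw [Finset.sum_const, Finset.card_univ, nsmul_eq_mul, D.card_eq]; ring

theorem commute_y {T : H →L[ℂ] H} (h : ∀ g, Commute T (s.Λ g)) (k : ℕ) : Commute T (D.y s k) :=
  Commute.sum_right _ _ _ fun a _ => (D.commute_p s h k a).smul_right _

/-- Weight of the generator of level `j`. -/
def eps (j : ℕ) : ℝ := (D.U j ^ 32)⁻¹

/-- Weight of the letters of level `j`. -/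
def rh (j : ℕ) : ℝ := (D.U j ^ 6600)⁻¹

theorem rh_pos (j : ℕ) : 0 < D.rh j := inv_pos.mpr (pow_pos (D.U_pos j) _)

theorem eps_pos (j : ℕ) : 0 < D.eps j := inv_pos.mpr (pow_pos (D.U_pos j) _)

theorem rh_le_one (j : ℕ) : D.rh j ≤ 1 := inv_le_one_of_one_le₀ (one_le_pow₀ (D.U_one j))

theorem rh_half (j : ℕ) : D.rh (j + 1) ≤ D.rh j / 2 := D.inv_half _ (by norm_num) j

/-- The summands of the variables. -/
def term (i : Fin 65) (j : ℕ) : H →L[ℂ] H :=
  if i = 0 then (D.eps j : ℂ) • D.y s j else (D.rh j : ℂ) • s.Sf (.inl (i, j), 0)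

/-- Bound for the summands. -/
def bd (i : Fin 65) (j : ℕ) : ℝ := if i = 0 then (D.U j ^ 16)⁻¹ else 2 * D.rh j

theorem eps_mul (j : ℕ) : D.eps j * D.U j ^ 16 = (D.U j ^ 16)⁻¹ := by
  have := D.U_pos j
  unfold eps
  field_simp

theorem norm_term (i : Fin 65) (j : ℕ) : ‖D.term s i j‖ ≤ D.bd i j := by
  unfold term bd
  split_ifs
  · rw [norm_smul, Complex.norm_real, Real.norm_of_nonneg (D.eps_pos j).le, ← D.eps_mul]
    exact mul_le_mul_of_nonneg_left (D.norm_y s j) (D.eps_pos j).le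
  · rw [norm_smul, Complex.norm_real, Real.norm_of_nonneg (D.rh_pos j).le, mul_comm 2]
    exact mul_le_mul_of_nonneg_left (s.norm_Sf _) (D.rh_pos j).le

theorem bd_half (i : Fin 65) (j : ℕ) : D.bd i (j + 1) ≤ D.bd i j / 2 := by
  unfold bd
  split_ifs
  · exact D.inv_half _ (by norm_num) j
  · linarith [D.rh_half j]

theorem bd_le (i : Fin 65) (j : ℕ) : D.bd i j ≤ 2 := by
  unfold bd
  split_ifs
  · exact (inv_le_one_of_one_le₀ (one_le_pow₀ (D.U_one j))).trans one_le_two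
  · linarith [D.rh_le_one j]

theorem star_term (i : Fin 65) (j : ℕ) : star (D.term s i j) = D.term s i j := by
  unfold term
  split_ifs
  · simp [y, star_smul, star_sum, D.star_p]
  · simp [star_smul, s.star_Sf]

theorem commute_term {T : H →L[ℂ] H} (h : ∀ g, Commute T (s.Λ g)) (h' : ∀ a, Commute T (s.Sf a))
    (i : Fin 65) (j : ℕ) : Commute T (D.term s i j) := by
  unfold term
  split_ifs
  · exact (D.commute_y s h j).smul_right _
  · exact (h' _).smul_right _

/-- The variables. -/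
def x (i : Fin 65) : H →L[ℂ] H := ∑' j, D.term s i j

/-- The truncated variables. -/
def xJ (J : ℕ) (i : Fin 65) : H →L[ℂ] H := ∑ j ∈ Finset.range J, D.term s i j

theorem summable_term (i : Fin 65) : Summable (D.term s i) :=
  (tail_le (D.norm_term s i) (D.bd_half i)).1

theorem norm_x_sub (J : ℕ) (i : Fin 65) : ‖D.x s i - D.xJ s J i‖ ≤ 2 * D.bd i J :=
  (tail_le (D.norm_term s i) (D.bd_half i)).2 J

theorem norm_x (i : Fin 65) : ‖D.x s i‖ ≤ 4 := by
  have := D.norm_x_sub s 0 i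
  simp only [xJ, Finset.range_zero, Finset.sum_empty, sub_zero] at this
  linarith [D.bd_le i 0]

theorem norm_xJ (J : ℕ) (i : Fin 65) : ‖D.xJ s J i‖ ≤ 8 := by
  have h1 := D.norm_x_sub s J i
  have h2 := norm_sub_norm_le (D.xJ s J i) (D.x s i)
  rw [norm_sub_rev] at h2
  linarith [D.bd_le i J, D.norm_x s i]

theorem isSelfAdjoint_x (i : Fin 65) : IsSelfAdjoint (D.x s i) := by
  unfold x
  rw [IsSelfAdjoint, tsum_star]
  simp only [D.star_term]

theorem isSelfAdjoint_xJ (J : ℕ) (i : Fin 65) : IsSelfAdjoint (D.xJ s J i) := by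
  unfold xJ
  rw [IsSelfAdjoint, star_sum]
  simp only [D.star_term]

theorem commute_x {T : H →L[ℂ] H} (h : ∀ g, Commute T (s.Λ g)) (h' : ∀ a, Commute T (s.Sf a))
    (i : Fin 65) : Commute T (D.x s i) :=
  Commute.tsum_right _ fun j => D.commute_term s h h' i j

theorem commute_xJ {T : H →L[ℂ] H} (h : ∀ g, Commute T (s.Λ g)) (h' : ∀ a, Commute T (s.Sf a))
    (J : ℕ) (i : Fin 65) : Commute T (D.xJ s J i) :=
  Commute.sum_right _ _ _ fun j _ => D.commute_term s h h' i j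

theorem mem_p {B : StarSubalgebra ℂ (H →L[ℂ] H)} (h : ∀ g, s.Λ g ∈ B) (k : ℕ) (a : V k) :
    D.p s k a ∈ B :=
  B.smul_mem (sum_mem fun _ _ => B.smul_mem (h _) _) _

theorem mem_xJ {B : StarSubalgebra ℂ (H →L[ℂ] H)} (h : ∀ g, s.Λ g ∈ B)
    (h' : ∀ p, s.Sf (.inl p, 0) ∈ B) (J : ℕ) (i : Fin 65) : D.xJ s J i ∈ B := by
  refine sum_mem fun j _ => ?_
  unfold term
  split_ifs
  · exact B.smul_mem (sum_mem fun a _ => B.smul_mem (D.mem_p s h j a) _) _
  · exact B.smul_mem (h' _) _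

theorem tendsto_xJ (i : Fin 65) :
    Filter.Tendsto (fun J => D.xJ s J i) Filter.atTop (nhds (D.x s i)) :=
  (D.summable_term s i).hasSum.tendsto_sum_nat

/-- The eigenvalues of the unitary of level `k`. -/
def om (k : ℕ) (a : V k) : ℂ := Complex.exp (2 * Real.pi * Complex.I / Fintype.card (V k)) ^ en k a

theorem om_pow (k : ℕ) (a : V k) : om k a ^ Fintype.card (V k) = 1 := by
  rw [om, ← pow_mul, mul_comm (en k a), pow_mul,
    (Complex.isPrimitiveRoot_exp _ Fintype.card_ne_zero).pow_eq_one, one_pow]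

theorem om_inj (k : ℕ) : Function.Injective (om (V := V) k) := fun a b h =>
  (Fintype.equivFin (V k)).injective (Fin.ext
    ((Complex.isPrimitiveRoot_exp _ Fintype.card_ne_zero).pow_inj (en_lt k a) (en_lt k b) h))

/-- The frequency of level `k`. -/
def th (k : ℕ) : ℝ := 2 * Real.pi * D.U k ^ 24

theorem exp_xJ (k : ℕ) :
    exp (Complex.I • ((D.th k : ℂ) • D.xJ s (k + 1) 0)) = ∑ a, om k a • D.p s k a := by
  let : NormedAlgebra ℚ (H →L[ℂ] H) := .restrictScalars ℚ ℂ _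
  have hΛ : ∀ g h, Commute (s.Λ g) (s.Λ h) := fun g h => by
    rw [Commute, SemiconjBy, s.Λ_mul, s.Λ_mul, add_comm]
  have hyy : ∀ j l, Commute (D.y s j) (D.y s l) := fun j l =>
    D.commute_y s (fun g => (D.commute_y s (hΛ g) j).symm) l
  have he : ∀ j, exp (Complex.I • ((D.th k : ℂ) • D.term s 0 j)) =
      ∑ a, Complex.exp (Complex.I * (D.th k * (D.eps j * en j a))) • D.p s j a := by
    intro j
    rw [← exp_sum_proj (D.p_idem s j) (D.p_orth s j) (D.sum_p s j)]
    simp only [term, if_true, y, Finset.smul_sum, smul_smul]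
  have hstep : ∀ j, exp (Complex.I • ((D.th k : ℂ) • D.xJ s (j + 1) 0)) =
      exp (Complex.I • ((D.th k : ℂ) • D.xJ s j 0)) *
        exp (Complex.I • ((D.th k : ℂ) • D.term s 0 j)) := by
    intro j
    rw [xJ, Finset.sum_range_succ, smul_add, smul_add, exp_add_of_commute]
    · rfl
    · refine (((Commute.sum_left _ _ _ fun l _ => ?_).smul_left _).smul_left _).smul_right _
        |>.smul_right _
      simp only [term, if_true]
      exact ((hyy l j).smul_left _).smul_right _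
  have hlow : ∀ j, j ≤ k → exp (Complex.I • ((D.th k : ℂ) • D.xJ s j 0)) = 1 := by
    intro j hj
    induction j with
    | zero => simp [xJ]
    | succ j ih =>
      rw [hstep, ih (by omega), one_mul, he, ← D.sum_p s j]
      refine Finset.sum_congr rfl fun a _ => ?_
      obtain ⟨z, hz⟩ := D.u_dvd (show j < k by omega)
      have hz' : (D.U k : ℂ) ^ 24 = (D.U j : ℂ) ^ 32 * z := by
        unfold U; exact_mod_cast hz
      have h0 : (D.U j : ℂ) ≠ 0 := by exact_mod_cast (D.U_pos j).ne'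
      have : Complex.I * (D.th k * (D.eps j * en j a)) =
          ((z * en j a : ℕ) : ℂ) * (2 * Real.pi * Complex.I) := by
        unfold th eps
        push_cast
        rw [hz']
        field_simp
      rw [this, Complex.exp_nat_mul_two_pi_mul_I, one_smul]
  rw [hstep, hlow k le_rfl, one_mul, he]
  refine Finset.sum_congr rfl fun a _ => ?_
  congr 1
  rw [om, ← Complex.exp_nat_mul]
  congr 1
  have h0 : (D.U k : ℂ) ≠ 0 := by exact_mod_cast (D.U_pos k).ne'
  have h1 : (Fintype.card (V k) : ℂ) = (D.U k : ℂ) ^ 8 := by exact_mod_cast D.card_eq k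
  unfold th eps
  push_cast
  rw [h1]
  field_simp

end Data

end Pool.Agent.MP_ce43bb_an.H78
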