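import Mathlib

/-! Sums over the splittings of a word. -/

noncomputable section

namespace Pool.Agent.MP_ce43bb_an.H78

variable {Λ N N' : Type}

section
variable [AddCommMonoid N] [AddCommMonoid N']

/-- Sum of `F a b` over all `u = a ++ b`. -/
def S2 : (List Λ → List Λ → N) → List Λ → N
  | F, [] => F [] []
  | F, ℓ :: u => F [] (ℓ :: u) + S2 (fun a => F (ℓ :: a)) u

/-- Sum of `F a ℓ b` over all `u = a ++ ℓ :: b`. -/
def S3 : (List Λ → Λ → List Λ → N) → List Λ → N
  | _, [] => 0
  | F, ℓ :: u => F [] ℓ u + S3 (fun a => F (ℓ :: a)) u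

theorem S2_congr {F G : List Λ → List Λ → N} {u : List Λ}
    (h : ∀ a b, a ++ b = u → F a b = G a b) : S2 F u = S2 G u := by
  induction u generalizing F G with
  | nil => exact h [] [] rfl
  | cons ℓ u ih =>
    simp only [S2]
    rw [h [] (ℓ :: u) rfl, ih fun a b hab => h (ℓ :: a) b (by simp [hab])]

theorem S3_congr {F G : List Λ → Λ → List Λ → N} {u : List Λ}
    (h : ∀ a ℓ b, a ++ ℓ :: b = u → F a ℓ b = G a ℓ b) : S3 F u = S3 G u := by
  induction u generalizing F G with
  | nil => rfl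
  | cons ℓ u ih =>
    simp only [S3]
    rw [h [] ℓ u rfl, ih fun a ℓ' b hab => h (ℓ :: a) ℓ' b (by simp [hab])]

theorem map_S2 {Φ : Type*} [FunLike Φ N N'] [AddMonoidHomClass Φ N N'] (f : Φ)
    (F : List Λ → List Λ → N) (u : List Λ) : f (S2 F u) = S2 (fun a b => f (F a b)) u := by
  induction u generalizing F with
  | nil => rfl
  | cons ℓ u ih => simp only [S2, map_add, ih]

theorem map_S3 {Φ : Type*} [FunLike Φ N N'] [AddMonoidHomClass Φ N N'] (f : Φ)
    (F : List Λ → Λ → List Λ → N) (u : List Λ) :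
    f (S3 F u) = S3 (fun a ℓ b => f (F a ℓ b)) u := by
  induction u generalizing F with
  | nil => simp [S3]
  | cons ℓ u ih => simp only [S3, map_add, ih]

theorem S2_induction (P : N → Prop) (hP : ∀ x y, P x → P y → P (x + y))
    {F : List Λ → List Λ → N} {u : List Λ} (h : ∀ a b, a ++ b = u → P (F a b)) : P (S2 F u) := by
  induction u generalizing F with
  | nil => exact h [] [] rfl
  | cons ℓ u ih => exact hP _ _ (h [] _ rfl) (ih fun a b hab => h (ℓ :: a) b (by simp [hab]))

theorem S2_zero (u : List Λ) : S2 (fun _ _ => (0 : N)) u = 0 := by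
  induction u with
  | nil => rfl
  | cons ℓ u ih => simp [S2, ih]

theorem S3_zero (u : List Λ) : S3 (fun _ _ _ => (0 : N)) u = 0 := by
  induction u with
  | nil => rfl
  | cons ℓ u ih => simp [S3, ih]

theorem S2_add (F G : List Λ → List Λ → N) (u : List Λ) :
    S2 (fun a b => F a b + G a b) u = S2 F u + S2 G u := by
  induction u generalizing F G with
  | nil => rfl
  | cons ℓ u ih => simp only [S2, ih]; abel

theorem S3_add (F G : List Λ → Λ → List Λ → N) (u : List Λ) :
    S3 (fun a ℓ b => F a ℓ b + G a ℓ b) u = S3 F u + S3 G u := by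
  induction u generalizing F G with
  | nil => simp [S3]
  | cons ℓ u ih => simp only [S3, ih]; abel

theorem S3_sum {κ : Type} (s : Finset κ) (F : κ → List Λ → Λ → List Λ → N) (u : List Λ) :
    S3 (fun a ℓ b => ∑ k ∈ s, F k a ℓ b) u = ∑ k ∈ s, S3 (F k) u := by
  induction u generalizing F with
  | nil => simp [S3]
  | cons ℓ u ih => simp only [S3, ih, Finset.sum_add_distrib]

theorem S3_S2 (F : List Λ → List Λ → Λ → List Λ → N) (u : List Λ) :
    S3 (fun a ℓ b => S2 (fun p r => F p r ℓ b) a) u =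
      S2 (fun p c => S3 (fun r ℓ b => F p r ℓ b) c) u := by
  induction u generalizing F with
  | nil => rfl
  | cons ℓ u ih => simp only [S3, S2, S3_add, ih]; abel

theorem S3_last {F : List Λ → Λ → List Λ → N} (h : ∀ a ℓ b, b ≠ [] → F a ℓ b = 0) (u : List Λ)
    (ℓ : Λ) : S3 F (u ++ [ℓ]) = F u ℓ [] := by
  induction u generalizing F with
  | nil => simp [S3]
  | cons m u ih =>
    simp only [List.cons_append, S3]
    rw [ih fun a ℓ b hb => h _ ℓ b hb, h _ _ _ (by simp), zero_add]

theorem S2_last [DecidableEq Λ] (F : List Λ → List Λ → N) (u : List Λ) :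
    S2 F u = S2 (fun p r => if r = [] then 0 else F p r) u + F u [] := by
  induction u generalizing F with
  | nil => simp [S2]
  | cons m u ih =>
    simp only [S2]
    rw [ih]
    simp [add_assoc]

end

theorem S2_mono {F G : List Λ → List Λ → ℝ} {u : List Λ}
    (h : ∀ a b, a ++ b = u → F a b ≤ G a b) : S2 F u ≤ S2 G u := by
  induction u generalizing F G with
  | nil => exact h [] [] rfl
  | cons ℓ u ih => exact add_le_add (h _ _ rfl) (ih fun a b hab => h _ b (by simp [hab]))

theorem S3_mono {F G : List Λ → Λ → List Λ → ℝ} {u : List Λ}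
    (h : ∀ a ℓ b, a ++ ℓ :: b = u → F a ℓ b ≤ G a ℓ b) : S3 F u ≤ S3 G u := by
  induction u generalizing F G with
  | nil => exact le_rfl
  | cons ℓ u ih => exact add_le_add (h _ _ _ rfl) (ih fun a ℓ b hab => h _ ℓ b (by simp [hab]))

theorem mul_S2 (c : ℝ) (F : List Λ → List Λ → ℝ) (u : List Λ) :
    c * S2 F u = S2 (fun a b => c * F a b) u := map_S2 (AddMonoidHom.mulLeft c) F u

theorem mul_S3 (c : ℝ) (F : List Λ → Λ → List Λ → ℝ) (u : List Λ) :
    c * S3 F u = S3 (fun a ℓ b => c * F a ℓ b) u := map_S3 (AddMonoidHom.mulLeft c) F u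

theorem S3_nonneg {F : List Λ → Λ → List Λ → ℝ} (h : ∀ a ℓ b, 0 ≤ F a ℓ b) (u : List Λ) :
    0 ≤ S3 F u := by
  rw [← S3_zero u]
  exact S3_mono fun a ℓ b _ => h a ℓ b

theorem le_S2 [AddCommMonoid N] (ν : N → ℝ) (hν : ∀ x y, ν (x + y) ≤ ν x + ν y)
    (F : List Λ → List Λ → N) (u : List Λ) : ν (S2 F u) ≤ S2 (fun a b => ν (F a b)) u := by
  induction u generalizing F with
  | nil => exact le_rfl
  | cons ℓ u ih => exact (hν _ _).trans (add_le_add le_rfl (ih _))

theorem le_S3 [AddCommMonoid N] (ν : N → ℝ) (h0 : ν 0 ≤ 0) (hν : ∀ x y, ν (x + y) ≤ ν x + ν y)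
    (F : List Λ → Λ → List Λ → N) (u : List Λ) :
    ν (S3 F u) ≤ S3 (fun a ℓ b => ν (F a ℓ b)) u := by
  induction u generalizing F with
  | nil => exact h0
  | cons ℓ u ih => exact (hν _ _).trans (add_le_add le_rfl (ih _))

/-- Functions defined by recursion on the length. -/
theorem exists_causal [Inhabited N] (Φ : (List Λ → N) → List Λ → N)
    (h : ∀ f g u, (∀ v : List Λ, v.length < u.length → f v = g v) → Φ f u = Φ g u) :
    ∃ f : List Λ → N, ∀ u, f u = Φ f u := by
  let f : List Λ → N := WellFounded.fix (measure List.length).wf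
    fun u ih => Φ (fun v => if hv : v.length < u.length then ih v hv else default) u
  refine ⟨f, fun u => ?_⟩
  have : f u = Φ (fun v => if hv : v.length < u.length then f v else default) u :=
    WellFounded.fix_eq _ _ u
  rw [this]
  exact h _ _ u fun v hv => by simp [hv]

section words
variable [Fintype Λ] [DecidableEq Λ]

/-- The words of length `m`. -/
def words : ℕ → Finset (List Λ)
  | 0 => {[]}
  | m + 1 => (Finset.univ ×ˢ words m).image fun p : Λ × List Λ => p.1 :: p.2

theorem mem_words {m : ℕ} {u : List Λ} : u ∈ words m ↔ u.length = m := by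
  induction m generalizing u with
  | zero => simp [words]
  | succ m ih =>
    cases u with
    | nil => simp [words]
    | cons ℓ u => simp [words, ih]

theorem sum_words_succ (f : List Λ → ℝ) (m : ℕ) :
    ∑ u ∈ words (m + 1), f u = ∑ ℓ, ∑ u ∈ words m, f (ℓ :: u) := by
  rw [words, Finset.sum_image, Finset.sum_product]
  rintro ⟨a, b⟩ _ ⟨c, d⟩ _ h
  simpa using h

theorem sum_words_S2 (f g : List Λ → ℝ) (m : ℕ) :
    ∑ u ∈ words m, S2 (fun a b => f a * g b) u =
      ∑ p ∈ Finset.HasAntidiagonal.antidiagonal m, (∑ u ∈ words p.1, f u) * ∑ u ∈ words p.2, g u := by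
  induction m generalizing f with
  | zero => simp [words, S2]
  | succ m ih =>
    rw [sum_words_succ, Finset.Nat.sum_antidiagonal_succ]
    simp only [S2, Finset.sum_add_distrib, ih, sum_words_succ, ← Finset.mul_sum]
    congr 1
    · simp [words]
    · rw [Finset.sum_comm]
      simp only [Finset.sum_mul]

theorem sum_words_S3 (f g : List Λ → ℝ) (m : ℕ) :
    ∑ u ∈ words (m + 1), S3 (fun a _ b => f a * g b) u = Fintype.card Λ *
      ∑ p ∈ Finset.HasAntidiagonal.antidiagonal m, (∑ u ∈ words p.1, f u) * ∑ u ∈ words p.2, g u := by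
  induction m generalizing f with
  | zero => simp [words, S3]
  | succ m ih =>
    rw [sum_words_succ, Finset.Nat.sum_antidiagonal_succ]
    simp only [S3, Finset.sum_add_distrib, ih, ← Finset.mul_sum, mul_add]
    congr 1
    · simp [words, mul_left_comm]
    · congr 1
      rw [Finset.sum_comm]
      simp only [sum_words_succ, Finset.sum_mul]

theorem sum_le_sum_words (s : Finset (List Λ)) (f : List Λ → ℝ) (hf : ∀ u, 0 ≤ f u) :
    ∃ M, ∑ u ∈ s, f u ≤ ∑ m ∈ Finset.range M, ∑ u ∈ words m, f u := by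
  refine ⟨s.sup List.length + 1, ?_⟩
  rw [← Finset.sum_fiberwise_of_maps_to (s := s) (t := Finset.range (s.sup List.length + 1))
    (g := List.length) fun u hu => Finset.mem_range.mpr (Nat.lt_succ_of_le (Finset.le_sup hu))]
  refine Finset.sum_le_sum fun m _ => Finset.sum_le_sum_of_subset_of_nonneg ?_ fun u _ _ => hf u
  intro u hu
  exact mem_words.mpr (Finset.mem_filter.mp hu).2

end words

theorem sum_antidiagonal_le (a b : ℕ → ℝ) (ha : ∀ i, 0 ≤ a i) (hb : ∀ i, 0 ≤ b i) (M : ℕ) :
    ∑ m ∈ Finset.range M, ∑ p ∈ Finset.HasAntidiagonal.antidiagonal m, a p.1 * b p.2 ≤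
      (∑ i ∈ Finset.range M, a i) * ∑ i ∈ Finset.range M, b i := by
  simp only [Finset.Nat.sum_antidiagonal_eq_sum_range_succ_mk]
  rw [Finset.sum_range_diag_flip M (fun i j => a i * b j), Finset.sum_mul]
  refine Finset.sum_le_sum fun i _ => ?_
  rw [← Finset.mul_sum]
  refine mul_le_mul_of_nonneg_left ?_ (ha i)
  exact Finset.sum_le_sum_of_subset_of_nonneg (Finset.range_subset_range.mpr (Nat.sub_le _ _))
    fun j _ _ => hb j

/-- The majorant series stays below `1 / 4`. -/
theorem majorant (t γ : ℕ → ℝ) (ht : ∀ m, 0 ≤ t m) (hγ : ∀ m, 0 ≤ γ m) (h0 : t 0 = 0)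
    (hγ0 : γ 0 ≤ 1) (hγs : ∀ m, γ (m + 1) ≤ t (m + 1))
    (h1 : t 1 ≤ γ 0 / 10)
    (hs : ∀ m, t (m + 2) ≤ γ (m + 1) / 10 + (∑ p ∈ Finset.HasAntidiagonal.antidiagonal m, t p.1 * γ p.2) / 10 +
      ∑ p ∈ Finset.HasAntidiagonal.antidiagonal (m + 1), t (p.1 + 1) * t p.2) (M : ℕ) :
    ∑ m ∈ Finset.range M, t m ≤ 1 / 4 := by
  have hmono : ∀ {a b : ℕ}, a ≤ b → ∑ m ∈ Finset.range a, t m ≤ ∑ m ∈ Finset.range b, t m :=
    fun h => Finset.sum_le_sum_of_subset_of_nonneg (Finset.range_subset_range.mpr h)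
      fun j _ _ => ht j
  have key : ∀ M, ∑ m ∈ Finset.range (M + 1), t m ≤ 1 / 4 := by
    intro M
    induction M with
    | zero => simp [h0]
    | succ M ih =>
      have hN0 : 0 ≤ ∑ m ∈ Finset.range (M + 1), t m := Finset.sum_nonneg fun m _ => ht m
      have e1 : ∑ m ∈ Finset.range (M + 1), t m = ∑ m ∈ Finset.range M, t (m + 1) := by
        rw [Finset.sum_range_succ', h0, add_zero]
      have hg : ∑ m ∈ Finset.range (M + 1), γ m ≤ 1 + ∑ m ∈ Finset.range (M + 1), t m := by
        rw [Finset.sum_range_succ', e1]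
        have := Finset.sum_le_sum fun m (_ : m ∈ Finset.range M) => hγs m
        linarith
      have hg' : ∑ m ∈ Finset.range M, γ m ≤ 1 + ∑ m ∈ Finset.range (M + 1), t m :=
        le_trans (Finset.sum_le_sum_of_subset_of_nonneg
          (Finset.range_subset_range.mpr (Nat.le_succ M)) fun j _ _ => hγ j) hg
      have a1 := sum_antidiagonal_le t γ ht hγ M
      have a2 := sum_antidiagonal_le (fun i => t (i + 1)) (fun i => t (i + 1)) (fun i => ht _)
        (fun i => ht _) M
      have a3 : ∀ m, ∑ p ∈ Finset.HasAntidiagonal.antidiagonal (m + 1), t (p.1 + 1) * t p.2 =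
          ∑ p ∈ Finset.HasAntidiagonal.antidiagonal m, t (p.1 + 1) * t (p.2 + 1) := by
        intro m
        rw [Finset.Nat.sum_antidiagonal_succ', h0]
        simp
      have a4 : ∑ m ∈ Finset.range M, t (m + 2) ≤ (∑ m ∈ Finset.range M, γ (m + 1)) / 10 +
          (∑ m ∈ Finset.range M, ∑ p ∈ Finset.HasAntidiagonal.antidiagonal m, t p.1 * γ p.2) / 10 +
          ∑ m ∈ Finset.range M, ∑ p ∈ Finset.HasAntidiagonal.antidiagonal m, t (p.1 + 1) * t (p.2 + 1) := by
        rw [Finset.sum_div, Finset.sum_div, ← Finset.sum_add_distrib, ← Finset.sum_add_distrib]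
        exact Finset.sum_le_sum fun m _ => by rw [← a3]; exact hs m
      have a5 : (∑ m ∈ Finset.range M, t m) * ∑ m ∈ Finset.range M, γ m ≤ 1 / 4 * (1 + 1 / 4) :=
        mul_le_mul ((hmono (Nat.le_succ M)).trans ih) (by linarith)
          (Finset.sum_nonneg fun m _ => hγ m) (by norm_num)
      rw [← e1] at a2
      have a6 : (∑ m ∈ Finset.range (M + 1), t m) * ∑ m ∈ Finset.range (M + 1), t m ≤
          1 / 4 * (1 / 4) := mul_le_mul ih ih hN0 (by norm_num)
      rw [Finset.sum_range_succ'] at hg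
      rw [Finset.sum_range_succ', Finset.sum_range_succ', h0]
      simp only [zero_add, add_assoc, Nat.reduceAdd] at *
      linarith
  exact (hmono (Nat.le_succ M)).trans (key M)

end Pool.Agent.MP_ce43bb_an.H78
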